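import Mathlib

/-!
# Twisted group algebras of finite groups: basic facts

`TGA K G A` : a `K`-algebra `A` with a basis `b g` (`g : G`) such that `b g * b h` is a nonzero
scalar multiple of `b (g * h)`.
-/

set_option autoImplicit false

namespace Pool.MP_9ebf7f_al.Sol

open Module

/-- Twisted group algebra data. -/
structure TGA (K G A : Type*) [Field K] [Group G] [Ring A] [Algebra K A] where
  b : Basis G K A
  c : G → G → K
  hc : ∀ g h, c g h ≠ 0
  hb : ∀ g h, b g * b h = c g h • b (g * h)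

namespace TGA

variable {K G A : Type*} [Field K] [Group G] [Ring A] [Algebra K A] (T : TGA K G A)

lemma c_one_left (g : G) : T.c 1 g = T.c 1 1 := by
  have h := mul_assoc (T.b 1) (T.b 1) (T.b g)
  have h1 : T.b 1 * T.b 1 * T.b g = (T.c 1 1 * T.c 1 g) • T.b g := by
    rw [T.hb, smul_mul_assoc, mul_one, T.hb, one_mul, smul_smul]
  have h2 : T.b 1 * (T.b 1 * T.b g) = (T.c 1 g * T.c 1 g) • T.b g := by
    rw [T.hb, one_mul, mul_smul_comm, T.hb, one_mul, smul_smul]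
  rw [h1, h2] at h
  have h3 := smul_left_injective K (T.b.ne_zero g) h
  exact (mul_right_cancel₀ (T.hc 1 g) h3).symm

lemma one_eq : (1 : A) = (T.c 1 1)⁻¹ • T.b 1 := by
  have key : ∀ a : A, ((T.c 1 1)⁻¹ • T.b 1) * a = a := by
    intro a
    have : LinearMap.mulLeft K ((T.c 1 1)⁻¹ • T.b 1) = LinearMap.id := by
      apply T.b.ext
      intro g
      rw [LinearMap.mulLeft_apply, smul_mul_assoc, T.hb, one_mul, T.c_one_left g, smul_smul,
        inv_mul_cancel₀ (T.hc 1 1), one_smul]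
      rfl
    have h2 := LinearMap.congr_fun this a
    simpa using h2
  have := key 1
  rw [mul_one] at this
  exact this.symm

lemma b_one : T.b 1 = T.c 1 1 • (1 : A) := by
  rw [T.one_eq, smul_smul, mul_inv_cancel₀ (T.hc 1 1), one_smul]

include T in
lemma nontriv : (1 : A) ≠ 0 := by
  rw [T.one_eq]
  exact smul_ne_zero (inv_ne_zero (T.hc 1 1)) (T.b.ne_zero 1)

lemma b_mul_b_inv (g : G) : T.b g * T.b g⁻¹ = (T.c g g⁻¹ * T.c 1 1) • (1 : A) := by
  rw [T.hb, mul_inv_cancel, T.b_one, smul_smul]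

/-- `b g` as a unit. -/
noncomputable def u (g : G) : Aˣ :=
  ⟨T.b g, (T.c g g⁻¹ * T.c 1 1)⁻¹ • T.b g⁻¹, by
    rw [mul_smul_comm, b_mul_b_inv, smul_smul,
      inv_mul_cancel₀ (mul_ne_zero (T.hc _ _) (T.hc _ _)), one_smul], by
    -- right inverse: use that `b g⁻¹` also has a right inverse
    have h1 : T.b g * ((T.c g g⁻¹ * T.c 1 1)⁻¹ • T.b g⁻¹) = 1 := by
      rw [mul_smul_comm, b_mul_b_inv, smul_smul,
        inv_mul_cancel₀ (mul_ne_zero (T.hc _ _) (T.hc _ _)), one_smul]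
    have h2 : ((T.c g g⁻¹ * T.c 1 1)⁻¹ • T.b g⁻¹) *
        (((T.c g g⁻¹ * T.c 1 1) * (T.c g⁻¹ g * T.c 1 1)⁻¹) • T.b g) = 1 := by
      rw [smul_mul_smul_comm]
      have h3 := T.b_mul_b_inv g⁻¹
      rw [inv_inv] at h3
      rw [h3, smul_smul]
      have e1 : (T.c g g⁻¹ * T.c 1 1) ≠ 0 := mul_ne_zero (T.hc _ _) (T.hc _ _)
      have e2 : (T.c g⁻¹ g * T.c 1 1) ≠ 0 := mul_ne_zero (T.hc _ _) (T.hc _ _)
      rw [inv_mul_cancel_left₀ e1, inv_mul_cancel₀ e2, one_smul]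
    have h4 : T.b g = ((T.c g g⁻¹ * T.c 1 1) * (T.c g⁻¹ g * T.c 1 1)⁻¹) • T.b g :=
      left_inv_eq_right_inv h1 h2
    rw [← h4] at h2
    exact h2⟩

@[simp] lemma u_val (g : G) : (T.u g : A) = T.b g := rfl

/-- The group of homogeneous units, as pairs (unit, degree). -/
def Gam : Subgroup (Aˣ × G) where
  carrier := {p | ∃ a : K, a ≠ 0 ∧ (p.1 : A) = a • T.b p.2}
  mul_mem' := by
    rintro ⟨v, g⟩ ⟨w, h⟩ ⟨a, ha, hv⟩ ⟨a', ha', hw⟩
    refine ⟨a * a' * T.c g h, mul_ne_zero (mul_ne_zero ha ha') (T.hc _ _), ?_⟩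
    simp only [Prod.fst_mul, Prod.snd_mul, Units.val_mul] at hv hw ⊢
    rw [hv, hw, smul_mul_smul_comm, T.hb, smul_smul]
  one_mem' := ⟨(T.c 1 1)⁻¹, inv_ne_zero (T.hc _ _), by simpa using T.one_eq⟩
  inv_mem' := by
    rintro ⟨v, g⟩ ⟨a, ha, hv⟩
    refine ⟨a⁻¹ * (T.c g g⁻¹ * T.c 1 1)⁻¹,
      mul_ne_zero (inv_ne_zero ha) (inv_ne_zero (mul_ne_zero (T.hc _ _) (T.hc _ _))), ?_⟩
    simp only [Prod.fst_inv, Prod.snd_inv] at hv ⊢
    apply Units.inv_eq_of_mul_eq_one_right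
    have e1 : (T.c g g⁻¹ * T.c 1 1) ≠ 0 := mul_ne_zero (T.hc _ _) (T.hc _ _)
    rw [hv, smul_mul_smul_comm, b_mul_b_inv, smul_smul, mul_inv_cancel_left₀ ha,
      inv_mul_cancel₀ e1, one_smul]

lemma mem_Gam {p : Aˣ × G} : p ∈ T.Gam ↔ ∃ a : K, a ≠ 0 ∧ (p.1 : A) = a • T.b p.2 := Iff.rfl

/-- The element `(b g, g)` of `Γ`. -/
noncomputable def s (g : G) : T.Gam := ⟨(T.u g, g), 1, one_ne_zero, by simp⟩

/-- degree map -/
def deg : T.Gam →* G := (MonoidHom.snd Aˣ G).comp T.Gam.subtype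

lemma deg_apply (x : T.Gam) : T.deg x = (x : Aˣ × G).2 := rfl

@[simp] lemma deg_s (g : G) : T.deg (T.s g) = g := rfl

lemma deg_surj : Function.Surjective T.deg := fun g => ⟨T.s g, rfl⟩

/-- the underlying unit -/
def un : T.Gam →* Aˣ := (MonoidHom.fst Aˣ G).comp T.Gam.subtype

lemma un_apply (x : T.Gam) : T.un x = (x : Aˣ × G).1 := rfl

/-- the coefficient -/
lemma exists_coef (x : T.Gam) : ∃ a : K, a ≠ 0 ∧ (T.un x : A) = a • T.b (T.deg x) := x.2

lemma un_inj : Function.Injective T.un := by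
  intro x y h
  obtain ⟨a, ha, hx⟩ := T.exists_coef x
  obtain ⟨a', ha', hy⟩ := T.exists_coef y
  have h1 : T.deg x = T.deg y := by
    by_contra hne
    rw [h] at hx
    rw [hx] at hy
    have := congrArg (fun z => T.b.repr z (T.deg x)) hy
    simp [Ne.symm hne, ha] at this
  exact Subtype.ext (Prod.ext h h1)

/-- elements of degree `1` are scalars -/
lemma scalar_of_deg {x : T.Gam} (h : T.deg x = 1) : ∃ a : K, a ≠ 0 ∧ (T.un x : A) = a • (1 : A) := by
  obtain ⟨a, ha, hx⟩ := T.exists_coef x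
  refine ⟨a * T.c 1 1, mul_ne_zero ha (T.hc _ _), ?_⟩
  rw [hx, h, T.b_one, smul_smul]

lemma ker_le_center : T.deg.ker ≤ Subgroup.center T.Gam := by
  intro x hx
  rw [MonoidHom.mem_ker] at hx
  obtain ⟨a, ha, hxa⟩ := T.scalar_of_deg hx
  rw [Subgroup.mem_center_iff]
  intro y
  apply T.un_inj
  rw [map_mul, map_mul]
  apply Units.ext
  rw [Units.val_mul, Units.val_mul, hxa]
  simp

/-- The normalised coefficient of the identity. -/
noncomputable def tau : A →ₗ[K] K := T.c 1 1 • (Finsupp.lapply 1 ∘ₗ T.b.repr.toLinearMap)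

lemma tau_apply (a : A) : T.tau a = T.c 1 1 * T.b.repr a 1 := rfl

lemma tau_one : T.tau 1 = 1 := by
  rw [tau_apply, T.one_eq]
  simp [mul_inv_cancel₀ (T.hc 1 1)]

lemma tau_b {g : G} (hg : g ≠ 1) : T.tau (T.b g) = 0 := by
  rw [tau_apply]
  simp [hg]

lemma tau_mul_comm (x y : A) : T.tau (x * y) = T.tau (y * x) := by
  have key : ∀ g h : G, T.tau (T.b g * T.b h) = T.tau (T.b h * T.b g) := by
    intro g h
    by_cases hgh : g * h = 1
    · have h' : h = g⁻¹ := eq_inv_of_mul_eq_one_right hgh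
      subst h'
      have h1 := T.b_mul_b_inv g
      have h2 : T.b g⁻¹ * T.b g = (T.c g g⁻¹ * T.c 1 1) • (1 : A) := by
        have h3 : (T.u g : A) * T.b g⁻¹ = (T.c g g⁻¹ * T.c 1 1) • (1 : A) := h1
        have h4 : T.b g⁻¹ = (T.c g g⁻¹ * T.c 1 1) • ((T.u g)⁻¹ : Aˣ).val := by
          have h5 := congrArg (fun z => ((T.u g)⁻¹ : Aˣ).val * z) h3
          rw [← mul_assoc, Units.inv_mul, one_mul, mul_smul_comm, mul_one] at h5
          exact h5
        rw [h4, smul_mul_assoc]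
        congr 1
        exact Units.inv_mul (T.u g)
      rw [h1, h2]
    · have hhg : h * g ≠ 1 := by
        intro h1
        apply hgh
        have : h = g⁻¹ := eq_inv_of_mul_eq_one_left h1
        rw [this, mul_inv_cancel]
      rw [T.hb, T.hb, map_smul, map_smul, T.tau_b hgh, T.tau_b hhg]
      simp
  have hx : (LinearMap.mul K A).compr₂ T.tau = ((LinearMap.mul K A).flip).compr₂ T.tau := by
    apply T.b.ext
    intro g
    apply T.b.ext
    intro h
    simpa using key g h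
  have := LinearMap.congr_fun (LinearMap.congr_fun hx x) y
  simpa using this

end TGA

end Pool.MP_9ebf7f_al.Sol
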