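import Pool.Agent.Lib.MP_9ebf7f_al.SNT

/-!
# The centre of a simple component and automorphisms
-/

set_option autoImplicit false

namespace Pool.MP_9ebf7f_al.Sol

open Module

section

variable {K A : Type*} [Field K] [Ring A] [Algebra K A]

/-- the centre of `R` -/
def cen (R : Submodule K A) : Submodule K A where
  carrier := {z | IsC R z}
  zero_mem' := SR.c_zero
  add_mem' := fun ha hb => ⟨R.add_mem ha.1 hb.1, fun x hx => by
    rw [add_mul, mul_add, ha.2 x hx, hb.2 x hx]⟩
  smul_mem' := fun c _ ha => ⟨R.smul_mem c ha.1, fun x hx => by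
    rw [smul_mul_assoc, mul_smul_comm, ha.2 x hx]⟩

lemma mem_cen {R : Submodule K A} {z : A} : z ∈ cen R ↔ IsC R z := Iff.rfl

variable {R : Submodule K A} {ε : A}

/-- the centre as a ring -/
@[reducible] def SR.cenRing (h : SR R ε) : CommRing (cen R) :=
  { (inferInstance : AddCommGroup (cen R)) with
    mul := fun x y => ⟨x.1 * y.1, h.c_mul x.2 y.2⟩
    one := ⟨ε, h.c_one⟩
    mul_assoc := fun x y z => Subtype.ext (mul_assoc x.1 y.1 z.1)
    one_mul := fun x => Subtype.ext (h.one_mul x.1 x.2.1)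
    mul_one := fun x => Subtype.ext (h.mul_one x.1 x.2.1)
    zero_mul := fun x => Subtype.ext (zero_mul x.1)
    mul_zero := fun x => Subtype.ext (mul_zero x.1)
    left_distrib := fun x y z => Subtype.ext (mul_add x.1 y.1 z.1)
    right_distrib := fun x y z => Subtype.ext (add_mul x.1 y.1 z.1)
    mul_comm := fun x y => Subtype.ext (x.2.2 y.1 y.2.1) }

lemma SR.cen_isField (h : SR R ε) (hε : ε ≠ 0) : @IsField (cen R) h.cenRing.toSemiring := by
  letI := h.cenRing
  refine { exists_pair_ne := ⟨0, 1, ?_⟩, mul_comm := mul_comm, mul_inv_cancel := ?_ }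
  · intro h0
    exact hε (congrArg Subtype.val h0).symm
  · intro a ha
    have ha' : (a : A) ≠ 0 := fun h0 => ha (Subtype.ext h0)
    obtain ⟨z, hz, hza⟩ := h.c_inv a.2 ha'
    refine ⟨⟨z, hz⟩, Subtype.ext ?_⟩
    change (a : A) * z = ε
    rw [← hza]
    exact a.2.2 z hz.1

/-- The group induced on the centre has order dividing the dimension of the centre. -/
theorem SR.galois [Module.Finite K A] (h : SR R ε) (hε : ε ≠ 0) {N : Type*} [Group N]
    (φ : N →* (A ≃ₐ[K] A)) (hφ : ∀ n z, IsC R z → IsC R (φ n z)) (hφε : ∀ n, φ n ε = ε)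
    (N₂ : Subgroup N) (hN₂ : ∀ n, n ∈ N₂ ↔ ∀ z, IsC R z → φ n z = z) :
    N₂.index ∣ finrank K (cen R) := by
  letI := h.cenRing
  letI : Field (cen R) := (h.cen_isField hε).toField
  letI : Algebra K (cen R) := Algebra.ofModule
    (fun r x y => Subtype.ext (smul_mul_assoc r x.1 y.1))
    (fun r x y => Subtype.ext (mul_smul_comm r x.1 y.1))
  have hfd : FiniteDimensional K (cen R) := by
    change Module.Finite K (cen R)
    infer_instance
  let ψ : N →* (cen R ≃ₐ[K] cen R) :=
    { toFun := fun n =>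
        { toFun := fun z => ⟨φ n z.1, hφ n z.1 z.2⟩
          invFun := fun z => ⟨φ n⁻¹ z.1, hφ n⁻¹ z.1 z.2⟩
          left_inv := fun z => Subtype.ext (by
            change φ n⁻¹ (φ n z.1) = z.1
            rw [← AlgEquiv.mul_apply, ← map_mul, inv_mul_cancel, map_one, AlgEquiv.one_apply])
          right_inv := fun z => Subtype.ext (by
            change φ n (φ n⁻¹ z.1) = z.1
            rw [← AlgEquiv.mul_apply, ← map_mul, mul_inv_cancel, map_one, AlgEquiv.one_apply])
          map_mul' := fun x y => Subtype.ext (map_mul (φ n) x.1 y.1)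
          map_add' := fun x y => Subtype.ext (map_add (φ n) x.1 y.1)
          commutes' := fun r => Subtype.ext (by
            change φ n ((r • (1 : cen R) : cen R) : A) = ((r • (1 : cen R) : cen R) : A)
            change φ n (r • ε) = r • ε
            rw [map_smul, hφε]) }
      map_one' := by
        ext z
        change φ 1 z.1 = z.1
        rw [map_one, AlgEquiv.one_apply]
      map_mul' := fun m n => by
        ext z
        change φ (m * n) z.1 = φ m (φ n z.1)
        rw [map_mul, AlgEquiv.mul_apply] }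
  have hker : ψ.ker = N₂ := by
    ext n
    rw [MonoidHom.mem_ker, hN₂]
    constructor
    · intro h1 z hz
      have h2 := congrArg (fun f : (cen R ≃ₐ[K] cen R) => ((f ⟨z, hz⟩ : cen R) : A)) h1
      exact h2
    · intro h1
      ext z
      exact h1 z.1 z.2
  rw [← hker, Subgroup.index_ker]
  rw [← IntermediateField.finrank_fixedField_eq_card ψ.range]
  exact ⟨_, by
    rw [mul_comm]
    exact (Module.finrank_mul_finrank K (IntermediateField.fixedField ψ.range) (cen R)).symm⟩

/-- The dimension of the centre divides the dimension of `R`. -/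
theorem SR.cen_dvd [Module.Finite K A] (h : SR R ε) (hε : ε ≠ 0) :
    finrank K (cen R) ∣ finrank K R := by
  apply div_dim
  · intro x hx y hy; exact h.c_mul hx hy
  · intro x hx w hw; exact h.mul x hx.1 w hw
  · intro x hx hx0
    obtain ⟨z, hz, hzx⟩ := h.c_inv hx hx0
    refine ⟨z, hz, fun w hw => ?_⟩
    rw [← mul_assoc, hzx, h.one_mul w hw]
  · rw [Module.finrank_pos_iff_exists_ne_zero]
    exact ⟨⟨ε, h.c_one⟩, fun h0 => hε (congrArg Subtype.val h0)⟩

end

namespace TGA

variable {K G A : Type*} [Field K] [Group G] [Ring A] [Algebra K A] (T : TGA K G A)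

/-- conjugation as a homomorphism -/
noncomputable def conjHom : G →* (A ≃ₐ[K] A) where
  toFun := T.conj
  map_one' := by ext x; simp
  map_mul' g h := by ext x; exact T.conj_mul g h x

@[simp] lemma conjHom_apply (g : G) : T.conjHom g = T.conj g := rfl

/-- the group of elements acting trivially on the centre -/
noncomputable def fixC (R : Submodule K A) (N : Subgroup G) : Subgroup G where
  carrier := {n | n ∈ N ∧ ∀ z, IsC R z → T.conj n z = z}
  one_mem' := ⟨N.one_mem, fun z _ => T.conj_one z⟩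
  mul_mem' := fun ha hb => ⟨N.mul_mem ha.1 hb.1, fun z hz => by
    rw [conj_mul, hb.2 z hz, ha.2 z hz]⟩
  inv_mem' := fun ha => ⟨N.inv_mem ha.1, fun z hz => by
    conv_lhs => rw [← ha.2 z hz]
    rw [conj_inv_conj]⟩

lemma mem_fixC {R : Submodule K A} {N : Subgroup G} {n : G} :
    n ∈ T.fixC R N ↔ n ∈ N ∧ ∀ z, IsC R z → T.conj n z = z := Iff.rfl

lemma fixC_le {R : Submodule K A} {N : Subgroup G} : T.fixC R N ≤ N := fun _ h => h.1

variable {T}

namespace MinC

variable {Q : Subgroup G} {ε : A}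

lemma conj_isC {g : G} (hg : g ∈ Subgroup.normalizer (Q : Set G)) (hε : T.conj g ε = ε) {z : A}
    (hz : IsC (T.Rc Q ε) z) : IsC (T.Rc Q ε) (T.conj g z) := by
  refine ⟨conj_mem_Rc hg hε hz.1, fun x hx => ?_⟩
  have hginv : g⁻¹ ∈ Subgroup.normalizer (Q : Set G) := (Subgroup.normalizer (Q : Set G)).inv_mem hg
  have hεinv : T.conj g⁻¹ ε = ε := by
    conv_lhs => rw [← hε]
    rw [conj_inv_conj]
  have h1 := hz.2 _ (conj_mem_Rc hginv hεinv hx)
  have h2 := congrArg (T.conj g) h1
  rwa [map_mul, map_mul, conj_conj_inv] at h2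

lemma fixC_relIndex [Finite G] (hQ : (Nat.card Q : K) ≠ 0) (h : T.MinC Q ε) (N : Subgroup G)
    (hN : N ≤ Subgroup.normalizer (Q : Set G)) (hNε : ∀ n ∈ N, T.conj n ε = ε) :
    (T.fixC (T.Rc Q ε) N).relIndex N ∣ finrank K (T.Rc Q ε) := by
  have hfin : Module.Finite K A := Module.Finite.of_basis T.b
  have hR := h.sr hQ
  refine dvd_trans ?_ (hR.cen_dvd h.ne)
  apply hR.galois h.ne (T.conjHom.comp N.subtype)
  · intro n z hz
    exact conj_isC (hN n.2) (hNε n n.2) hz
  · intro n; exact hNε n n.2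
  · intro n
    rw [Subgroup.mem_subgroupOf, mem_fixC]
    exact ⟨fun h => h.2, fun h => ⟨n.2, h⟩⟩

end MinC

end TGA

end Pool.MP_9ebf7f_al.Sol
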