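import Pool.Agent.Lib.MP_9ebf7f_al.Units

/-!
# The inertia group covers the chief factor
-/

set_option autoImplicit false

namespace Pool.MP_9ebf7f_al.Sol

open Module Subgroup
open scoped commutatorElement

lemma card_ne_zero_of_pgroup {K G : Type*} [Field K] [Group G] [Finite G] {q : ℕ}
    [hq : Fact q.Prime] (hqK : (q : K) ≠ 0) (hG : IsPGroup q G) : (Nat.card G : K) ≠ 0 := by
  obtain ⟨n, hn⟩ := IsPGroup.iff_card.mp hG
  rw [hn, Nat.cast_pow]; exact pow_ne_zero _ hqK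

lemma le_of_noIdx {H : Type} [Group H] {q : ℕ} [hq : Fact q.Prime] {J X : Subgroup H}
    (hJ : NoIdx q J) {k : ℕ} (h : X.relIndex J ∣ q ^ k) : J ≤ X := by
  obtain ⟨j, _, hj⟩ := (Nat.dvd_prime_pow hq.out).mp h
  exact subgroupOf_eq_top.mp (hJ (X.subgroupOf J) j hj)

namespace TGA

theorem exists_inertia {K G A : Type} [Field K] [Group G] [Finite G] [Ring A] [Algebra K A]
    (T : TGA K G A) [IsSimpleRing A] (M N : Subgroup G) [M.Normal] [N.Normal] (hMN : M ≤ N)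
    {q : ℕ} [hq : Fact q.Prime] (hqK : (q : K) ≠ 0)
    (hJ : NoIdx q (N.map (QuotientGroup.mk' M))) :
    ∃ (P : Subgroup G) (ε : A) (N₂ : Subgroup G),
      IsPGroup q P ∧ ¬ q ∣ P.index ∧ T.MinC (P ⊓ M) ε ∧ P ≤ normalizer ((P ⊓ M : Subgroup G) : Set G) ∧
      ¬ q ∣ P.relIndex M ∧ N₂ ≤ T.stab (P ⊓ M) ε ∧
      (∀ n ∈ N₂, ∀ z, IsC (T.Rc (P ⊓ M) ε) z → T.conj n z = z) ∧ P ⊓ M ≤ N₂ ∧
      (∀ s ∈ T.stab (P ⊓ M) ε, ∀ n ∈ N₂, s * n * s⁻¹ ∈ N₂) ∧ ¬ q ∣ P.relIndex N₂ ∧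
      N₂.map (QuotientGroup.mk' M) = N.map (QuotientGroup.mk' M) := by
  classical
  obtain ⟨P₀⟩ : Nonempty (Sylow q G) := inferInstance
  obtain ⟨P, hPdef⟩ : ∃ P : Subgroup G, P = P₀ := ⟨_, rfl⟩
  have hP : IsPGroup q P := by rw [hPdef]; exact P₀.2
  have hidx : ¬ q ∣ P.index := by rw [hPdef]; exact P₀.not_dvd_index
  obtain ⟨Q, hQdef⟩ : ∃ Q : Subgroup G, Q = P ⊓ M := ⟨_, rfl⟩
  have hQP : Q ≤ P := by rw [hQdef]; exact inf_le_left
  have hQM : Q ≤ M := by rw [hQdef]; exact inf_le_right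
  have hQ : (Nat.card Q : K) ≠ 0 := card_ne_zero_of_pgroup hqK (hP.to_le hQP)
  have hPQ : P ≤ normalizer (Q : Set G) := by
    intro g hg
    rw [mem_normalizer_iff]
    intro x
    rw [hQdef, mem_inf, mem_inf]
    have hM : M.Normal := inferInstance
    constructor
    · rintro ⟨h1, h2⟩
      exact ⟨P.mul_mem (P.mul_mem hg h1) (P.inv_mem hg), hM.conj_mem x h2 g⟩
    · rintro ⟨h1, h2⟩
      have h3 := P.mul_mem (P.mul_mem (P.inv_mem hg) h1) hg
      have h4 := hM.conj_mem _ h2 g⁻¹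
      have e1 : g⁻¹ * (g * x * g⁻¹) * g = x := by group
      have e2 : g⁻¹ * (g * x * g⁻¹) * g⁻¹⁻¹ = x := by group
      rw [e1] at h3
      rw [e2] at h4
      exact ⟨h3, h4⟩
  have hidxM : ¬ q ∣ P.relIndex M := fun h => hidx (h.trans (relIndex_dvd_index_of_normal' P M))
  obtain ⟨ε, h⟩ := T.exists_minC Q
  have := Fintype.ofFinite P
  obtain ⟨S, hS⟩ : ∃ S, S = T.stab Q ε := ⟨_, rfl⟩
  obtain ⟨L, hL⟩ : ∃ L : Subgroup G, L = normalizer (Q : Set G) := ⟨_, rfl⟩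
  have hSL : S ≤ L := by rw [hS, hL]; exact fun g hg => hg.1
  have hPL : P ≤ L := by rw [hL]; exact hPQ
  have hcover : ∀ g ∈ L, ∃ p ∈ P, p⁻¹ * g ∈ S := by
    intro g hg
    rw [hL] at hg
    rw [hS]
    exact MinC.stab_cover hqK hP hidx hQP h hPQ hg
  have hSidx : S.relIndex L = S.relIndex P := relIndex_eq_of_mul hPL hcover
  -- `P ∩ S` is a Sylow subgroup of `S`
  have hPS : ¬ q ∣ P.relIndex S := by
    have h1 := relIndex_mul_relIndex (P ⊓ S) S L inf_le_right hSL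
    have h2 := relIndex_mul_relIndex (P ⊓ S) P L inf_le_left hPL
    rw [inf_relIndex_right] at h1
    rw [inf_relIndex_left] at h2
    rw [← h2, hSidx, mul_comm] at h1
    have h3 : S.relIndex P ≠ 0 := by
      unfold relIndex; exact index_ne_zero_of_finite
    have h4 : P.relIndex S = P.relIndex L := Nat.eq_of_mul_eq_mul_left (Nat.pos_of_ne_zero h3) h1
    rw [h4]
    exact fun h => hidx (h.trans (relIndex_dvd_index_of_le hPL))
  -- Frattini
  have hfrat : L ⊔ M = ⊤ := by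
    have hP' : IsPGroup q (P.subgroupOf M) := hP.comap_of_injective M.subtype M.subtype_injective
    have h1 := Sylow.normalizer_sup_eq_top (hP'.toSylow hidxM)
    have h2 : ((hP'.toSylow hidxM : Sylow q M) : Subgroup M).map M.subtype = Q := by
      rw [hQdef]; exact subgroupOf_map_subtype P M
    rw [h2] at h1
    rw [hL]; exact h1
  obtain ⟨π, hπ⟩ : ∃ π : G →* G ⧸ M, π = QuotientGroup.mk' M := ⟨_, rfl⟩
  rw [← hπ] at hJ ⊢
  have hπM : ∀ g, π g = 1 ↔ g ∈ M := by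
    intro g; rw [hπ]; exact QuotientGroup.eq_one_iff g
  have hπs : Function.Surjective π := by rw [hπ]; exact QuotientGroup.mk'_surjective M
  have hJn : (N.map π).Normal := Normal.map inferInstance π hπs
  -- `S` has index a power of `q` modulo `M`
  obtain ⟨i, hi⟩ : ∃ i, (S.map π).index = q ^ i := by
    have h1 : (S.map π).relIndex ⊤ = (S.map π).relIndex (P.map π) := by
      apply relIndex_eq_of_mul le_top
      intro x _
      obtain ⟨g, rfl⟩ := hπs x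
      have hg : g ∈ L ⊔ M := by rw [hfrat]; trivial
      rw [← SetLike.mem_coe, mul_normal] at hg
      obtain ⟨l, hl, m, hm, rfl⟩ := hg
      obtain ⟨p, hp, hpl⟩ := hcover l hl
      refine ⟨π p, ⟨p, hp, rfl⟩, ?_⟩
      refine ⟨p⁻¹ * l, hpl, ?_⟩
      simp only
      rw [map_mul, map_mul, map_inv, (hπM m).mpr hm, mul_one]
    have h2 : IsPGroup q (P.map π) := hP.map π
    obtain ⟨n, hn⟩ := IsPGroup.iff_card.mp h2
    have h3 : (S.map π).index ∣ q ^ n := by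
      rw [← relIndex_top_right, h1, ← hn]
      exact relIndex_dvd_card _ _
    obtain ⟨j, _, hj⟩ := (Nat.dvd_prime_pow hq.out).mp h3
    exact ⟨j, hj⟩
  have hJS : N.map π ≤ S.map π := by
    apply le_of_noIdx hJ (k := i)
    rw [← hi]
    exact relIndex_dvd_index_of_normal' _ _
  have hNε : (N ⊓ S).map π = N.map π := by
    apply le_antisymm (Subgroup.map_mono inf_le_left)
    intro x hx
    obtain ⟨s, hs, rfl⟩ := hJS hx
    obtain ⟨n, hn, hns⟩ := hx
    have h1 : n⁻¹ * s ∈ M := by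
      rw [← hπM, map_mul, map_inv, hns, inv_mul_cancel]
    have h2 : s ∈ N := by
      have := N.mul_mem hn (hMN h1)
      rwa [mul_inv_cancel_left] at this
    exact ⟨s, ⟨h2, hs⟩, rfl⟩
  have hdim : finrank K (T.Rc Q ε) ∣ Nat.card Q := MinC.dim_dvd hqK hP hidx hQP h hPQ
  obtain ⟨j, hj⟩ := IsPGroup.iff_card.mp (hP.to_le hQP)
  obtain ⟨N₂, hN₂⟩ : ∃ N₂, N₂ = T.fixC (T.Rc Q ε) (N ⊓ S) := ⟨_, rfl⟩
  have hN₂le : N₂ ≤ N ⊓ S := by rw [hN₂]; exact T.fixC_le
  have hrel : N₂.relIndex (N ⊓ S) ∣ q ^ j := by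
    rw [← hj, hN₂]
    refine dvd_trans (MinC.fixC_relIndex hQ h (N ⊓ S) ?_ ?_) hdim
    · intro n hn
      have := hSL hn.2
      rwa [hL] at this
    · intro n hn
      have := hn.2
      rw [hS] at this
      exact this.2
  have hN₂map : N₂.map π = N.map π := by
    apply le_antisymm
    · exact Subgroup.map_mono (hN₂le.trans inf_le_left)
    · apply le_of_noIdx hJ (k := j)
      rw [← hNε]
      exact (relIndex_map_dvd π hN₂le).trans hrel
  have hQN₂ : Q ≤ N₂ := by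
    intro u hu
    have huL : u ∈ normalizer (Q : Set G) := le_normalizer hu
    rw [hN₂, mem_fixC, mem_inf, hS, mem_stab]
    refine ⟨⟨hMN (hQM hu), huL, ?_⟩, ?_⟩
    · rw [conj_eq_iff, h.comm _ (T.b_mem_sub hu)]
    · intro z hz
      rw [conj_eq_iff]
      have h1 := hz.2 _ (h.mul_mem_Rc (T.b_mem_sub hu))
      have h2 : ε * z = z := hz.1.2
      have h3 : z * ε = z := by rw [← h.comm z hz.1.1, h2]
      calc T.b u * z = T.b u * (ε * z) := by rw [h2]
        _ = (ε * T.b u) * z := by rw [h.comm _ (T.b_mem_sub hu), mul_assoc]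
        _ = z * (ε * T.b u) := h1.symm
        _ = z * T.b u := by rw [← mul_assoc, h3]
  have hN₂conj : ∀ s ∈ S, ∀ n ∈ N₂, s * n * s⁻¹ ∈ N₂ := by
    intro s hs n hn
    have hNn : N.Normal := inferInstance
    rw [hN₂, mem_fixC] at hn ⊢
    refine ⟨⟨hNn.conj_mem n hn.1.1 s, S.mul_mem (S.mul_mem hs hn.1.2) (S.inv_mem hs)⟩, ?_⟩
    intro z hz
    have hsinv : s⁻¹ ∈ T.stab Q ε := by rw [← hS]; exact S.inv_mem hs
    have h1 : IsC (T.Rc Q ε) (T.conj s⁻¹ z) := MinC.conj_isC hsinv.1 hsinv.2 hz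
    rw [conj_mul, conj_mul, hn.2 _ h1, conj_conj_inv]
  have hPN₂ : ¬ q ∣ P.relIndex N₂ := by
    intro hd
    apply hPS
    refine hd.trans (relIndex_dvd_of_normal' P (hN₂le.trans inf_le_right) ?_)
    refine ⟨fun n hn g => ?_⟩
    rw [mem_subgroupOf] at hn ⊢
    exact hN₂conj g g.2 n hn
  rw [hQdef] at h hPQ hQN₂
  rw [hQdef] at hS
  refine ⟨P, ε, N₂, hP, hidx, h, hPQ, hidxM, ?_, ?_, hQN₂, ?_, hPN₂, hN₂map⟩
  · rw [← hS]; exact hN₂le.trans inf_le_right
  · intro n hn z hz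
    rw [hN₂, mem_fixC, hQdef] at hn
    exact hn.2 z hz
  · rw [← hS]; exact hN₂conj

end TGA

end Pool.MP_9ebf7f_al.Sol
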