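import Pool.Agent.Lib.MP_9ebf7f_al.ChiefA

/-!
# No good chief factors
-/

set_option autoImplicit false

namespace Pool.MP_9ebf7f_al.Sol

open Module Subgroup
open scoped commutatorElement

lemma commutator_top_of_perfect {G : Type*} [Group G] {H : Subgroup G} (hH : ⁅H, H⁆ = H) :
    _root_.commutator H = ⊤ := by
  have := map_subtype_commutator H
  rw [hH] at this
  apply Subgroup.map_injective H.subtype_injective
  rw [this, ← MonoidHom.range_eq_map, Subgroup.range_subtype]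

/-- in a finite central extension of a `q`-group the elements of `q`-power order form a subgroup -/
lemma exists_sylow_sub {G : Type*} [Group G] {q : ℕ} [hq : Fact q.Prime] (L C : Subgroup G)
    [Finite L] (hC : ∀ c ∈ C, ∀ w ∈ L, c * w = w * c) (hL : ∀ w ∈ L, ∃ k, w ^ q ^ k ∈ C) :
    ∃ R : Subgroup G, R ≤ L ∧ IsPGroup q R ∧ ∀ w ∈ L, ∀ k, w ^ q ^ k = 1 → w ∈ R := by
  have hcen : C.subgroupOf L ≤ center L := by
    intro c hc
    rw [mem_subgroupOf] at hc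
    rw [mem_center_iff]
    intro w
    exact Subtype.ext (hC c hc w w.2).symm
  have hn : (C.subgroupOf L).Normal := ⟨fun c hc g => by
    have h1 := hcen hc
    rw [mem_center_iff] at h1
    rw [h1 g, mul_inv_cancel_right]; exact hc⟩
  have hpg : IsPGroup q (L ⧸ C.subgroupOf L) := by
    intro x
    induction x using QuotientGroup.induction_on with
    | H w =>
      obtain ⟨k, hk⟩ := hL w w.2
      refine ⟨k, ?_⟩
      rw [← QuotientGroup.mk_pow, QuotientGroup.eq_one_iff, mem_subgroupOf]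
      exact hk
  have hnil1 : Group.IsNilpotent (L ⧸ C.subgroupOf L) := hpg.isNilpotent
  have hnil : Group.IsNilpotent L :=
    Subgroup.isNilpotent_of_ker_le_center (QuotientGroup.mk' (C.subgroupOf L))
      (by rw [QuotientGroup.ker_mk']; exact hcen)
  obtain ⟨R⟩ : Nonempty (Sylow q L) := inferInstance
  have hRn : (R : Subgroup L).Normal := inferInstance
  refine ⟨(R : Subgroup L).map L.subtype, ?_, R.2.map _, ?_⟩
  · rintro _ ⟨x, _, rfl⟩; exact x.2
  · intro w hw k hk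
    have hz : IsPGroup q (zpowers (⟨w, hw⟩ : L)) := by
      rintro ⟨x, hx⟩
      obtain ⟨j, rfl⟩ := mem_zpowers_iff.mp hx
      refine ⟨k, ?_⟩
      apply Subtype.ext
      apply Subtype.ext
      change (w ^ j) ^ q ^ k = 1
      rw [← zpow_natCast, ← zpow_mul, mul_comm, zpow_mul, zpow_natCast, hk, one_zpow]
    have h1 : IsPGroup q ((R : Subgroup L) ⊔ zpowers (⟨w, hw⟩ : L) : Subgroup L) :=
      R.2.to_sup_of_normal_left hz
    have h2 := R.3 h1 le_sup_left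
    have h3 : (⟨w, hw⟩ : L) ∈ (R : Subgroup L) := by
      have h4 : (⟨w, hw⟩ : L) ∈ ((R : Subgroup L) ⊔ zpowers (⟨w, hw⟩ : L) : Subgroup L) :=
        (le_sup_right : zpowers (⟨w, hw⟩ : L) ≤ _) (mem_zpowers _)
      rw [h2] at h4
      exact h4
    exact ⟨⟨w, hw⟩, h3, rfl⟩

namespace TGA

section

variable {K G A : Type*} [Field K] [Group G] [Ring A] [Algebra K A] {T : TGA K G A}
variable {Q : Subgroup G} {ε : A}

lemma IsV.pow (h : T.MinC Q ε) {v : Aˣ} {n : G} (hv : IsV T Q ε v n) (k : ℕ) :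
    IsV T Q ε (v ^ k) (n ^ k) := by
  induction k with
  | zero => rw [pow_zero, pow_zero]; exact IsV.one h
  | succ k ih => rw [pow_succ, pow_succ]; exact ih.mul h.idem hv

lemma u_inv_conj (k : G) (v : Aˣ) :
    T.u k⁻¹ * v * (T.u k⁻¹)⁻¹ = (T.u k)⁻¹ * v * T.u k := by
  apply Units.ext
  change T.conj k⁻¹ v = _
  rw [← T.conj_inv_conj k (((T.u k)⁻¹ * v * T.u k : Aˣ) : A)]
  congr 1
  change (v : A) = T.u k * ((((T.u k)⁻¹ * v * T.u k : Aˣ)) : A) * ((T.u k)⁻¹ : Aˣ)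
  rw [← Units.val_mul, ← Units.val_mul]
  congr 1
  group

lemma VV_conj' (h : T.MinC Q ε) (M : Subgroup G) [M.Normal] (X : Subgroup G) {k : G}
    (hk : k ∈ T.stab Q ε) (hX : ∀ n ∈ X, k⁻¹ * n * k ∈ X)
    {p : Aˣ × (G ⧸ M)} (hp : p ∈ VV h M X) :
    (T.u k, (k : G ⧸ M))⁻¹ * p * (T.u k, (k : G ⧸ M)) ∈ VV h M X := by
  have h1 := VV_conj h M X ((T.stab Q ε).inv_mem hk) (by
    intro n hn; rw [inv_inv]; exact hX n hn) hp
  have h2 : (T.u k⁻¹, ((k⁻¹ : G) : G ⧸ M)) * p * (T.u k⁻¹, ((k⁻¹ : G) : G ⧸ M))⁻¹ =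
      (T.u k, (k : G ⧸ M))⁻¹ * p * (T.u k, (k : G ⧸ M)) := by
    apply Prod.ext
    · exact u_inv_conj k p.1
    · simp only [Prod.snd_mul, Prod.snd_inv, QuotientGroup.mk_inv, inv_inv]
  rwa [h2] at h1

lemma VV_map_conj (h : T.MinC Q ε) (M : Subgroup G) [M.Normal] (X : Subgroup G) {k : G}
    (hk : k ∈ T.stab Q ε) (hX : ∀ n ∈ X, k * n * k⁻¹ ∈ X) (hX' : ∀ n ∈ X, k⁻¹ * n * k ∈ X) :
    (VV h M X).map (MulAut.conj (T.u k, (k : G ⧸ M))).toMonoidHom = VV h M X := by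
  apply le_antisymm
  · rintro _ ⟨p, hp, rfl⟩
    exact VV_conj h M X hk hX hp
  · intro p hp
    refine ⟨(T.u k, (k : G ⧸ M))⁻¹ * p * (T.u k, (k : G ⧸ M)), VV_conj' h M X hk hX' hp, ?_⟩
    change (T.u k, (k : G ⧸ M)) * ((T.u k, (k : G ⧸ M))⁻¹ * p * (T.u k, (k : G ⧸ M))) *
      (T.u k, (k : G ⧸ M))⁻¹ = p
    group

end

/-- The key theorem: the chief factor `N / M` is not good. -/
theorem no_good_chief {K G A : Type} [Field K] [Group G] [Finite G] [Ring A] [Algebra K A]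
    (T : TGA K G A) [IsSimpleRing A] (M N : Subgroup G) [M.Normal] [N.Normal] (hMN : M ≤ N)
    {q : ℕ} [hq : Fact q.Prime] (hqK : (q : K) ≠ 0)
    (hperf : ⁅N.map (QuotientGroup.mk' M), N.map (QuotientGroup.mk' M)⁆ =
      N.map (QuotientGroup.mk' M))
    (hidxJ : NoIdx q (N.map (QuotientGroup.mk' M)))
    (hmultJ : NoMult q (N.map (QuotientGroup.mk' M)))
    (hqJ : q ∣ Nat.card (N.map (QuotientGroup.mk' M))) : False := by
  classical
  obtain ⟨P, ε, N₂, hP, hidx, h, hPQ, hidxM, hN₂S, hN₂z, hQN₂, hN₂conj, hPN₂, hN₂map⟩ :=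
    T.exists_inertia M N hMN hqK hidxJ
  obtain ⟨Q, hQdef⟩ : ∃ Q : Subgroup G, Q = P ⊓ M := ⟨_, rfl⟩
  rw [← hQdef] at h hPQ hN₂S hN₂z hQN₂ hN₂conj
  have hQP : Q ≤ P := by rw [hQdef]; exact inf_le_left
  have hQM : Q ≤ M := by rw [hQdef]; exact inf_le_right
  have hQ : (Nat.card Q : K) ≠ 0 := card_ne_zero_of_pgroup hqK (hP.to_le hQP)
  obtain ⟨J, hJ⟩ : ∃ J, J = N.map (QuotientGroup.mk' M) := ⟨_, rfl⟩
  rw [← hJ] at hperf hmultJ hqJ hN₂map
  obtain ⟨V, hV⟩ : ∃ V, V = VV h M N₂ := ⟨_, rfl⟩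
  obtain ⟨C, hC⟩ : ∃ C, C = VV h M Q := ⟨_, rfl⟩
  have hVmap : V.map (MonoidHom.snd Aˣ (G ⧸ M)) = J := by
    rw [hV, VV_map h M N₂ hQ hN₂S hN₂z, hN₂map]
  have hCV : C ≤ V := by rw [hC, hV]; exact VV_mono h M hQN₂
  have hCcomm : ∀ c ∈ C, ∀ v ∈ V, c * v = v * c := by
    intro c hc v hv
    rw [hC] at hc
    rw [hV] at hv
    exact VV_central h M N₂ hQM hc hv
  have hfin : C.relIndex V ≠ 0 := by rw [hC, hV]; exact VV_relIndex h M N₂
  obtain ⟨D, hDV, hDfin, hDperf, hDinv, hDconj, hDmap⟩ := exists_perfect_finite hCcomm hCV hfin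
  have hDJ : D.map (MonoidHom.snd Aˣ (G ⧸ M)) = J := by
    rw [hDmap (MonoidHom.snd Aˣ (G ⧸ M)) (by rw [hVmap, hperf]), hVmap]
  -- degrees of elements of `D`
  have hDdeg : ∀ w ∈ D, ∃ n ∈ N₂, (n : G ⧸ M) = w.2 ∧ IsV T Q ε w.1 n := by
    intro w hw
    have := hDV hw
    rw [hV] at this
    exact this
  -- central part has order prime to `q`
  let Z : Subgroup D := C.subgroupOf D
  have hZ : ¬ q ∣ Nat.card Z := by
    let ρ : D →* J := ((MonoidHom.snd Aˣ (G ⧸ M)).comp D.subtype).codRestrict J (by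
      intro x
      rw [← hDJ]
      exact ⟨x.1, x.2, rfl⟩)
    have hρ : Function.Surjective ρ := by
      rintro ⟨j, hj⟩
      have hj' := hj
      rw [← hDJ] at hj'
      obtain ⟨d, hd, hdj⟩ := hj'
      exact ⟨⟨d, hd⟩, Subtype.ext hdj⟩
    apply not_dvd_of_noMult (commutator_top_of_perfect hDperf) ρ hρ Z ?_ ?_ ?_ hmultJ
    · intro c hc
      have hc' : (c : Aˣ × (G ⧸ M)) ∈ C := hc
      rw [mem_center_iff]
      intro w
      exact Subtype.ext (hCcomm c hc' w (hDV w.2)).symm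
    · intro c hc
      have hc' : (c : Aˣ × (G ⧸ M)) ∈ C := hc
      rw [hC] at hc'
      obtain ⟨n, hn, hn2, _⟩ := hc'
      rw [MonoidHom.mem_ker]
      apply Subtype.ext
      change (c : Aˣ × (G ⧸ M)).2 = 1
      rw [← hn2]
      exact (QuotientGroup.eq_one_iff n).mpr (hQM hn)
    · intro w hw hwq
      have hwq' : ((w : Aˣ × (G ⧸ M)) ^ q) ∈ C := hwq
      obtain ⟨n, hn, hn2, hv⟩ := hDdeg w w.2
      have hw2 : (w : Aˣ × (G ⧸ M)).2 = 1 := by
        rw [MonoidHom.mem_ker] at hw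
        exact congrArg Subtype.val hw
      have hnM : n ∈ M := by
        rw [← QuotientGroup.eq_one_iff, hn2, hw2]
      rw [hC] at hwq'
      obtain ⟨u, hu, _, hvu⟩ := hwq'
      have h1 := (hv.pow h q).unique h.ne hvu
      have h2 : n ^ q ^ 1 ∈ Q := by
        rw [pow_one]
        have h3 := Q.mul_mem (Q.inv_mem h1) hu
        rwa [mul_inv_rev, inv_inv, inv_mul_cancel_right] at h3
      have h4 : n ∈ Q := by
        have hL : M ⊓ normalizer (Q : Set G) ≤ normalizer (Q : Set G) := inf_le_right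
        refine mem_of_pow_mem hL hq.out ?_ ⟨hnM, (hN₂S hn).1⟩ h2
        intro hd
        apply hidxM
        have h5 : Q ≤ M ⊓ normalizer (Q : Set G) := le_inf hQM le_normalizer
        have h6 := relIndex_mul_relIndex Q _ M h5 inf_le_left
        have h7 : Q.relIndex M = P.relIndex M := by rw [hQdef, inf_relIndex_right]
        rw [← h7, ← h6]
        exact hd.mul_right _
      change (w : Aˣ × (G ⧸ M)) ∈ C
      rw [hC]
      exact ⟨n, h4, hn2, hv⟩
  -- elements over the Sylow subgroup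
  obtain ⟨Q₂, hQ₂⟩ : ∃ Q₂, Q₂ = P ⊓ N₂ := ⟨_, rfl⟩
  obtain ⟨W, hW⟩ : ∃ W, W = VV h M Q₂ := ⟨_, rfl⟩
  have hLfin : Finite (D ⊓ W : Subgroup (Aˣ × (G ⧸ M))) :=
    Finite.of_injective _ (inclusion_injective (inf_le_left : D ⊓ W ≤ D))
  obtain ⟨R, hRL, hRp, hR⟩ := exists_sylow_sub (q := q) (D ⊓ W) C
    (fun c hc w hw => hCcomm c hc w (hDV hw.1)) (by
      intro w hw
      have hw2 := hw.2
      rw [hW] at hw2
      obtain ⟨n, hn, hn2, hv⟩ := hw2
      rw [hQ₂] at hn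
      obtain ⟨k, hk⟩ := hP ⟨n, hn.1⟩
      have hk' : n ^ q ^ k = 1 := congrArg Subtype.val hk
      refine ⟨k, ?_⟩
      rw [hC]
      refine ⟨1, Q.one_mem, ?_, ?_⟩
      · rw [Prod.pow_snd, ← hn2, ← QuotientGroup.mk_pow, hk']
      · have := hv.pow h (q ^ k)
        rw [hk'] at this
        exact this)
  have hRfin : Finite R := Finite.of_injective _ (inclusion_injective hRL)
  have hRdeg : ∀ w ∈ R, ∃ n ∈ Q₂, (n : G ⧸ M) = w.2 ∧ IsV T Q ε w.1 n := by
    intro w hw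
    have := (hRL hw).2
    rw [hW] at this
    exact this
  -- `R` is nontrivial
  have hRne : ∃ w ∈ R, w ≠ 1 := by
    obtain ⟨j, hj⟩ := exists_prime_orderOf_dvd_card' (G := J) q hqJ
    have hj2 : (j : G ⧸ M) ∈ D.map (MonoidHom.snd Aˣ (G ⧸ M)) := by rw [hDJ]; exact j.2
    obtain ⟨d₀, hd₀, hd₀j⟩ := hj2
    obtain ⟨a, m, hm, hDm⟩ := Nat.exists_eq_pow_mul_and_not_dvd (Nat.card_pos (α := D)).ne' q
      hq.out.one_lt.ne'
    have hd₀c : d₀ ^ Nat.card D = 1 := by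
      have : (⟨d₀, hd₀⟩ : D) ^ Nat.card D = 1 := pow_card_eq_one'
      exact congrArg Subtype.val this
    have hdq : (d₀ ^ m) ^ q ^ a = 1 := by
      rw [← pow_mul, mul_comm, ← hDm, hd₀c]
    have hd1 : d₀ ^ m ≠ 1 := by
      intro h1
      apply hm
      rw [← hj]
      apply orderOf_dvd_of_pow_eq_one
      apply Subtype.ext
      rw [Subgroup.coe_pow, ← hd₀j, ← map_pow, h1, map_one]
      rfl
    obtain ⟨n, hn, hn2, hv⟩ := hDdeg _ (D.pow_mem hd₀ m)
    have h1 : n ^ q ^ a ∈ Q := by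
      have h2 := hv.pow h (q ^ a)
      have h3 : ((d₀ ^ m).1) ^ q ^ a = 1 := by rw [← Prod.pow_fst, hdq]; rfl
      rw [h3] at h2
      have h4 := (IsV.one h).unique h.ne h2
      rwa [inv_one, mul_one] at h4
    obtain ⟨b, hb⟩ := (hP.to_le hQP) ⟨_, h1⟩
    have hb' : n ^ q ^ (a + b) = 1 := by
      rw [pow_add, pow_mul]
      exact congrArg Subtype.val hb
    obtain ⟨g, hg, hgP⟩ := conj_mem_of_sylow hP hPN₂ hn hb'
    obtain ⟨v, hvg⟩ := exists_isV hQ h (hN₂S hg) (hN₂z g hg)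
    have hxV : (v, (g : G ⧸ M)) ∈ V := by rw [hV]; exact ⟨g, hg, rfl, hvg⟩
    have hwD := hDconj _ hxV _ (D.pow_mem hd₀ m)
    refine ⟨(v, (g : G ⧸ M)) * d₀ ^ m * (v, (g : G ⧸ M))⁻¹, ?_, ?_⟩
    · apply hR _ ?_ a
      · rw [conj_pow, hdq, mul_one, mul_inv_cancel]
      · refine ⟨hwD, ?_⟩
        rw [hW]
        refine ⟨g * n * g⁻¹, ?_, ?_, ?_⟩
        · rw [hQ₂]
          exact ⟨hgP, N₂.mul_mem (N₂.mul_mem hg hn) (N₂.inv_mem hg)⟩
        · rw [QuotientGroup.mk_mul, QuotientGroup.mk_mul, hn2]; rfl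
        · exact (hvg.mul h.idem hv).mul h.idem hvg.inv
    · intro h5
      apply hd1
      rwa [mul_inv_eq_one, mul_eq_left] at h5
  -- the idempotent
  have := Fintype.ofFinite R
  have hcardR : (Nat.card R : K) ≠ 0 := card_ne_zero_of_pgroup hqK hRp
  obtain ⟨σ, hσ⟩ : ∃ σ : A, σ = ∑ w : R, ((w : Aˣ × (G ⧸ M)).1 : A) := ⟨_, rfl⟩
  obtain ⟨η, hη⟩ : ∃ η : A, η = (Nat.card R : K)⁻¹ • (ε * σ) := ⟨_, rfl⟩
  have hwε : ∀ w ∈ R, ε * ((w : Aˣ × (G ⧸ M)).1 : A) = (w.1 : A) * ε := by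
    intro w hw
    obtain ⟨n, _, _, hv⟩ := hRdeg w hw
    exact hv.comm_eps
  have hσε : ε * σ = σ * ε := by
    rw [hσ, Finset.mul_sum, Finset.sum_mul]
    exact Finset.sum_congr rfl (fun w _ => hwε w w.2)
  have hwσ : ∀ w ∈ R, ((w : Aˣ × (G ⧸ M)).1 : A) * σ = σ := by
    intro w hw
    rw [hσ, Finset.mul_sum]
    apply Fintype.sum_equiv (Equiv.mulLeft (⟨w, hw⟩ : R))
    intro x
    rfl
  have hwη : ∀ w ∈ R, ((w : Aˣ × (G ⧸ M)).1 : A) * η = η := by
    intro w hw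
    rw [hη, mul_smul_comm]
    congr 1
    rw [hσε, ← mul_assoc, hwσ w hw]
  have hεη : ε * η = η := by
    rw [hη, mul_smul_comm, ← mul_assoc, h.idem]
  have hηε : η * ε = η := by
    rw [hη, smul_mul_assoc]
    congr 1
    rw [mul_assoc, ← hσε, ← mul_assoc, h.idem]
  have hση : σ * η = (Nat.card R : K) • η := by
    conv_lhs => rw [hσ]
    rw [Finset.sum_mul, Finset.sum_congr rfl (fun w _ => hwη (w : R) w.2), Finset.sum_const,
      Finset.card_univ, ← Nat.card_eq_fintype_card, Nat.cast_smul_eq_nsmul]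
  have hηη : η * η = η := by
    calc η * η = ((Nat.card R : K)⁻¹ • (ε * σ)) * η := by rw [← hη]
      _ = η := by
        rw [smul_mul_assoc, mul_assoc, hση, mul_smul_comm, hεη, smul_smul,
          inv_mul_cancel₀ hcardR, one_smul]
  have hηmem : η ∈ T.sub P := by
    rw [hη, hσ, Finset.mul_sum]
    apply (T.sub P).smul_mem
    apply (T.sub P).sum_mem
    intro w _
    obtain ⟨n, hn, _, hv⟩ := hRdeg w w.2
    rw [hQ₂] at hn
    exact T.Rb_le hQP hn.1 hv.deg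
  have hfix : ∀ g ∈ P ⊓ T.stab Q ε, T.conj g η = η := by
    intro g hg
    have hginv := (P ⊓ T.stab Q ε).inv_mem hg
    have hgQ₂ : ∀ k ∈ P ⊓ T.stab Q ε, ∀ n ∈ Q₂, k * n * k⁻¹ ∈ Q₂ := by
      intro k hk n hn
      rw [hQ₂] at hn ⊢
      exact ⟨P.mul_mem (P.mul_mem hk.1 hn.1) (P.inv_mem hk.1), hN₂conj k hk.2 n hn.2⟩
    have hgN₂' : ∀ n ∈ N₂, g⁻¹ * n * g ∈ N₂ := by
      intro n hn
      have := hN₂conj g⁻¹ hginv.2 n hn
      rwa [inv_inv] at this
    have hDg := hDinv (T.u g, (g : G ⧸ M)) (by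
      rw [hV]
      exact VV_map_conj h M N₂ hg.2 (hN₂conj g hg.2) hgN₂')
    have hRg : ∀ w ∈ R, (T.u g, (g : G ⧸ M)) * w * (T.u g, (g : G ⧸ M))⁻¹ ∈ R := by
      intro w hw
      obtain ⟨k, hk⟩ := hRp ⟨w, hw⟩
      have hk' : w ^ q ^ k = 1 := congrArg Subtype.val hk
      apply hR _ ?_ k
      · rw [conj_pow, hk', mul_one, mul_inv_cancel]
      · refine ⟨?_, ?_⟩
        · rw [← hDg]
          exact ⟨w, (hRL hw).1, rfl⟩
        · have := (hRL hw).2
          rw [hW] at this ⊢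
          exact VV_conj h M Q₂ hg.2 (hgQ₂ g hg) this
    have hσg : T.conj g σ = σ := by
      rw [hσ, map_sum]
      let φ : R → R := fun w => ⟨_, hRg w w.2⟩
      have hφ : Function.Injective φ := by
        intro w w' hww
        have h1 : (T.u g, (g : G ⧸ M)) * (w : Aˣ × (G ⧸ M)) * (T.u g, (g : G ⧸ M))⁻¹ =
            (T.u g, (g : G ⧸ M)) * (w' : Aˣ × (G ⧸ M)) * (T.u g, (g : G ⧸ M))⁻¹ :=
          congrArg Subtype.val hww
        exact Subtype.ext (mul_left_cancel (mul_right_cancel h1))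
      apply Fintype.sum_bijective φ (Finite.injective_iff_bijective.mp hφ)
      intro w
      rfl
    rw [hη, map_smul, map_mul, hg.2.2, hσg]
  have horth : ∀ g ∈ P, g ∉ P ⊓ T.stab Q ε → ε * T.conj g ε = 0 := by
    intro g hg hgn
    rcases h.eq_or_orth (h.conj (hPQ hg)) with h1 | h1
    · exfalso
      exact hgn ⟨hg, hPQ hg, h1.symm⟩
    · exact h1
  rcases avg hqK P hP hidx (P ⊓ T.stab Q ε) inf_le_left hηmem hηη hεη hηε hfix horth with h0 | h0
  · -- `η ≠ 0`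
    have h1 : ε * σ = 0 := by
      rw [hη] at h0
      exact (smul_eq_zero.mp h0).resolve_left (inv_ne_zero hcardR)
    obtain ⟨x, hx⟩ : ∃ x, T.b.repr ε x ≠ 0 := by
      by_contra hcon
      push Not at hcon
      apply h.ne
      apply T.b.repr.injective
      ext x
      rw [hcon x]; simp
    have hxQ : x ∈ Q := by
      by_contra hxQ
      exact hx (T.mem_sub.mp h.mem x hxQ)
    have h2 : ∀ w : R, w ≠ 1 → T.b.repr (ε * ((w : Aˣ × (G ⧸ M)).1 : A)) x = 0 := by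
      intro w hw
      by_contra hne
      apply hw
      obtain ⟨n, hn, hn2, hv⟩ := hRdeg w w.2
      have h3 := T.Rb_supp hv.deg hne
      have h4 : n ∈ Q := by
        have h5 := Q.mul_mem (Q.inv_mem h3) hxQ
        rwa [mul_inv_rev, inv_inv, inv_mul_cancel_right] at h5
      have hwC : (w : Aˣ × (G ⧸ M)) ∈ C := by rw [hC]; exact ⟨n, h4, hn2, hv⟩
      have hwD : (w : Aˣ × (G ⧸ M)) ∈ D := (hRL w.2).1
      have hwZ : (⟨w, hwD⟩ : D) ∈ Z := hwC
      have h6 : orderOf (⟨_, hwZ⟩ : Z) ∣ Nat.card Z := orderOf_dvd_natCard _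
      obtain ⟨k, hk⟩ := hRp w
      have h7 : orderOf (⟨_, hwZ⟩ : Z) ∣ q ^ k := by
        apply orderOf_dvd_of_pow_eq_one
        have hk' : (w : Aˣ × (G ⧸ M)) ^ q ^ k = 1 := congrArg Subtype.val hk
        apply Subtype.ext
        apply Subtype.ext
        exact hk'
      have h8 : Nat.Coprime (q ^ k) (Nat.card Z) :=
        Nat.Coprime.pow_left k ((Nat.Prime.coprime_iff_not_dvd hq.out).mpr hZ)
      have h9 : orderOf (⟨_, hwZ⟩ : Z) = 1 := Nat.eq_one_of_dvd_coprimes h8 h7 h6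
      rw [orderOf_eq_one_iff] at h9
      apply Subtype.ext
      exact congrArg (fun t : Z => ((t : D) : Aˣ × (G ⧸ M))) h9
    have h3 := congrArg (fun t => T.b.repr t x) h1
    simp only [hσ, Finset.mul_sum, map_sum, map_zero, Finsupp.zero_apply,
      Finsupp.finsetSum_apply] at h3
    rw [Finset.sum_eq_single (1 : R) (fun w _ hw => h2 w hw)
      (fun h => absurd (Finset.mem_univ _) h)] at h3
    apply hx
    have h4 : ε * (((1 : R) : Aˣ × (G ⧸ M)).1 : A) = ε := by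
      change ε * 1 = ε
      rw [mul_one]
    rwa [h4] at h3
  · -- `η ≠ ε`
    obtain ⟨w, hw, hw1⟩ := hRne
    apply hw1
    obtain ⟨n, hn, hn2, hv⟩ := hRdeg w hw
    have h1 := hwη w hw
    rw [h0] at h1
    have h2 : (w.1 : A) = 1 := by
      have h3 := hv.right
      rw [mul_sub, mul_one, h1] at h3
      exact sub_left_injective h3
    have h3 : w.1 = 1 := Units.ext h2
    rw [h3] at hv
    have h4 := (IsV.one h).unique h.ne hv
    rw [inv_one, mul_one] at h4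
    apply Prod.ext
    · exact h3
    · rw [← hn2]
      exact (QuotientGroup.eq_one_iff n).mpr (hQM h4)

end TGA

end Pool.MP_9ebf7f_al.Sol
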