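import Pool.Agent.Lib.MP_9ebf7f_al.Main

/-!
# Simple twisted group algebras: conclusions
-/

set_option autoImplicit false

namespace Pool.MP_9ebf7f_al.Sol

open Module Subgroup
open scoped commutatorElement

lemma primRoot_of {K : Type*} [Field K] {q : ℕ} (hq : q.Prime) {a : K} (ha : a ^ q = 1)
    (ha1 : a ≠ 1) : IsPrimitiveRoot a q := by
  have : Fact q.Prime := ⟨hq⟩
  have h := orderOf_eq_prime ha ha1
  rw [← h]
  exact IsPrimitiveRoot.orderOf a

lemma char_root {K : Type*} [Field K] {q : ℕ} (hq : q.Prime) (hqK : (q : K) = 0) {a : K}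
    (ha : a ^ q = 1) : a = 1 := by
  have : Fact q.Prime := ⟨hq⟩
  have hcharK : CharP K q := by
    have h1 := ringChar.dvd hqK
    have h2 : ringChar K = q := by
      rcases (Nat.dvd_prime hq).mp h1 with h | h
      · exact absurd h (CharP.ringChar_ne_one)
      · exact h
    rw [← h2]; exact ringChar.charP K
  have h3 : (a - 1) ^ q = 0 := by
    rw [sub_pow_char, ha, one_pow, sub_self]
  exact sub_eq_zero.mp (pow_eq_zero_iff hq.ne_zero |>.mp h3)

namespace TGA

variable {K G A : Type*} [Field K] [Group G] [Ring A] [Algebra K A] (T : TGA K G A)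

lemma scalar_pow {z : T.Gam} (hz : T.deg z = 1) {q : ℕ} (hzq : z ^ q = 1) :
    ∃ a : K, a ^ q = 1 ∧ (a = 1 → z = 1) := by
  obtain ⟨a, _, hza⟩ := T.scalar_of_deg hz
  have hnt := T.nontriv
  have : Nontrivial A := ⟨1, 0, hnt⟩
  refine ⟨a, ?_, ?_⟩
  · have h1 : (T.un z : A) ^ q = 1 := by
      rw [← Units.val_pow_eq_pow_val, ← map_pow, hzq, map_one, Units.val_one]
    rw [hza, smul_pow, one_pow] at h1
    have h2 : algebraMap K A (a ^ q) = algebraMap K A 1 := by
      rw [Algebra.algebraMap_eq_smul_one, h1, map_one]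
    exact (algebraMap K A).injective h2
  · rintro rfl
    apply T.un_inj
    apply Units.ext
    rw [hza, one_smul, map_one, Units.val_one]

/-- (A) -/
theorem no_torsion [Finite G] [IsSimpleRing A] {q : ℕ} (hq : q.Prime)
    (hK : ¬ ∃ ζ : K, IsPrimitiveRoot ζ q) {x : T.Gam} (hx : x ^ q = 1) : x = 1 := by
  by_contra hx1
  have : Fact q.Prime := ⟨hq⟩
  have hscal : ∀ z : T.Gam, T.deg z = 1 → z ^ q = 1 → z = 1 := by
    intro z hz hzq
    obtain ⟨a, ha, h1⟩ := T.scalar_pow hz hzq
    by_cases ha1 : a = 1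
    · exact h1 ha1
    · exact absurd ⟨a, primRoot_of hq ha ha1⟩ hK
  by_cases hqK : (q : K) = 0
  · apply T.no_order_char hq hqK hx
    intro h
    exact hx1 (hscal x h hx)
  · exact T.no_order_prime hq hqK ⊤ (fun z _ => hscal z) (Subgroup.mem_top x)
      (orderOf_eq_prime hx hx1)

/-- (A), in terms of the basis elements -/
theorem pow_ne [Finite G] [IsSimpleRing A] {q : ℕ} (hq : q.Prime)
    (hK : ¬ ∃ ζ : K, IsPrimitiveRoot ζ q) {g : G} (hg : g ≠ 1) (a : K) :
    T.b g ^ q ≠ a ^ q • (1 : A) := by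
  intro h
  have hnt := T.nontriv
  have ha : a ≠ 0 := by
    rintro rfl
    rw [zero_pow hq.ne_zero, zero_smul] at h
    have h1 : ((T.u g ^ q : Aˣ) : A) = 0 := by
      rw [Units.val_pow_eq_pow_val, u_val]; exact h
    have h2 := Units.mul_inv (T.u g ^ q)
    rw [h1, zero_mul] at h2
    exact hnt h2.symm
  -- the unit `a⁻¹ • b g`
  let v : Aˣ := ⟨a⁻¹ • T.b g, a • ((T.u g)⁻¹ : Aˣ).val, by
    rw [smul_mul_smul_comm, inv_mul_cancel₀ ha, one_smul, ← T.u_val, Units.mul_inv], by
    rw [smul_mul_smul_comm, mul_inv_cancel₀ ha, one_smul, ← T.u_val, Units.inv_mul]⟩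
  have hv : (v, g) ∈ T.Gam := ⟨a⁻¹, inv_ne_zero ha, rfl⟩
  let x : T.Gam := ⟨(v, g), hv⟩
  have hvq : T.un (x ^ q) = 1 := by
    rw [map_pow]
    apply Units.ext
    rw [Units.val_pow_eq_pow_val]
    change (a⁻¹ • T.b g) ^ q = 1
    rw [smul_pow, h, smul_smul, inv_pow, inv_mul_cancel₀ (pow_ne_zero _ ha), one_smul]
  have hx : x ^ q = 1 := T.un_inj (by rw [hvq, map_one])
  have h3 := T.no_torsion hq hK hx
  apply hg
  have := congrArg T.deg h3
  rwa [map_one] at this

include T in
/-- (B) -/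
theorem perfect_normal [Finite G] [IsSimpleRing A] (H : Subgroup G) (hN : H.Normal)
    (hH : ⁅H, H⁆ = H) {q : ℕ} (hq : q.Prime) (hqd : q ∣ Nat.card H) :
    (q : K) ≠ 0 ∧ (∃ ζ : K, IsPrimitiveRoot ζ q) ∧ ∀ Q : Sylow q H, ¬ IsCyclic Q := by
  have : Fact q.Prime := ⟨hq⟩
  have hfin : Finite (cov T.deg H) := cov_finite T.deg T.ker_le_center H
  have hmap : (cov T.deg H).map T.deg = H := cov_map T.deg T.deg_surj hH
  have hperf : ⁅cov T.deg H, cov T.deg H⁆ = cov T.deg H :=
    cov_perfect T.deg T.ker_le_center T.deg_surj hH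
  -- the quotient map onto `H`
  let f : cov T.deg H →* H := (T.deg.comp (cov T.deg H).subtype).codRestrict H (by
    intro x
    have : T.deg x.1 ∈ (cov T.deg H).map T.deg := ⟨x.1, x.2, rfl⟩
    rw [hmap] at this
    exact this)
  have hf : Function.Surjective f := by
    intro h
    have h1 : h.1 ∈ (cov T.deg H).map T.deg := by rw [hmap]; exact h.2
    obtain ⟨x, hx, hxh⟩ := h1
    exact ⟨⟨x, hx⟩, Subtype.ext hxh⟩
  have hcardE : q ∣ Nat.card (cov T.deg H) := hqd.trans (Subgroup.card_dvd_of_surjective f hf)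
  obtain ⟨x, hx⟩ := exists_prime_orderOf_dvd_card' (G := cov T.deg H) q hcardE
  have hxord : orderOf (x : T.Gam) = q := by rw [Subgroup.orderOf_coe, hx]
  have hxq : (x : T.Gam) ^ q = 1 := by rw [← hxord]; exact pow_orderOf_eq_one _
  have hx1 : (x : T.Gam) ≠ 1 := by
    intro h
    rw [h, orderOf_one] at hxord
    exact hq.one_lt.ne hxord
  have hqK : (q : K) ≠ 0 := by
    intro hqK
    by_cases hdeg : T.deg (x : T.Gam) = 1
    · obtain ⟨a, ha, h1⟩ := T.scalar_pow hdeg hxq
      exact hx1 (h1 (char_root hq hqK ha))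
    · exact T.no_order_char hq hqK hxq hdeg
  -- a scalar of order `q` in the cover
  obtain ⟨z, hz, hzdeg, hzq, hz1⟩ : ∃ z ∈ cov T.deg H, T.deg z = 1 ∧ z ^ q = 1 ∧ z ≠ 1 := by
    by_contra hcon
    push Not at hcon
    exact T.no_order_prime hq hqK (cov T.deg H) hcon x.2 hxord
  refine ⟨hqK, ?_, ?_⟩
  · obtain ⟨a, ha, h1⟩ := T.scalar_pow hzdeg hzq
    exact ⟨a, primRoot_of hq ha (fun h => hz1 (h1 h))⟩
  · intro Q
    have hcommE : _root_.commutator (cov T.deg H) = ⊤ := by
      have := map_subtype_commutator (cov T.deg H)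
      rw [hperf] at this
      apply Subgroup.map_injective (cov T.deg H).subtype_injective
      rw [this, ← MonoidHom.range_eq_map, Subgroup.range_subtype]
    have hker : f.ker ≤ center (cov T.deg H) := by
      intro y hy
      rw [MonoidHom.mem_ker] at hy
      have h1 : T.deg y.1 = 1 := congrArg Subtype.val hy
      have h2 : y.1 ∈ center T.Gam := T.ker_le_center h1
      rw [mem_center_iff] at h2 ⊢
      intro w
      exact Subtype.ext (h2 w.1)
    let z' : cov T.deg H := ⟨z, hz⟩
    have hz'c : z' ∈ center (cov T.deg H) := by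
      have h2 : z ∈ center T.Gam := T.ker_le_center hzdeg
      rw [mem_center_iff] at h2 ⊢
      intro w
      exact Subtype.ext (h2 w.1)
    have hz'o : orderOf z' = q := by
      apply orderOf_eq_prime
      · exact Subtype.ext hzq
      · intro h; exact hz1 (congrArg Subtype.val h)
    exact sylow_not_cyclic hcommE f hf hker hz'c hz'o Q

include T in
/-- (C) -/
theorem solvable [Finite G] [IsSimpleRing A] (p : ℕ)
    (hp : ∀ q : ℕ, q.Prime → q ∣ Nat.card G → q ≠ p →
      (¬ ∃ ζ : K, IsPrimitiveRoot ζ q) ∨ (∃ Q : Sylow q G, IsCyclic Q)) :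
    Group.IsSolvable G := by
  obtain ⟨H, hN, hH, hsol⟩ := exists_perfect_residual G
  apply hsol
  apply perfect_pgroup hH p
  intro q hq hqd
  by_contra hqp
  have : Fact q.Prime := ⟨hq⟩
  obtain ⟨_, h2, h3⟩ := T.perfect_normal H hN hH hq hqd
  have hqG : q ∣ Nat.card G := hqd.trans (Subgroup.card_subgroup_dvd_card H)
  rcases hp q hq hqG hqp with h | ⟨Q, hQ⟩
  · exact h h2
  · -- a Sylow subgroup of `H` is cyclic
    obtain ⟨P⟩ : Nonempty (Sylow q H) := inferInstance
    apply h3 P
    -- `P` maps injectively into a conjugate of `Q`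
    have hP : IsPGroup q ((P : Subgroup H).map H.subtype) := P.2.map _
    obtain ⟨R, hR⟩ := hP.exists_le_sylow
    have hRc : IsCyclic R := by
      have e := R.equiv Q
      exact isCyclic_of_surjective e.symm e.symm.surjective
    have hRc' : IsCyclic (R : Subgroup G) := hRc
    let φ : (P : Subgroup H) →* (R : Subgroup G) :=
      ((H.subtype).comp (P : Subgroup H).subtype).codRestrict (R : Subgroup G) (by
        intro y
        apply hR
        exact ⟨y.1, y.2, rfl⟩)
    have hφ : Function.Injective φ := by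
      intro y y' h
      have h4 : ((y.1 : H) : G) = ((y'.1 : H) : G) :=
        congrArg (fun r : (R : Subgroup G) => (r : G)) h
      exact Subtype.ext (Subtype.ext h4)
    exact isCyclic_of_injective φ hφ

end TGA

end Pool.MP_9ebf7f_al.Sol
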