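import Pool.Agent.Lib.MP_9ebf7f_al.MinNorm

/-!
# Subnormal subgroups of products of simple groups
-/

set_option autoImplicit false

namespace Pool.MP_9ebf7f_al.Sol

open Subgroup
open scoped commutatorElement

section

variable {J Γ : Type} [Group J] [Group Γ] (a : Γ →* MulAut J)
variable {X₁ : Subgroup J} (hX₁n : X₁.Normal) (hX₁ne : X₁ ≠ ⊥)
  (hX₁min : ∀ Y : Subgroup J, Y.Normal → Y ≤ X₁ → Y = ⊥ ∨ Y = X₁)
variable (hmin : ∀ X : Subgroup J, X.Normal → (∀ g, X.map (a g).toMonoidHom = X) → X = ⊥ ∨ X = ⊤)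
variable (hJ : _root_.commutator J = ⊤)

include hX₁n hX₁ne hX₁min hmin in
lemma conjs_simple {X : Subgroup J} (hX : X ∈ conjs a X₁) : IsSimpleGroup X := by
  have hXn := conjs_normal a hX₁n hX
  have hnt : Nontrivial X := (Subgroup.nontrivial_iff_ne_bot X).mpr (conjs_ne a hX₁ne hX)
  refine { exists_pair_ne := exists_pair_ne X, eq_bot_or_eq_top_of_normal := ?_ }
  intro H hH
  have h1 : (H.map X.subtype).Normal := by
    rw [← normalizer_eq_top_iff, eq_top_iff, ← conjs_sup a hX₁n hX₁ne hmin]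
    apply sSup_le
    intro Y hY y hy
    rw [mem_normalizer_iff]
    by_cases hYX : Y = X
    · subst hYX
      intro h
      constructor
      · rintro ⟨x, hx, rfl⟩
        exact ⟨_, hH.conj_mem x hx ⟨y, hy⟩, rfl⟩
      · rintro ⟨x, hx, hxh⟩
        refine ⟨_, hH.conj_mem x hx ⟨y, hy⟩⁻¹, ?_⟩
        simp only [coe_subtype] at hxh
        rw [map_mul, map_mul, inv_inv, map_inv]
        simp only [coe_subtype]
        rw [hxh]
        group
    · intro h
      constructor
      · rintro ⟨x, hx, rfl⟩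
        have h2 := conjs_comm a hX₁n hX₁ne hX₁min hY hX hYX y hy x x.2
        simp only [coe_subtype]
        rw [h2, mul_inv_cancel_right]
        exact ⟨x, hx, rfl⟩
      · rintro ⟨x, hx, hxh⟩
        simp only [coe_subtype] at hxh
        have h2 := conjs_comm a hX₁n hX₁ne hX₁min hY hX hYX y hy x x.2
        have h3 : h = x := by
          have h4 : h = y⁻¹ * (x : J) * y := by rw [hxh]; group
          rw [h4, mul_assoc, ← h2, inv_mul_cancel_left]
        rw [h3]
        exact ⟨x, hx, rfl⟩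
  rcases conjs_min a hX₁min hX h1 (by rintro _ ⟨x, _, rfl⟩; exact x.2) with h | h
  · left
    exact (map_eq_bot_iff_of_injective H X.subtype_injective).mp h
  · right
    rw [eq_top_iff]
    intro x _
    have h2 : (x : J) ∈ H.map X.subtype := by rw [h]; exact x.2
    obtain ⟨y, hy, hyx⟩ := h2
    have : y = x := Subtype.ext hyx
    rwa [← this]

include hX₁n hX₁ne hX₁min hmin hJ in
lemma subnormal_le {H : Subgroup J} (hH : H.IsSubnormal) :
    H ≤ sSup {X | X ∈ conjs a X₁ ∧ X ≤ H} := by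
  induction hH with
  | top =>
    rw [← conjs_sup a hX₁n hX₁ne hmin]
    apply sSup_le
    intro X hX
    apply le_sSup
    exact ⟨hX, le_sSup hX⟩
  | step H K hHK _ hn ih =>
    have hconj : ∀ k ∈ K, ∀ h ∈ H, k * h * k⁻¹ ∈ H := by
      intro k hk h hh
      have := hn.conj_mem ⟨h, hHK hh⟩ (by rw [mem_subgroupOf]; exact hh) ⟨k, hk⟩
      rw [mem_subgroupOf] at this
      exact this
    -- components outside `H` centralise `H`
    have hcen : ∀ X ∈ conjs a X₁, X ≤ K → ¬ X ≤ H → ∀ x ∈ X, ∀ h ∈ H, x * h = h * x := by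
      intro X hX hXK hXH x hx h hh
      have hXn := conjs_normal a hX₁n hX
      have hXs := conjs_simple a hX₁n hX₁ne hX₁min hmin hX
      have h1 : (H.subgroupOf X).Normal := ⟨fun y hy g => by
        rw [mem_subgroupOf] at hy ⊢
        exact hconj g (hXK g.2) y hy⟩
      have h2 : H.subgroupOf X = ⊥ := by
        rcases h1.eq_bot_or_eq_top with h3 | h3
        · exact h3
        · exact absurd (subgroupOf_eq_top.mp h3) hXH
      have h3 : x * h * x⁻¹ * h⁻¹ ∈ X := by
        rw [mul_assoc, mul_assoc]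
        apply X.mul_mem hx
        have := hXn.conj_mem x⁻¹ (X.inv_mem hx) h
        rwa [mul_assoc] at this
      have h4 : x * h * x⁻¹ * h⁻¹ ∈ H := H.mul_mem (hconj x (hXK hx) h hh) (H.inv_mem hh)
      have h5 : (⟨_, h3⟩ : X) ∈ H.subgroupOf X := by rw [mem_subgroupOf]; exact h4
      rw [h2, mem_bot] at h5
      have h6 : x * h * x⁻¹ * h⁻¹ = 1 := congrArg Subtype.val h5
      rw [mul_inv_eq_one, mul_inv_eq_iff_eq_mul] at h6
      exact h6
    intro h hh
    obtain ⟨Y', hY'⟩ : ∃ Y', Y' = sSup {X | X ∈ conjs a X₁ ∧ X ≤ H} := ⟨_, rfl⟩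
    obtain ⟨Y'', hY''⟩ : ∃ Y'', Y'' = sSup {X | X ∈ conjs a X₁ ∧ X ≤ K ∧ ¬ X ≤ H} := ⟨_, rfl⟩
    have hY'n : Y'.Normal := by
      rw [hY']; exact sSup_normal _ (fun X hX => conjs_normal a hX₁n hX.1)
    have hY'H : Y' ≤ H := by rw [hY']; exact sSup_le (fun X hX => hX.2)
    have hKle : K ≤ Y' ⊔ Y'' := by
      apply ih.trans
      apply sSup_le
      intro X hX
      by_cases hXH : X ≤ H
      · exact le_trans (by rw [hY']; exact le_sSup ⟨hX.1, hXH⟩) le_sup_left
      · exact le_trans (by rw [hY'']; exact le_sSup ⟨hX.1, hX.2, hXH⟩) le_sup_right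
    have h1 := hKle (hHK hh)
    rw [← SetLike.mem_coe, normal_mul] at h1
    obtain ⟨y', hy', y'', hy'', hyy⟩ := h1
    simp only at hyy
    have hy''H : y'' ∈ H := by
      have : y'' = y'⁻¹ * h := by rw [← hyy, inv_mul_cancel_left]
      rw [this]
      exact H.mul_mem (H.inv_mem (hY'H hy')) hh
    have hy1 : y'' = 1 := by
      have h2 : (⊤ : Subgroup J) ≤ centralizer {y''} := by
        rw [← conjs_sup a hX₁n hX₁ne hmin]
        apply sSup_le
        intro X hX x hx
        rw [mem_centralizer_singleton_iff]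
        by_cases hXK : X ≤ K ∧ ¬ X ≤ H
        · exact hcen X hX hXK.1 hXK.2 x hx y'' hy''H
        · have h3 : Y'' ≤ centralizer {x} := by
            rw [hY'']
            apply sSup_le
            intro Z hZ z hz
            rw [mem_centralizer_singleton_iff]
            refine conjs_comm a hX₁n hX₁ne hX₁min hZ.1 hX ?_ z hz x hx
            rintro rfl
            exact hXK hZ.2
          exact (mem_centralizer_singleton_iff.mp (h3 hy'')).symm
      have h3 : y'' ∈ center J := by
        rw [mem_center_iff]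
        intro g
        exact mem_centralizer_singleton_iff.mp (h2 (mem_top g))
      rw [center_bot a hX₁ne hmin hJ, mem_bot] at h3
      exact h3
    rw [hy1, mul_one] at hyy
    rw [← hyy, ← hY']
    exact hy'

include hX₁n hX₁ne hX₁min hmin hJ in
theorem factor_of_subnormal {B S : Type} [Group B] [Group S] [IsSimpleGroup S] (κ : B →* J)
    (hκ : κ.range.IsSubnormal) (θ : B →* S) (hθ : Function.Surjective θ)
    (hle : κ.ker ≤ θ.ker) : Nonempty (X₁ ≃* S) := by
  obtain ⟨ψ, hψ⟩ : ∃ ψ : κ.range →* S, ∀ b, ψ (κ.rangeRestrict b) = θ b := by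
    refine ⟨(κ.rangeRestrict).liftOfSurjective κ.rangeRestrict_surjective
      ⟨θ, by rw [MonoidHom.ker_rangeRestrict]; exact hle⟩, fun b => ?_⟩
    exact MonoidHom.liftOfRightInverse_comp_apply _ _ _ _ b
  have hψs : Function.Surjective ψ := by
    intro s
    obtain ⟨b, rfl⟩ := hθ s
    exact ⟨_, hψ b⟩
  have h1 := subnormal_le a hX₁n hX₁ne hX₁min hmin hJ hκ
  obtain ⟨X, hX, hXκ, x, hx, hxψ⟩ : ∃ X ∈ conjs a X₁, ∃ h : X ≤ κ.range, ∃ x, ∃ hx : x ∈ X,
      ψ ⟨x, h hx⟩ ≠ 1 := by
    by_contra hcon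
    push Not at hcon
    have h2 : κ.range ≤ ψ.ker.map κ.range.subtype := by
      apply h1.trans
      apply sSup_le
      intro X hX x hx
      refine ⟨⟨x, hX.2 hx⟩, ?_, rfl⟩
      exact hcon X hX.1 hX.2 x hx
    obtain ⟨s, hs⟩ := exists_ne (1 : S)
    obtain ⟨y, rfl⟩ := hψs s
    apply hs
    obtain ⟨z, hz, hzy⟩ := h2 y.2
    have : z = y := Subtype.ext hzy
    rw [← this]
    exact hz
  have hXn := conjs_normal a hX₁n hX
  have hXs := conjs_simple a hX₁n hX₁ne hX₁min hmin hX
  let ψX : X →* S := ψ.comp (inclusion hXκ)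
  have hinj : Function.Injective ψX := by
    rw [← MonoidHom.ker_eq_bot_iff]
    rcases (inferInstance : ψX.ker.Normal).eq_bot_or_eq_top with h | h
    · exact h
    · exfalso
      apply hxψ
      have h3 : (⟨x, hx⟩ : X) ∈ ψX.ker := by rw [h]; trivial
      exact h3
  have hsurj : Function.Surjective ψX := by
    rw [← MonoidHom.range_eq_top]
    have h4 : ψX.range = (X.subgroupOf κ.range).map ψ := by
      ext s
      constructor
      · rintro ⟨y, rfl⟩
        exact ⟨inclusion hXκ y, by rw [SetLike.mem_coe, mem_subgroupOf]; exact y.2, rfl⟩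
      · rintro ⟨y, hy, rfl⟩
        exact ⟨⟨y, hy⟩, rfl⟩
    have h5 : ψX.range.Normal := by
      rw [h4]
      exact Normal.map inferInstance ψ hψs
    rcases h5.eq_bot_or_eq_top with h | h
    · exfalso
      apply hxψ
      have h6 : ψX ⟨x, hx⟩ ∈ ψX.range := ⟨_, rfl⟩
      rw [h, mem_bot] at h6
      exact h6
    · exact h
  obtain ⟨g, rfl⟩ := hX
  exact ⟨(conjsEquiv a g).trans (MulEquiv.ofBijective ψX ⟨hinj, hsurj⟩)⟩

end

end Pool.MP_9ebf7f_al.Sol
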