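import Pool.Agent.Lib.MP_9ebf7f_al.ChiefB
import Pool.Agent.Lib.MP_9ebf7f_al.Subnormal
import Pool.Agent.Lib.MP_9ebf7f_al.Final

/-!
# No good composition factors
-/

set_option autoImplicit false

namespace Pool.MP_9ebf7f_al.Sol

open Module Subgroup
open scoped commutatorElement

/-- Reduction of composition factors to chief factors. -/
theorem exists_chief {G : Type} [Group G] [Finite G] (U : Subgroup G) (hU : U.IsSubnormal)
    (V : Subgroup U) [V.Normal] [hS : IsSimpleGroup (U ⧸ V)] (hna : ¬ ∀ x y : U ⧸ V, x * y = y * x)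
    {q : ℕ} [hq : Fact q.Prime] (hqS : q ∣ Nat.card (U ⧸ V)) (hidx : NoIdx q (U ⧸ V))
    (hmult : NoMult q (U ⧸ V)) :
    ∃ (M N : Subgroup G) (_ : M.Normal) (_ : N.Normal), M ≤ N ∧
      ⁅N.map (QuotientGroup.mk' M), N.map (QuotientGroup.mk' M)⁆ = N.map (QuotientGroup.mk' M) ∧
      NoIdx q (N.map (QuotientGroup.mk' M)) ∧ NoMult q (N.map (QuotientGroup.mk' M)) ∧
      q ∣ Nat.card (N.map (QuotientGroup.mk' M)) := by
  classical
  let φ : U →* U ⧸ V := QuotientGroup.mk' V
  have hφs : Function.Surjective φ := QuotientGroup.mk'_surjective V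
  have himg : ∀ N : Subgroup G, N.Normal →
      (N.subgroupOf U).map φ = ⊥ ∨ (N.subgroupOf U).map φ = ⊤ := by
    intro N hN
    have h1 : (N.subgroupOf U).Normal := inferInstance
    exact (h1.map φ hφs).eq_bot_or_eq_top
  obtain ⟨N, ⟨hNn, hNtop⟩, hNmin⟩ := exists_minimal_of_wellFoundedLT
    (fun N : Subgroup G => N.Normal ∧ (N.subgroupOf U).map φ = ⊤)
    ⟨⊤, inferInstance, by rw [top_subgroupOf, Subgroup.map_top_of_surjective _ hφs]⟩
  have hNne : ⊥ < N := by
    rw [bot_lt_iff_ne_bot]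
    rintro rfl
    rw [bot_subgroupOf, Subgroup.map_bot] at hNtop
    exact bot_ne_top hNtop
  obtain ⟨M, ⟨hMn, hMN⟩, hMmax⟩ := exists_maximal_of_wellFoundedGT
    (fun M : Subgroup G => M.Normal ∧ M < N) ⟨⊥, inferInstance, hNne⟩
  have hMimg : (M.subgroupOf U).map φ = ⊥ := by
    rcases himg M hMn with h | h
    · exact h
    · exfalso
      exact absurd (hNmin ⟨hMn, h⟩ hMN.le) (not_le_of_gt hMN)
  have hMφ : ∀ u : U, (u : G) ∈ M → φ u = 1 := by
    intro u hu
    have : φ u ∈ (M.subgroupOf U).map φ := ⟨u, by rw [SetLike.mem_coe, mem_subgroupOf]; exact hu, rfl⟩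
    rwa [hMimg, mem_bot] at this
  let π : G →* G ⧸ M := QuotientGroup.mk' M
  have hπs : Function.Surjective π := QuotientGroup.mk'_surjective M
  have hπM : ∀ g, π g = 1 ↔ g ∈ M := fun g => QuotientGroup.eq_one_iff g
  let J : Subgroup (G ⧸ M) := N.map π
  have hJn : J.Normal := hNn.map π hπs
  let κ₀ : N →* J := π.subgroupMap N
  have hκ₀s : Function.Surjective κ₀ := π.subgroupMap_surjective N
  have hκ₀ : ∀ n : N, (κ₀ n : G ⧸ M) = π n := fun n => rfl
  let B : Subgroup N := U.subgroupOf N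
  let ι : B →* U :=
    { toFun := fun b => ⟨(b.1 : G), b.2⟩
      map_one' := rfl
      map_mul' := fun _ _ => rfl }
  let θ : B →* U ⧸ V := φ.comp ι
  have hθ : Function.Surjective θ := by
    intro s
    have hs : s ∈ (N.subgroupOf U).map φ := by rw [hNtop]; trivial
    obtain ⟨u, hu, hus⟩ := hs
    exact ⟨⟨⟨u, hu⟩, u.2⟩, hus⟩
  let κ : B →* J := κ₀.comp B.subtype
  have hκ : κ.range.IsSubnormal := by
    rw [MonoidHom.range_comp, range_subtype]
    exact (hU.subgroupOf).map hκ₀s
  have hle : κ.ker ≤ θ.ker := by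
    intro b hb
    rw [MonoidHom.mem_ker] at hb ⊢
    apply hMφ
    have h1 : π (b.1 : G) = 1 := congrArg Subtype.val hb
    exact (hπM _).mp h1
  -- `J` is minimal normal
  let a : (G ⧸ M) →* MulAut J := MulAut.conjNormal
  have hmin : ∀ X : Subgroup J, X.Normal → (∀ g, X.map (a g).toMonoidHom = X) →
      X = ⊥ ∨ X = ⊤ := by
    intro X _ hXinv
    have hX'n : (X.map J.subtype).Normal := by
      refine ⟨?_⟩
      rintro _ ⟨y, hy, rfl⟩ g
      have h1 : (a g) y ∈ X := by
        rw [← hXinv g]; exact ⟨y, hy, rfl⟩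
      exact ⟨_, h1, MulAut.conjNormal_apply g y⟩
    have hYn : ((X.map J.subtype).comap π).Normal := inferInstance
    have hMY : M ≤ (X.map J.subtype).comap π := by
      intro m hm
      rw [mem_comap, (hπM m).mpr hm]
      exact one_mem _
    have hYN : (X.map J.subtype).comap π ≤ N := by
      intro g hg
      rw [mem_comap] at hg
      obtain ⟨y, _, hy⟩ := hg
      obtain ⟨n, hn, hny⟩ := y.2
      have h1 : n⁻¹ * g ∈ M := by
        rw [← hπM, map_mul, map_inv, ← hy, hny]
        simp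
      have h2 := N.mul_mem hn (hMN.le h1)
      rwa [mul_inv_cancel_left] at h2
    have hmap := map_comap_eq_self_of_surjective hπs (X.map J.subtype)
    by_cases hYN' : (X.map J.subtype).comap π = N
    · right
      rw [hYN'] at hmap
      rw [eq_top_iff]
      intro x _
      have h1 : (x : G ⧸ M) ∈ X.map J.subtype := by rw [← hmap]; exact x.2
      obtain ⟨y, hy, hyx⟩ := h1
      have : y = x := Subtype.ext hyx
      rwa [← this]
    · left
      have h1 := hMmax ⟨hYn, lt_of_le_of_ne hYN hYN'⟩ hMY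
      have h2 : X.map J.subtype ≤ ⊥ := by
        rw [← hmap]
        rintro _ ⟨g, hg, rfl⟩
        rw [mem_bot]
        exact (hπM g).mpr (h1 hg)
      exact (map_eq_bot_iff_of_injective X J.subtype_injective).mp (le_bot_iff.mp h2)
  -- `J` is not abelian
  have hJna : ¬ ∀ x y : J, x * y = y * x := by
    intro hcomm
    apply hna
    intro s t
    obtain ⟨x, rfl⟩ := hθ s
    obtain ⟨y, rfl⟩ := hθ t
    rw [← map_mul, ← map_mul]
    have h1 : (x * y)⁻¹ * (y * x) ∈ κ.ker := by
      rw [MonoidHom.mem_ker, map_mul, map_inv, map_mul, map_mul, hcomm (κ x) (κ y), inv_mul_cancel]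
    have h2 := hle h1
    rw [MonoidHom.mem_ker, map_mul, map_inv, inv_mul_eq_one] at h2
    exact h2
  have hJ : _root_.commutator J = ⊤ := by
    rcases hmin (_root_.commutator J) inferInstance
      (fun g => Subgroup.characteristic_iff_map_eq.mp inferInstance (a g)) with h | h
    · exfalso
      apply hJna
      rw [_root_.commutator_def, commutator_eq_bot_iff_le_centralizer] at h
      intro x y
      have := h (mem_top y)
      rw [mem_centralizer_iff] at this
      exact this x (mem_top x)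
    · exact h
  have hJnt : (⊤ : Subgroup J) ≠ ⊥ := by
    intro h
    apply hJna
    intro x y
    have hx : x = 1 := by have := mem_top x; rwa [h, mem_bot] at this
    have hy : y = 1 := by have := mem_top y; rwa [h, mem_bot] at this
    rw [hx, hy]
  obtain ⟨X₁, ⟨hX₁n, hX₁ne⟩, hX₁min'⟩ := exists_minimal_of_wellFoundedLT
    (fun X : Subgroup J => X.Normal ∧ X ≠ ⊥) ⟨⊤, inferInstance, hJnt⟩
  have hX₁min : ∀ Y : Subgroup J, Y.Normal → Y ≤ X₁ → Y = ⊥ ∨ Y = X₁ := by
    intro Y hY hYX
    by_cases h : Y = ⊥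
    · exact Or.inl h
    · exact Or.inr (le_antisymm hYX (hX₁min' ⟨hY, h⟩ hYX))
  obtain ⟨e⟩ := factor_of_subnormal a hX₁n hX₁ne hX₁min hmin hJ κ hκ θ hθ hle
  refine ⟨M, N, hMn, hNn, hMN.le, ?_, ?_, ?_, ?_⟩
  · have h1 := map_subtype_commutator J
    rw [hJ] at h1
    change ⁅J, J⁆ = J
    rw [← h1, ← MonoidHom.range_eq_map, Subgroup.range_subtype]
  · exact noIdx_of_conjs a hX₁n hX₁ne hmin (hidx.of_equiv e.symm)
  · exact noMult_of_conjs a hX₁n hX₁ne hX₁min hmin hJ (hmult.of_equiv e.symm)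
  · have h1 : Nat.card X₁ = Nat.card (U ⧸ V) := Nat.card_congr e.toEquiv
    exact (h1 ▸ hqS).trans (card_subgroup_dvd_card X₁)

/-- In a finite nonsolvable group there is a nonabelian composition factor. -/
theorem exists_nonabelian_factor {G : Type} [Group G] [Finite G] (hG : ¬ Group.IsSolvable G) :
    ∃ (U : Subgroup G) (_ : U.IsSubnormal) (V : Subgroup U) (_ : V.Normal),
      IsSimpleGroup (U ⧸ V) ∧ ¬ ∀ x y : U ⧸ V, x * y = y * x := by
  obtain ⟨H, hHn, hHH, hsol⟩ := exists_perfect_residual G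
  have hHne : H ≠ ⊥ := fun h => hG (hsol h)
  have hcomm := commutator_top_of_perfect hHH
  have hnt : Nontrivial H := (Subgroup.nontrivial_iff_ne_bot H).mpr hHne
  obtain ⟨V, ⟨hVn, hVne⟩, hVmax⟩ := exists_maximal_of_wellFoundedGT
    (fun V : Subgroup H => V.Normal ∧ V ≠ ⊤) ⟨⊥, inferInstance, bot_ne_top⟩
  refine ⟨H, hHn.isSubnormal, V, hVn, ?_, ?_⟩
  · have hnt' : Nontrivial (H ⧸ V) := QuotientGroup.nontrivial_iff.mpr hVne
    refine { exists_pair_ne := exists_pair_ne _, eq_bot_or_eq_top_of_normal := ?_ }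
    intro X hX
    have h1 : (X.comap (QuotientGroup.mk' V)).Normal := inferInstance
    have h2 : V ≤ X.comap (QuotientGroup.mk' V) := by
      intro v hv
      rw [mem_comap]
      have : QuotientGroup.mk' V v = 1 := (QuotientGroup.eq_one_iff v).mpr hv
      rw [this]; exact X.one_mem
    have h3 := map_comap_eq_self_of_surjective (QuotientGroup.mk'_surjective V) X
    by_cases h : X.comap (QuotientGroup.mk' V) = ⊤
    · right
      rw [← h3, h, Subgroup.map_top_of_surjective _ (QuotientGroup.mk'_surjective V)]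
    · left
      have h4 := hVmax ⟨h1, h⟩ h2
      rw [← h3, eq_bot_iff]
      rintro _ ⟨x, hx, rfl⟩
      rw [mem_bot]
      exact (QuotientGroup.eq_one_iff x).mpr (h4 hx)
  · intro hab
    apply hVne
    rw [eq_top_iff, ← hcomm, _root_.commutator_def, commutator_le]
    intro x _ y _
    rw [← QuotientGroup.eq_one_iff, commutatorElement_def]
    have := hab (QuotientGroup.mk x) (QuotientGroup.mk y)
    rw [QuotientGroup.mk_mul, QuotientGroup.mk_mul, QuotientGroup.mk_mul, this]
    simp

namespace TGA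

/-- **No good composition factors.** -/
theorem no_good_factor {K G A : Type} [Field K] [Group G] [Finite G] [Ring A] [Algebra K A]
    (T : TGA K G A) [IsSimpleRing A] (U : Subgroup G) (hU : U.IsSubnormal)
    (V : Subgroup U) [V.Normal] [IsSimpleGroup (U ⧸ V)] (hna : ¬ ∀ x y : U ⧸ V, x * y = y * x)
    {q : ℕ} [hq : Fact q.Prime] (hqS : q ∣ Nat.card (U ⧸ V)) (hidx : NoIdx q (U ⧸ V))
    (hmult : NoMult q (U ⧸ V)) : False := by
  obtain ⟨M, N, hMn, hNn, hMN, hperf, hidxJ, hmultJ, hqJ⟩ :=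
    exists_chief U hU V hna hqS hidx hmult
  refine T.no_good_chief M N hMN ?_ hperf hidxJ hmultJ hqJ
  -- `q ≠ char K`
  obtain ⟨D, _, _, hDD, hDinv, _, hDmap⟩ := exists_perfect_finite (V := N) (C := ⊥)
    (by
      intro c hc v _
      rw [mem_bot] at hc
      rw [hc, one_mul, mul_one])
    bot_le (by rw [relIndex_bot_left]; exact Nat.card_pos.ne')
  have hDn : D.Normal := by
    refine ⟨fun d hd g => ?_⟩
    have h1 : N.map (MulAut.conj g).toMonoidHom = N := by
      apply le_antisymm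
      · rintro _ ⟨x, hx, rfl⟩
        exact hNn.conj_mem x hx g
      · intro x hx
        refine ⟨g⁻¹ * x * g, ?_, ?_⟩
        · have := hNn.conj_mem x hx g⁻¹
          rwa [inv_inv] at this
        · change g * (g⁻¹ * x * g) * g⁻¹ = x
          group
    rw [← hDinv g h1]
    exact ⟨d, hd, rfl⟩
  have h2 := hDmap (QuotientGroup.mk' M) hperf
  have h3 : q ∣ Nat.card D := by
    rw [← h2] at hqJ
    exact hqJ.trans (card_dvd_of_surjective ((QuotientGroup.mk' M).subgroupMap D)
      ((QuotientGroup.mk' M).subgroupMap_surjective D))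
  exact (T.perfect_normal D hDn hDD hq.out h3).1

end TGA

end Pool.MP_9ebf7f_al.Sol
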