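import Pool.Agent.Lib.MP_9ebf7f_al.CompFac

/-!
# Cyclic Sylow subgroups and alternating groups
-/

set_option autoImplicit false

namespace Pool.MP_9ebf7f_al.Sol

open Module Subgroup
open scoped commutatorElement Nat

/-- A cyclic Sylow `q`-subgroup kills the `q`-part of the multiplier. -/
lemma noMult_of_cyclic {S : Type} [Group S] {q : ℕ} [hq : Fact q.Prime]
    (h : ∀ P : Sylow q S, IsCyclic P) : NoMult q S := by
  intro E _ _ hE f hf hker hdvd
  have : Finite S := Finite.of_surjective f hf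
  obtain ⟨z, hz⟩ := exists_prime_orderOf_dvd_card' (G := f.ker) q hdvd
  obtain ⟨P⟩ : Nonempty (Sylow q S) := inferInstance
  exact sylow_not_cyclic hE f hf hker (hker z.2) (by rw [Subgroup.orderOf_coe, hz]) P (h P)

/-- A simple group embeds into the symmetric group on the cosets of a proper subgroup. -/
lemma card_dvd_factorial {S : Type*} [Group S] [Finite S] [IsSimpleGroup S] {H : Subgroup S}
    (hH : H ≠ ⊤) : Nat.card S ∣ H.index ! := by
  have h1 : (MulAction.toPermHom S (S ⧸ H)).ker = ⊥ := by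
    rw [← normalCore_eq_ker]
    rcases (inferInstance : H.normalCore.Normal).eq_bot_or_eq_top with h | h
    · exact h
    · exfalso
      apply hH
      rw [eq_top_iff, ← h]
      exact normalCore_le H
  have h2 := card_dvd_of_injective (MulAction.toPermHom S (S ⧸ H))
    ((MonoidHom.ker_eq_bot_iff _).mp h1)
  rw [Nat.card_perm] at h2
  exact h2

/-- If the `q`-part of `|S|` is `q` and `|S|` does not divide `q!` then `S` has no proper subgroup
of index a power of `q`. -/
lemma noIdx_of_card {S : Type} [Group S] [Finite S] [IsSimpleGroup S] {q : ℕ} (hq : q.Prime)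
    (h1 : ¬ q ^ 2 ∣ Nat.card S) (h2 : ¬ Nat.card S ∣ q !) : NoIdx q S := by
  intro H k hk
  by_contra hH
  have h3 := card_dvd_factorial hH
  rw [hk] at h3
  have h4 : q ^ k ∣ Nat.card S := by rw [← hk]; exact index_dvd_card H
  have h5 : k ≤ 1 := by
    by_contra h
    exact h1 ((pow_dvd_pow q (by omega)).trans h4)
  apply h2
  refine h3.trans (Nat.factorial_dvd_factorial ?_)
  calc q ^ k ≤ q ^ 1 := Nat.pow_le_pow_right hq.pos h5
    _ = q := pow_one q

lemma cyclic_of_card {S : Type} [Group S] [Finite S] {q : ℕ} [hq : Fact q.Prime]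
    (h : q ∣ Nat.card S) (h1 : ¬ q ^ 2 ∣ Nat.card S) (P : Sylow q S) : IsCyclic P := by
  have h2 : Nat.card P = q := by
    obtain ⟨k, hk⟩ := IsPGroup.iff_card.mp P.2
    have h3 : k ≤ 1 := by
      by_contra h4
      apply h1
      exact ((pow_dvd_pow q (by omega)).trans (hk ▸ card_subgroup_dvd_card (P : Subgroup S)))
    have h4 : k ≠ 0 := by
      rintro rfl
      have h5 : q ∣ Nat.card P := P.dvd_card_of_dvd_card h
      rw [hk, pow_zero] at h5
      exact hq.out.one_lt.ne' (Nat.dvd_one.mp h5)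
    have h5 : k = 1 := by omega
    rw [hk, h5, pow_one]
  exact isCyclic_of_prime_card h2

/-- A prime between `n / 2` and `n`. -/
lemma exists_alt_prime {n : ℕ} (hn : 5 ≤ n) : ∃ q, q.Prime ∧ n < 2 * q ∧ q < n ∧ 3 ≤ q := by
  obtain ⟨p, hp, h1, h2⟩ := Nat.exists_prime_lt_and_le_two_mul (n / 2) (by omega)
  refine ⟨p, hp, by omega, ?_, by omega⟩
  rcases Nat.lt_or_ge p n with h | h
  · exact h
  · exfalso
    have h3 : p = 2 * (n / 2) := by omega
    have h4 : 2 ∣ p := ⟨_, h3⟩
    have := (Nat.prime_dvd_prime_iff_eq Nat.prime_two hp).mp h4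
    omega

lemma alt_valuation {n q : ℕ} (hq : q.Prime) (h1 : n < 2 * q) (h2 : q ≤ n) (h3 : 3 ≤ q) :
    ¬ q ^ 2 ∣ n ! := by
  have : Fact q.Prime := ⟨hq⟩
  intro h
  have h4 : 2 ≤ padicValNat q (n !) := (padicValNat_dvd_iff_le (Nat.factorial_ne_zero n)).mp h
  have hlog : Nat.log q n < 2 := by
    apply Nat.log_lt_of_lt_pow (by omega)
    nlinarith
  rw [padicValNat_factorial hlog] at h4
  have h5 : Finset.Ico 1 2 = {1} := rfl
  rw [h5, Finset.sum_singleton, pow_one] at h4
  have h6 : n / q < 2 := by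
    apply Nat.div_lt_of_lt_mul
    omega
  omega

/-- the alternating groups have good primes -/
lemma alt_good {n : ℕ} (hn : 5 ≤ n) {S : Type} [Group S] [Finite S] [IsSimpleGroup S]
    (hS : 2 * Nat.card S = n !) : ∃ q, q.Prime ∧ q ∣ Nat.card S ∧ NoIdx q S ∧
      ∀ _ : Fact q.Prime, NoMult q S := by
  obtain ⟨q, hq, h1, h2, h3⟩ := exists_alt_prime hn
  have hfact : Fact q.Prime := ⟨hq⟩
  have hdvd : q ∣ Nat.card S := by
    have h4 : q ∣ 2 * Nat.card S := by rw [hS]; exact hq.dvd_factorial.mpr h2.le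
    rcases (Nat.Prime.dvd_mul hq).mp h4 with h5 | h5
    · have := Nat.le_of_dvd (by norm_num) h5
      omega
    · exact h5
  have hsq : ¬ q ^ 2 ∣ Nat.card S := by
    intro h
    apply alt_valuation hq h1 h2.le h3
    rw [← hS]
    exact h.mul_left 2
  have hfac : ¬ Nat.card S ∣ q ! := by
    intro h
    have h4 := Nat.le_of_dvd (Nat.factorial_pos q) h
    have h5 : (q + 1) ! ≤ n ! := Nat.factorial_le h2
    rw [Nat.factorial_succ, ← hS] at h5
    have h6 := Nat.factorial_pos q
    nlinarith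
  exact ⟨q, hq, hdvd, noIdx_of_card hq hsq hfac, fun _ =>
    noMult_of_cyclic (cyclic_of_card hdvd hsq)⟩

end Pool.MP_9ebf7f_al.Sol
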