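import Pool.Agent.Lib.MP_9ebf7f_al.Sub

/-!
# Sylow restrictions of simple twisted group algebras are simple

If `K^α G` is simple and `P` is a Sylow `q`-subgroup of `G`, `q ≠ char K`, then the central
idempotents of `K^α P` are `0` and `1`.
-/

set_option autoImplicit false

namespace Pool.MP_9ebf7f_al.Sol

open Module

namespace TGA

variable {K G A : Type*} [Field K] [Group G] [Ring A] [Algebra K A] (T : TGA K G A)

include T in
/-- `dim e A ≤ dim A e` and conversely -/
lemma dl_eq_dr [Finite G] {e : A} (he : e * e = e) : dl K e = dr K e := by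
  have hfin : Module.Finite K A := Module.Finite.of_basis T.b
  apply le_antisymm
  · unfold dl dr
    let φ : LinearMap.range (LinearMap.mulLeft K e) →ₗ[K]
        Module.Dual K (LinearMap.range (LinearMap.mulRight K e)) :=
      { toFun := fun x => T.tau ∘ₗ (LinearMap.mulLeft K x.1) ∘ₗ (Submodule.subtype _)
        map_add' := fun x y => by
          ext z; simp [add_mul]
        map_smul' := fun c x => by
          ext z; simp }
    have hinj : Function.Injective φ := by
      rw [← LinearMap.ker_eq_bot, eq_bot_iff]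
      rintro ⟨x, ⟨w, rfl⟩⟩ hx
      rw [LinearMap.mem_ker] at hx
      rw [Submodule.mem_bot]
      apply Subtype.ext
      change (LinearMap.mulLeft K e) w = 0
      apply T.tau_nondeg
      intro z
      rw [LinearMap.mulLeft_apply]
      have h1 := LinearMap.congr_fun hx ⟨z * e, ⟨z, rfl⟩⟩
      have h2 : T.tau ((e * w) * (z * e)) = 0 := h1
      rw [← mul_assoc, T.tau_mul_comm, ← mul_assoc, ← mul_assoc, he] at h2
      exact h2
    have h3 := LinearMap.finrank_le_finrank_of_injective hinj
    rwa [Subspace.dual_finrank_eq] at h3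
  · unfold dl dr
    let φ : LinearMap.range (LinearMap.mulRight K e) →ₗ[K]
        Module.Dual K (LinearMap.range (LinearMap.mulLeft K e)) :=
      { toFun := fun x => T.tau ∘ₗ (LinearMap.mulLeft K x.1) ∘ₗ (Submodule.subtype _)
        map_add' := fun x y => by
          ext z; simp [add_mul]
        map_smul' := fun c x => by
          ext z; simp }
    have hinj : Function.Injective φ := by
      rw [← LinearMap.ker_eq_bot, eq_bot_iff]
      rintro ⟨x, ⟨w, rfl⟩⟩ hx
      rw [LinearMap.mem_ker] at hx
      rw [Submodule.mem_bot]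
      apply Subtype.ext
      change (LinearMap.mulRight K e) w = 0
      apply T.tau_nondeg
      intro z
      rw [LinearMap.mulRight_apply]
      have h1 := LinearMap.congr_fun hx ⟨e * z, ⟨z, rfl⟩⟩
      have h2 : T.tau ((w * e) * (e * z)) = 0 := h1
      rw [← mul_assoc, mul_assoc w e e, he] at h2
      exact h2
    have h3 := LinearMap.finrank_le_finrank_of_injective hinj
    rwa [Subspace.dual_finrank_eq] at h3

/-- `dim e A = [G : P] dim e (K^α P)` -/
lemma dl_sub [Finite G] (P : Subgroup G) (e : T.sub P) (he : e * e = e) :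
    dl K (e : A) = P.index * dl K e := by
  classical
  have hfin : Module.Finite K A := Module.Finite.of_basis T.b
  have hfinB : Module.Finite K (T.sub P) := Module.Finite.of_basis (T.res P).b
  obtain ⟨S, hS, -⟩ := P.exists_isComplement_right 1
  have : Finite S := Set.toFinite S
  have := Fintype.ofFinite S
  have hcard : Nat.card S = P.index := hS.card_right
  -- the map
  let Ψ : (S → T.sub P) →ₗ[K] A :=
    ∑ t : S, (LinearMap.mulRight K (T.b (t : G))) ∘ₗ (T.sub P).val.toLinearMap ∘ₗ
      (LinearMap.proj t)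
  have hΨ : ∀ β : S → T.sub P, Ψ β = ∑ t : S, (β t : A) * T.b (t : G) := by
    intro β; simp [Ψ]
  -- coefficients
  have hcoef : ∀ (β : T.sub P) (t : S) (p : P) (t' : S),
      T.b.repr ((β : A) * T.b (t' : G)) ((p : G) * (t : G)) =
        if t' = t then (T.res P).b.repr β p * T.c p t else 0 := by
    intro β t p t'
    have h1 : (Finsupp.lapply ((p : G) * (t : G)) ∘ₗ T.b.repr.toLinearMap ∘ₗ
        (LinearMap.mulRight K (T.b (t' : G))) ∘ₗ (T.sub P).val.toLinearMap : T.sub P →ₗ[K] K) =
        (if t' = t then T.c p t else 0) • (Finsupp.lapply p ∘ₗ (T.res P).b.repr.toLinearMap) := by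
      apply (T.res P).b.ext
      intro p'
      simp only [LinearMap.comp_apply, LinearMap.smul_apply, AlgHom.toLinearMap_apply,
        Subalgebra.coe_val, res_b, LinearMap.mulRight_apply, T.hb, LinearEquiv.coe_coe, map_smul,
        Basis.repr_self, Finsupp.lapply_apply, smul_eq_mul]
      by_cases htt : t' = t
      · subst htt
        by_cases hpp : p' = p
        · subst hpp; simp
        · have : (p' : G) * (t' : G) ≠ (p : G) * (t' : G) := by
            intro h; exact hpp (Subtype.ext (mul_right_cancel h))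
          simp [hpp, this]
      · have : (p' : G) * (t' : G) ≠ (p : G) * (t : G) := by
          intro h
          have h2 := hS.1 (a₁ := (p', t')) (a₂ := (p, t)) h
          exact htt (congrArg Prod.snd h2)
        simp [htt, this]
    have h2 := LinearMap.congr_fun h1 β
    simp only [LinearMap.comp_apply, LinearMap.smul_apply, AlgHom.toLinearMap_apply,
        Subalgebra.coe_val, LinearMap.mulRight_apply, LinearEquiv.coe_coe,
        Finsupp.lapply_apply, smul_eq_mul] at h2
    rw [h2]
    split_ifs <;> simp [mul_comm]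
  have hinj : Function.Injective Ψ := by
    rw [← LinearMap.ker_eq_bot, eq_bot_iff]
    intro β hβ
    rw [LinearMap.mem_ker, hΨ] at hβ
    rw [Submodule.mem_bot]
    funext t
    apply (T.res P).b.repr.injective
    ext p
    have h1 := congrArg (fun z => T.b.repr z ((p : G) * (t : G))) hβ
    simp only [map_sum, map_zero, Finsupp.finsetSum_apply, Finsupp.zero_apply, hcoef,
      Finset.sum_ite_eq', Finset.mem_univ, if_true] at h1
    have h2 := (mul_eq_zero.mp h1).resolve_right (T.hc _ _)
    rw [h2]; simp
  have hdim : finrank K (S → T.sub P) = finrank K A := by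
    rw [Module.finrank_pi_fintype, Finset.sum_const, Finset.card_univ, smul_eq_mul]
    have h1 : finrank K (T.sub P) = Nat.card P := by
      have := Fintype.ofFinite P
      rw [Module.finrank_eq_card_basis (T.res P).b, Nat.card_eq_fintype_card]
    have h2 : finrank K A = Nat.card G := by
      have := Fintype.ofFinite G
      rw [Module.finrank_eq_card_basis T.b, Nat.card_eq_fintype_card]
    rw [h1, h2, ← Nat.card_eq_fintype_card, hcard, P.index_mul_card]
  have hsurj : Function.Surjective Ψ :=
    (LinearMap.injective_iff_surjective_of_finrank_eq_finrank hdim).mp hinj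
  -- restrict to `e`
  unfold dl
  let φ : (S → LinearMap.range (LinearMap.mulLeft K e)) ≃ₗ[K]
      LinearMap.range (LinearMap.mulLeft K (e : A)) := by
    refine LinearEquiv.ofBijective
      (LinearMap.codRestrict _ (Ψ ∘ₗ LinearMap.pi (fun t => (Submodule.subtype _) ∘ₗ
        (LinearMap.proj t : (S → LinearMap.range (LinearMap.mulLeft K e)) →ₗ[K] _))) ?_) ⟨?_, ?_⟩
    · intro β
      rw [LinearMap.comp_apply, hΨ]
      refine ⟨∑ t : S, (((β t) : T.sub P) : A) * T.b (t : G), ?_⟩
      rw [LinearMap.mulLeft_apply, Finset.mul_sum]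
      apply Finset.sum_congr rfl
      intro t _
      obtain ⟨w, hw⟩ := (β t).2
      change (e : A) * ((((β t) : T.sub P) : A) * _) = (((β t) : T.sub P) : A) * _
      have : (e : A) * (((β t) : T.sub P) : A) = (((β t) : T.sub P) : A) := by
        have h3 : e * ((β t) : T.sub P) = ((β t) : T.sub P) := by
          rw [← hw, LinearMap.mulLeft_apply, ← mul_assoc, he]
        exact congrArg Subtype.val h3
      rw [← mul_assoc, this]
    · intro β β' h
      have h1 : Ψ (fun t => ((β t) : T.sub P)) = Ψ (fun t => ((β' t) : T.sub P)) :=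
        congrArg Subtype.val h
      have h2 := hinj h1
      funext t
      exact Subtype.ext (congrFun h2 t)
    · rintro ⟨_, ⟨a, rfl⟩⟩
      obtain ⟨β, rfl⟩ := hsurj a
      refine ⟨fun t => ⟨e * β t, ⟨β t, rfl⟩⟩, ?_⟩
      apply Subtype.ext
      change Ψ (fun t => e * β t) = (e : A) * Ψ β
      rw [hΨ, hΨ, Finset.mul_sum]
      apply Finset.sum_congr rfl
      intro t _
      rw [← mul_assoc]; rfl
  rw [← LinearEquiv.finrank_eq φ, Module.finrank_pi_fintype, Finset.sum_const, Finset.card_univ,
    smul_eq_mul, ← Nat.card_eq_fintype_card, hcard]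

/-- existence of a primitive idempotent below a central idempotent -/
lemma _root_.Pool.MP_9ebf7f_al.Sol.exists_prim_below {R : Type*} [Ring R] [IsSemisimpleRing R]
    {κ : R} (hκ : κ * κ = κ) (hκ0 : κ ≠ 0) :
    ∃ e : R, e ≠ 0 ∧ e * e = e ∧ e * κ = e ∧ ∀ g : R, g * e = g → g ≠ 0 → ∃ b, b * g = e := by
  obtain ⟨S, hS, hSκ⟩ : ∃ S : Ideal R, IsAtom S ∧ S ≤ Ideal.span {κ} := by
    rcases IsAtomic.eq_bot_or_exists_atom_le (Ideal.span {κ}) with h | h
    · exfalso
      apply hκ0
      have : κ ∈ Ideal.span {κ} := Ideal.mem_span_singleton_self κ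
      rw [h] at this
      simpa using this
    · exact h
  obtain ⟨e, he, hI⟩ := IsSemisimpleRing.ideal_eq_span_idempotent S
  have heS : e ∈ S := by rw [hI]; exact Ideal.mem_span_singleton_self e
  refine ⟨e, ?_, he, ?_, ?_⟩
  · rintro rfl
    have : S = ⊥ := by rw [hI]; simp
    exact hS.1 this
  · obtain ⟨a, ha⟩ := Ideal.mem_span_singleton'.mp (hSκ heS)
    rw [← ha, mul_assoc, hκ]
  · intro g hg hg0
    have hgS : g ∈ S := by
      rw [hI, Ideal.mem_span_singleton']
      exact ⟨g, hg⟩
    have hle : Ideal.span {g} ≤ S := by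
      rw [Ideal.span_le]; simpa using hgS
    have heq : Ideal.span {g} = S := by
      rcases hS.le_iff.mp hle with h | h
      · exfalso
        apply hg0
        have : g ∈ Ideal.span {g} := Ideal.mem_span_singleton_self g
        rw [h] at this
        simpa using this
      · exact h
    have hfS : e ∈ Ideal.span {g} := by rw [heq]; exact heS
    exact Ideal.mem_span_singleton'.mp hfS

lemma _root_.Pool.MP_9ebf7f_al.Sol.dlr_zero (K : Type*) {R : Type*} [Field K] [Ring R]
    [Algebra K R] (e : R) : dlr K 0 e = 0 := by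
  unfold dlr
  have : lr K 0 e = 0 := by ext z; simp [lr_apply]
  rw [this, LinearMap.range_zero, finrank_bot]

lemma _root_.Pool.MP_9ebf7f_al.Sol.dlr_self_pos (K : Type*) {R : Type*} [Field K] [Ring R]
    [Algebra K R] [Module.Finite K R] {e : R} (he : e * e = e) (he0 : e ≠ 0) :
    0 < dlr K e e := by
  unfold dlr
  rw [Module.finrank_pos_iff_exists_ne_zero]
  refine ⟨⟨e, ?_⟩, ?_⟩
  · rw [mem_range_lr K he he]; exact ⟨he, he⟩
  · intro h; exact he0 (congrArg Subtype.val h)

/-- **Sylow restriction**: the central idempotents of `K^α P` are trivial. -/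
theorem central_idem [Finite G] [IsSimpleRing A] {q : ℕ} [hq : Fact q.Prime] (hqK : (q : K) ≠ 0)
    (P : Subgroup G) (hP : IsPGroup q P) (hidx : ¬ q ∣ P.index) (κ : T.sub P) (hκ : κ * κ = κ)
    (hκc : ∀ x, κ * x = x * κ) (hκ0 : κ ≠ 0) : κ = 1 := by
  have hfin : Module.Finite K A := Module.Finite.of_basis T.b
  have hfinB : Module.Finite K (T.sub P) := Module.Finite.of_basis (T.res P).b
  obtain ⟨n, hn⟩ := IsPGroup.iff_card.mp hP
  have hcardP : (Nat.card P : K) ≠ 0 := by
    rw [hn, Nat.cast_pow]; exact pow_ne_zero _ hqK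
  have hss : IsSemisimpleRing (T.sub P) := (T.res P).semisimple hcardP
  have hcop : Nat.Coprime (Nat.card P) P.index := by
    rw [hn]; exact Nat.Coprime.pow_left n ((Nat.Prime.coprime_iff_not_dvd hq.out).mpr hidx)
  obtain ⟨f, hf0, hff, hf⟩ := exists_prim K (A := A)
  obtain ⟨e, he0, hee, heκ, he⟩ := exists_prim_below hκ hκ0
  have heA : (e : A) * (e : A) = (e : A) := congrArg Subtype.val hee
  -- rank in `A`
  have hA : ∀ g : A, g * g = g → ∃ r : ℕ, ∀ e' : A, e' * e' = e' →
      dlr K g e' = r * dlr K f e' := by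
    intro g hg
    obtain ⟨r, g', h1, h2, h3, h4, h5⟩ := peel K hff hf0 hf _ g hg le_rfl
    refine ⟨r, fun e' he' => ?_⟩
    have hg0 : g' = 0 := by
      by_contra hne
      obtain ⟨a, ha⟩ := prime_of_simple hne hf0
      apply ha
      rw [mul_assoc]; exact h4 a
    rw [h5 e' he', hg0, dlr_zero, add_zero]
  obtain ⟨m, hm⟩ := hA 1 (one_mul 1)
  obtain ⟨r, hr⟩ := hA (e : A) heA
  have hG : Nat.card G = m * (m * dlr K f f) := by
    have h1 := hm 1 (one_mul 1)
    have h2 := hm f hff
    rw [dlr_one_left] at h1 h2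
    rw [dlr_one, T.dl_eq_dr hff, h2] at h1
    rw [← h1]
    unfold dr
    have : LinearMap.range (LinearMap.mulRight K (1 : A)) = ⊤ := by
      rw [LinearMap.range_eq_top]; intro z; exact ⟨z, by simp⟩
    rw [this, finrank_top]
    have := Fintype.ofFinite G
    rw [Module.finrank_eq_card_basis T.b, Nat.card_eq_fintype_card]
  have he1 : P.index * dl K e = r * (m * dlr K f f) := by
    have h1 := hr 1 (one_mul 1)
    have h2 := hm f hff
    rw [dlr_one_left] at h2
    rw [dlr_one, dlr_one, T.dl_eq_dr hff, h2, T.dl_sub P e hee] at h1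
    exact h1
  have he2 : dlr K e e ∣ r * dlr K f f := by
    rw [← hr f hff]
    -- the division algebra `e B e`
    let Δ : Submodule K A := (LinearMap.range (lr K e e)).map (T.sub P).val.toLinearMap
    have hΔ : ∀ x, x ∈ Δ ↔ ∃ y : T.sub P, e * y = y ∧ y * e = y ∧ (y : A) = x := by
      intro x
      constructor
      · rintro ⟨y, hy, rfl⟩
        obtain ⟨h1, h2⟩ := (mem_range_lr K hee hee).mp hy
        exact ⟨y, h1, h2, rfl⟩
      · rintro ⟨y, h1, h2, rfl⟩
        exact ⟨y, (mem_range_lr K hee hee).mpr ⟨h1, h2⟩, rfl⟩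
    have hΔd : finrank K Δ = dlr K e e := by
      unfold dlr
      exact (Submodule.equivMapOfInjective _ Subtype.val_injective _).finrank_eq.symm
    rw [← hΔd]
    unfold dlr
    apply div_dim
    · intro x hx y hy
      rw [hΔ] at hx hy ⊢
      obtain ⟨x', h1, h2, rfl⟩ := hx
      obtain ⟨y', h3, h4, rfl⟩ := hy
      exact ⟨x' * y', by rw [← mul_assoc, h1], by rw [mul_assoc, h4], rfl⟩
    · intro x hx w hw
      rw [hΔ] at hx
      obtain ⟨x', h1, h2, rfl⟩ := hx
      rw [mem_range_lr K heA hff] at hw ⊢
      refine ⟨?_, by rw [mul_assoc, hw.2]⟩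
      rw [← mul_assoc]
      congr 1
      exact congrArg Subtype.val h1
    · intro x hx hx0
      rw [hΔ] at hx
      obtain ⟨x', h1, h2, rfl⟩ := hx
      have hx'0 : x' ≠ 0 := by rintro rfl; exact hx0 rfl
      obtain ⟨b, hb⟩ := he x' h2 hx'0
      refine ⟨((e * b * e : T.sub P) : A), ?_, ?_⟩
      · rw [hΔ]
        exact ⟨_, by rw [← mul_assoc, ← mul_assoc, hee], by rw [mul_assoc, hee], rfl⟩
      · intro w hw
        rw [mem_range_lr K heA hff] at hw
        have h3 : (e * b * e) * x' = e := by rw [mul_assoc, h1, mul_assoc, hb, hee]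
        have h4 : ((e * b * e : T.sub P) : A) * (x' : A) = (e : A) := congrArg Subtype.val h3
        rw [← mul_assoc, h4, hw.1]
    · rw [hΔd]; exact dlr_self_pos K hee he0
  -- rank in `B`
  obtain ⟨w, g', h1, h2, h3, h4, h5⟩ := peel K hee he0 he _ κ hκ le_rfl
  have hg'e : dlr K g' e = 0 := by
    unfold dlr
    have : lr K g' e = 0 := by ext1 z; rw [lr_apply, h4]; rfl
    rw [this, LinearMap.range_zero, finrank_bot]
  have hB1 : dl K e = w * dlr K e e := by
    have h6 := h5 e hee
    rw [hg'e, add_zero] at h6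
    rw [(T.res P).dl_eq_dr hee, ← h6, ← dlr_one_left]
    have : lr K κ e = lr K 1 e := by
      ext1 z
      rw [lr_apply, lr_apply, one_mul, hκc, mul_assoc, heκ]
    unfold dlr
    rw [this]
  have hB2 : w * dl K e ≤ dl K κ := by
    have h6 := h5 1 (one_mul 1)
    rw [dlr_one, dlr_one] at h6
    omega
  have hfrB : finrank K (T.sub P) = Nat.card P := by
    have := Fintype.ofFinite P
    rw [Module.finrank_eq_card_basis (T.res P).b, Nat.card_eq_fintype_card]
  have hB3 : dl K κ ≤ Nat.card P := by
    rw [← hfrB]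
    exact Submodule.finrank_le _
  -- arithmetic
  have hδ : 0 < dlr K e e := dlr_self_pos K hee he0
  have hidx0 : 0 < P.index := Nat.pos_of_ne_zero (by
    intro h; rw [h] at hidx; exact hidx (dvd_zero _))
  obtain ⟨s, hs⟩ := he2
  have hPG : Nat.card P * P.index = m * (m * dlr K f f) := by rw [← hG]; exact P.card_mul_index
  have e1 : P.index * w = m * s := by
    have : (P.index * w) * dlr K e e = (m * s) * dlr K e e := by
      calc (P.index * w) * dlr K e e = P.index * dl K e := by rw [hB1]; ring
        _ = m * (r * dlr K f f) := by rw [he1]; ring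
        _ = (m * s) * dlr K e e := by rw [hs]; ring
    exact Nat.eq_of_mul_eq_mul_right hδ this
  have e2 : P.index * (w * dl K e) = s * r * Nat.card P := by
    have : P.index * (P.index * (w * dl K e)) = P.index * (s * r * Nat.card P) := by
      calc P.index * (P.index * (w * dl K e)) = (P.index * w) * (P.index * dl K e) := by ring
        _ = (m * s) * (r * (m * dlr K f f)) := by rw [e1, he1]
        _ = s * r * (m * (m * dlr K f f)) := by ring
        _ = P.index * (s * r * Nat.card P) := by rw [← hPG]; ring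
    exact Nat.eq_of_mul_eq_mul_left hidx0 this
  have e3 : Nat.card P ∣ w * dl K e := by
    have : Nat.card P ∣ P.index * (w * dl K e) := by rw [e2]; exact Dvd.intro_left _ rfl
    exact hcop.dvd_of_dvd_mul_left this
  have e4 : 0 < w * dl K e := by
    have h7 : 0 < dl K e := by
      unfold dl
      rw [Module.finrank_pos_iff_exists_ne_zero]
      refine ⟨⟨e, ⟨e, hee⟩⟩, ?_⟩
      intro h; exact he0 (congrArg Subtype.val h)
    have h8 : 0 < w := by
      rcases Nat.eq_zero_or_pos w with h | h
      · rw [h, zero_mul] at hB1; omega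
      · exact h
    exact Nat.mul_pos h8 h7
  have e5 : dl K κ = finrank K (T.sub P) := by
    have := Nat.le_of_dvd e4 e3
    omega
  have e6 : LinearMap.range (LinearMap.mulLeft K κ) = ⊤ := Submodule.eq_top_of_finrank_eq e5
  have e7 : (1 : T.sub P) ∈ LinearMap.range (LinearMap.mulLeft K κ) := by rw [e6]; trivial
  obtain ⟨y, hy⟩ := e7
  rw [LinearMap.mulLeft_apply] at hy
  calc κ = κ * (κ * y) := by rw [hy, mul_one]
    _ = 1 := by rw [← mul_assoc, hκ, hy]

end TGA

end Pool.MP_9ebf7f_al.Sol
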