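import Pool.Agent.Lib.MP_9ebf7f_al.RingPart

/-!
# Dimensions of the one sided ideals generated by idempotents
-/

set_option autoImplicit false

namespace Pool.MP_9ebf7f_al.Sol

open Module

section dims

variable (K : Type*) {R : Type*} [Field K] [Ring R] [Algebra K R]

/-- dimension of `g R` -/
noncomputable def dl (g : R) : ℕ := finrank K (LinearMap.range (LinearMap.mulLeft K g))

/-- dimension of `R e` -/
noncomputable def dr (e : R) : ℕ := finrank K (LinearMap.range (LinearMap.mulRight K e))

/-- the map `z ↦ g z e` -/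
noncomputable def lr (g e : R) : R →ₗ[K] R := (LinearMap.mulLeft K g).comp (LinearMap.mulRight K e)

/-- dimension of `g R e` -/
noncomputable def dlr (g e : R) : ℕ := finrank K (LinearMap.range (lr K g e))

lemma lr_apply (g e z : R) : lr K g e z = g * (z * e) := rfl

lemma lr_one (g : R) : lr K g 1 = LinearMap.mulLeft K g := by
  ext z; simp [lr_apply]

lemma dlr_one (g : R) : dlr K g 1 = dl K g := by
  unfold dlr dl; rw [lr_one]

lemma dlr_one_left (e : R) : dlr K 1 e = dr K e := by
  have : lr K 1 e = LinearMap.mulRight K e := by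
    ext z; simp [lr_apply]
  unfold dlr dr
  rw [this]

lemma mem_range_lr {g e z : R} (hg : g * g = g) (he : e * e = e) :
    z ∈ LinearMap.range (lr K g e) ↔ g * z = z ∧ z * e = z := by
  constructor
  · rintro ⟨w, rfl⟩
    rw [lr_apply]
    constructor
    · rw [← mul_assoc, hg]
    · rw [mul_assoc, mul_assoc, he]
  · rintro ⟨h1, h2⟩
    exact ⟨z, by rw [lr_apply, h2, h1]⟩

/-- equivalent idempotents have the same dimensions -/
lemma dlr_equiv {s f x y e : R} (hs : s * s = s) (hf : f * f = f) (he : e * e = e)
    (hxy : x * y = s) (hyx : y * x = f) (hsx : s * x = x) (hfy : f * y = y) :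
    dlr K s e = dlr K f e := by
  unfold dlr
  have hxf : x * f = x := by rw [← hyx, ← mul_assoc, hxy, hsx]
  have hys : y * s = y := by rw [← hxy, ← mul_assoc, hyx, hfy]
  let φ : LinearMap.range (lr K s e) ≃ₗ[K] LinearMap.range (lr K f e) :=
    { toFun := fun z => ⟨y * z.1, by
        rw [mem_range_lr K hf he]
        have := (mem_range_lr K hs he).mp z.2
        exact ⟨by rw [← mul_assoc, hfy], by rw [mul_assoc, this.2]⟩⟩
      map_add' := fun a b => Subtype.ext (mul_add _ _ _)
      map_smul' := fun c a => Subtype.ext (mul_smul_comm _ _ _)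
      invFun := fun z => ⟨x * z.1, by
        rw [mem_range_lr K hs he]
        have := (mem_range_lr K hf he).mp z.2
        exact ⟨by rw [← mul_assoc, hsx], by rw [mul_assoc, this.2]⟩⟩
      left_inv := fun z => Subtype.ext (by
        have := (mem_range_lr K hs he).mp z.2
        change x * (y * z.1) = z.1
        rw [← mul_assoc, hxy, this.1])
      right_inv := fun z => Subtype.ext (by
        have := (mem_range_lr K hf he).mp z.2
        change y * (x * z.1) = z.1
        rw [← mul_assoc, hyx, this.1]) }
  exact LinearEquiv.finrank_eq φ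

variable [Module.Finite K R]

/-- additivity -/
lemma dlr_split {g s e : R} (hg : g * g = g) (hs : s * s = s) (he : e * e = e)
    (hgs : g * s = s) (hsg : s * g = s) :
    dlr K g e = dlr K s e + dlr K (g - s) e := by
  have hgs' : (g - s) * (g - s) = g - s := by
    rw [sub_mul, mul_sub, mul_sub, hg, hgs, hsg, hs]; abel
  unfold dlr
  rw [← Module.finrank_prod]
  let φ : LinearMap.range (lr K g e) ≃ₗ[K]
      (LinearMap.range (lr K s e) × LinearMap.range (lr K (g - s) e)) :=
    { toFun := fun z => (⟨s * z.1, by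
          rw [mem_range_lr K hs he]
          have := (mem_range_lr K hg he).mp z.2
          exact ⟨by rw [← mul_assoc, hs], by rw [mul_assoc, this.2]⟩⟩,
        ⟨(g - s) * z.1, by
          rw [mem_range_lr K hgs' he]
          have := (mem_range_lr K hg he).mp z.2
          exact ⟨by rw [← mul_assoc, hgs'], by rw [mul_assoc, this.2]⟩⟩)
      map_add' := fun a b => Prod.ext (Subtype.ext (mul_add _ _ _)) (Subtype.ext (mul_add _ _ _))
      map_smul' := fun c a => Prod.ext (Subtype.ext (mul_smul_comm _ _ _))
        (Subtype.ext (mul_smul_comm _ _ _))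
      invFun := fun z => ⟨z.1.1 + z.2.1, by
        rw [mem_range_lr K hg he]
        have h1 := (mem_range_lr K hs he).mp z.1.2
        have h2 := (mem_range_lr K hgs' he).mp z.2.2
        refine ⟨?_, by rw [add_mul, h1.2, h2.2]⟩
        have e1 : g * z.1.1 = z.1.1 := by rw [← h1.1, ← mul_assoc, hgs]
        have e2 : g * z.2.1 = z.2.1 := by
          rw [← h2.1, ← mul_assoc, mul_sub, hg, hgs]
        rw [mul_add, e1, e2]⟩
      left_inv := fun z => Subtype.ext (by
        have := (mem_range_lr K hg he).mp z.2
        change s * z.1 + (g - s) * z.1 = z.1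
        rw [← add_mul, add_sub_cancel, this.1])
      right_inv := fun z => by
        have h1 := (mem_range_lr K hs he).mp z.1.2
        have h2 := (mem_range_lr K hgs' he).mp z.2.2
        have e1 : s * z.2.1 = 0 := by
          rw [← h2.1, ← mul_assoc, mul_sub, hs, hsg, sub_self, zero_mul]
        have e2 : (g - s) * z.1.1 = 0 := by
          rw [← h1.1, ← mul_assoc, sub_mul, hgs, hs, sub_self, zero_mul]
        refine Prod.ext (Subtype.ext ?_) (Subtype.ext ?_)
        · change s * (z.1.1 + z.2.1) = z.1.1
          rw [mul_add, h1.1, e1, add_zero]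
        · change (g - s) * (z.1.1 + z.2.1) = z.2.1
          rw [mul_add, e2, h2.1, zero_add] }
  exact LinearEquiv.finrank_eq φ

/-- peeling copies of `f` off an idempotent -/
lemma peel {f : R} (hf : f * f = f) (hf0 : f ≠ 0)
    (hdiv : ∀ z : R, z * f = z → z ≠ 0 → ∃ b, b * z = f) :
    ∀ (n : ℕ) (g : R), g * g = g → dlr K g f ≤ n →
      ∃ (r : ℕ) (g' : R), g' * g' = g' ∧ g * g' = g' ∧ g' * g = g' ∧ (∀ z, g' * (z * f) = 0) ∧
        ∀ e : R, e * e = e → dlr K g e = r * dlr K f e + dlr K g' e := by
  intro n
  induction n with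
  | zero =>
    intro g hg hn
    refine ⟨0, g, hg, hg, hg, ?_, fun e _ => by simp⟩
    intro z
    have h0 : dlr K g f = 0 := Nat.le_zero.mp hn
    unfold dlr at h0
    rw [Submodule.finrank_eq_zero] at h0
    have : lr K g f z ∈ LinearMap.range (lr K g f) := ⟨z, rfl⟩
    rw [h0, Submodule.mem_bot, lr_apply] at this
    exact this
  | succ n ih =>
    intro g hg hn
    by_cases hz : ∀ z, g * (z * f) = 0
    · exact ⟨0, g, hg, hg, hg, hz, fun e _ => by simp⟩
    · push Not at hz
      obtain ⟨z₀, hz₀⟩ := hz
      set x := g * (z₀ * f) with hx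
      have hxf : x * f = x := by rw [hx, mul_assoc, mul_assoc, hf]
      have hgx : g * x = x := by rw [hx, ← mul_assoc, hg]
      obtain ⟨b, hb⟩ := hdiv x hxf hz₀
      set y := f * b * g with hy
      have hyx : y * x = f := by rw [hy, mul_assoc, hgx, mul_assoc, hb, hf]
      have hfy : f * y = y := by rw [hy, ← mul_assoc, ← mul_assoc, hf]
      have hyg : y * g = y := by rw [hy, mul_assoc, hg]
      set s := x * y with hs
      have hss : s * s = s := by rw [hs, mul_assoc, ← mul_assoc y x y, hyx, hfy]
      have hgs : g * s = s := by rw [hs, ← mul_assoc, hgx]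
      have hsg : s * g = s := by rw [hs, mul_assoc, hyg]
      have hsx : s * x = x := by rw [hs, mul_assoc, hyx, hxf]
      have hgs' : (g - s) * (g - s) = g - s := by
        rw [sub_mul, mul_sub, mul_sub, hg, hgs, hsg, hss]; abel
      have hff : dlr K s f = dlr K f f := dlr_equiv K hss hf hf rfl hyx hsx hfy
      have hpos : 0 < dlr K f f := by
        unfold dlr
        rw [Module.finrank_pos_iff_exists_ne_zero]
        refine ⟨⟨f, ?_⟩, ?_⟩
        · rw [mem_range_lr K hf hf]; exact ⟨hf, hf⟩
        · intro h; exact hf0 (congrArg Subtype.val h)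
      have hsplit := dlr_split K hg hss hf hgs hsg
      have hle : dlr K (g - s) f ≤ n := by omega
      obtain ⟨r, g', h1, h2, h3, h4, h5⟩ := ih (g - s) hgs' hle
      refine ⟨r + 1, g', h1, ?_, ?_, h4, ?_⟩
      · have : s * g' = 0 := by
          rw [← h2, ← mul_assoc, mul_sub, hsg, hss, sub_self, zero_mul]
        rw [sub_mul, this, sub_zero] at h2
        exact h2
      · have : g' * s = 0 := by
          rw [← h3, mul_assoc, sub_mul, hgs, hss, sub_self, mul_zero]
        rw [mul_sub, this, sub_zero] at h3
        exact h3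
      · intro e he
        rw [dlr_split K hg hss he hgs hsg, h5 e he,
          dlr_equiv K hss hf he rfl hyx hsx hfy]
        ring

end dims

/-- dimension of a module over a division algebra -/
lemma div_dim {K A : Type*} [Field K] [Ring A] [Algebra K A] [Module.Finite K A]
    (Δ W : Submodule K A) (hmul : ∀ x ∈ Δ, ∀ y ∈ Δ, x * y ∈ Δ) (hW : ∀ x ∈ Δ, ∀ w ∈ W, x * w ∈ W)
    (hinv : ∀ x ∈ Δ, x ≠ 0 → ∃ y ∈ Δ, ∀ w ∈ W, y * (x * w) = w) (hΔpos : 0 < finrank K Δ) :
    finrank K Δ ∣ finrank K W := by
  -- choose a maximal stable submodule of dimension a multiple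
  let Pr : ℕ → Prop := fun n => ∃ U : Submodule K A, U ≤ W ∧ (∀ x ∈ Δ, ∀ u ∈ U, x * u ∈ U) ∧
    finrank K Δ ∣ finrank K U ∧ finrank K U = n
  have h0 : ∃ n, n ≤ finrank K W ∧ Pr n :=
    ⟨0, Nat.zero_le _, ⊥, bot_le, by
      intro x _ u hu
      rw [Submodule.mem_bot] at hu ⊢
      rw [hu, mul_zero], by simp, by simp⟩
  classical
  obtain ⟨n, hnle, ⟨U, hUW, hU, hdvd, hUn⟩, hmax⟩ : ∃ n, n ≤ finrank K W ∧ Pr n ∧
      ∀ m, m ≤ finrank K W → Pr m → m ≤ n := by
    obtain ⟨n₀, hn₀, hP₀⟩ := h0
    refine ⟨Nat.findGreatest Pr (finrank K W), Nat.findGreatest_le _,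
      Nat.findGreatest_spec hn₀ hP₀, fun m hm hPm => Nat.le_findGreatest hm hPm⟩
  by_cases hUW' : U = W
  · rw [← hUW']; exact hdvd
  · exfalso
    obtain ⟨w, hwW, hwU⟩ := SetLike.exists_of_lt (lt_of_le_of_ne hUW hUW')
    let V : Submodule K A := Δ.map (LinearMap.mulRight K w)
    have hinj : Set.InjOn (LinearMap.mulRight K w) Δ := by
      intro x hx y hy hxy
      by_contra hne
      have h1 : (x - y) * w = 0 := by
        have : x * w = y * w := hxy
        rw [sub_mul, this, sub_self]
      obtain ⟨z, _, hz⟩ := hinv (x - y) (Δ.sub_mem hx hy) (sub_ne_zero.mpr hne)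
      have h2 := hz w hwW
      rw [h1, mul_zero] at h2
      rw [← h2] at hwU
      exact hwU U.zero_mem
    have hVcard : finrank K V = finrank K Δ := by
      have hinj' : Function.Injective ((LinearMap.mulRight K w).domRestrict Δ) := by
        intro x y hxy
        exact Subtype.ext (hinj x.2 y.2 hxy)
      have h1 := LinearMap.finrank_range_of_inj hinj'
      rw [LinearMap.range_domRestrict] at h1
      exact h1
    have hdisj : Disjoint U V := by
      rw [Submodule.disjoint_def]
      rintro _ hxU ⟨x, hx, rfl⟩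
      by_contra hne
      have hx0 : x ≠ 0 := by
        rintro rfl
        apply hne; simp
      obtain ⟨z, hzΔ, hz⟩ := hinv x hx hx0
      have h1 := hU z hzΔ _ hxU
      rw [LinearMap.mulRight_apply, hz w hwW] at h1
      exact hwU h1
    have hfr : finrank K (U ⊔ V : Submodule K A) = finrank K U + finrank K Δ := by
      have := Submodule.finrank_sup_add_finrank_inf_eq U V
      rw [hdisj.eq_bot, finrank_bot, add_zero, hVcard] at this
      exact this
    have hVW : V ≤ W := by
      rintro _ ⟨x, hx, rfl⟩
      exact hW x hx w hwW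
    have h3 : finrank K (U ⊔ V : Submodule K A) ≤ n := by
      apply hmax
      · exact Submodule.finrank_mono (sup_le hUW hVW)
      · refine ⟨U ⊔ V, sup_le hUW hVW, ?_, ?_, rfl⟩
        · intro x hx u hu
          rw [Submodule.mem_sup] at hu
          obtain ⟨a, ha, b, ⟨d, hd, rfl⟩, rfl⟩ := hu
          rw [mul_add]
          apply Submodule.add_mem_sup (hU x hx a ha)
          exact ⟨x * d, hmul x hx d hd, by simp [mul_assoc]⟩
        · rw [hfr]; exact dvd_add hdvd (dvd_refl _)
    rw [hfr, hUn] at h3
    omega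

end Pool.MP_9ebf7f_al.Sol
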