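import Pool.Agent.Lib.MP_9ebf7f_al.Final
import Pool.Agent.Lib.Burnside.Burnside

/-!
# Solvability for fields with few roots of unity
-/

set_option autoImplicit false

namespace Pool.MP_9ebf7f_al.Sol

open Subgroup
open scoped commutatorElement

/-- a finite perfect `{p,q}`-group is trivial (Burnside) -/
lemma perfect_pq {G : Type*} [Group G] [Finite G] {H : Subgroup G} (hH : ⁅H, H⁆ = H) (p q : ℕ)
    (hpq : ∀ r, r.Prime → r ∣ Nat.card H → r = p ∨ r = q) : H = ⊥ := by
  by_cases hp : p.Prime
  · by_cases hq : q.Prime
    · -- the main case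
      obtain ⟨a, m, hm, hHm⟩ := Nat.exists_eq_pow_mul_and_not_dvd (Nat.card_pos (α := H)).ne' p
        hp.one_lt.ne'
      have hm0 : m ≠ 0 := by
        rintro rfl
        exact hm (dvd_zero p)
      have hmq : m = q ^ m.primeFactorsList.length := by
        apply Nat.eq_prime_pow_of_unique_prime_dvd hm0
        intro r hr hrm
        rcases hpq r hr (hHm ▸ hrm.mul_left _) with h | h
        · exact absurd (h ▸ hrm) hm
        · exact h
      have hsol : Group.IsSolvable H :=
        Pool.Burnside.burnside hp hq (Nat.card H) H rfl ⟨a, m.primeFactorsList.length, by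
          rw [← hmq]; exact hHm⟩
      have hcomm : _root_.commutator H = ⊤ := by
        have := map_subtype_commutator H
        rw [hH] at this
        apply Subgroup.map_injective H.subtype_injective
        rw [this, ← MonoidHom.range_eq_map, Subgroup.range_subtype]
      have h1 : ∀ n, derivedSeries H n = ⊤ := by
        intro n
        induction n with
        | zero => rfl
        | succ n ih => rw [derivedSeries_succ, ih]; exact hcomm
      obtain ⟨n, hn⟩ := hsol.solvable
      rw [h1 n] at hn
      rw [← Subgroup.card_eq_one]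
      have : Subsingleton H :=
        (Subgroup.subsingleton_iff (G := H)).mp (subsingleton_of_bot_eq_top hn.symm)
      exact Nat.card_of_subsingleton 1
    · apply perfect_pgroup hH p
      intro r hr hrd
      rcases hpq r hr hrd with h | h
      · exact h
      · exact absurd (h ▸ hr) hq
  · apply perfect_pgroup hH q
    intro r hr hrd
    rcases hpq r hr hrd with h | h
    · exact absurd (h ▸ hr) hp
    · exact h

namespace TGA

variable {K G A : Type*} [Field K] [Group G] [Ring A] [Algebra K A] (T : TGA K G A)

include T in
theorem solvable_two [Finite G] [IsSimpleRing A] (p p' : ℕ)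
    (hp : ∀ q : ℕ, q.Prime → q ∣ Nat.card G → q ≠ p → q ≠ p' →
      (¬ ∃ ζ : K, IsPrimitiveRoot ζ q) ∨ (∃ Q : Sylow q G, IsCyclic Q)) :
    Group.IsSolvable G := by
  obtain ⟨H, hN, hH, hsol⟩ := exists_perfect_residual G
  apply hsol
  apply perfect_pq hH p p'
  intro q hq hqd
  by_contra hqp
  push Not at hqp
  have : Fact q.Prime := ⟨hq⟩
  obtain ⟨_, h2, h3⟩ := T.perfect_normal H hN hH hq hqd
  have hqG : q ∣ Nat.card G := hqd.trans (Subgroup.card_subgroup_dvd_card H)
  rcases hp q hq hqG hqp.1 hqp.2 with h | ⟨Q, hQ⟩
  · exact h h2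
  · obtain ⟨P⟩ : Nonempty (Sylow q H) := inferInstance
    apply h3 P
    have hP : IsPGroup q ((P : Subgroup H).map H.subtype) := P.2.map _
    obtain ⟨R, hR⟩ := hP.exists_le_sylow
    have hRc : IsCyclic R := by
      have e := R.equiv Q
      exact isCyclic_of_surjective e.symm e.symm.surjective
    have hRc' : IsCyclic (R : Subgroup G) := hRc
    let φ : (P : Subgroup H) →* (R : Subgroup G) :=
      ((H.subtype).comp (P : Subgroup H).subtype).codRestrict (R : Subgroup G) (by
        intro y
        apply hR
        exact ⟨y.1, y.2, rfl⟩)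
    have hφ : Function.Injective φ := by
      intro y y' h
      have h4 : ((y.1 : H) : G) = ((y'.1 : H) : G) :=
        congrArg (fun r : (R : Subgroup G) => (r : G)) h
      exact Subtype.ext (Subtype.ext h4)
    exact isCyclic_of_injective φ hφ

end TGA

end Pool.MP_9ebf7f_al.Sol
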