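import Pool.Agent.Lib.MP_9ebf7f_al.GroupPart

/-!
# Group theory for chief factors: indices, perfect subgroups, central extensions
-/

set_option autoImplicit false

namespace Pool.MP_9ebf7f_al.Sol

open Subgroup
open scoped commutatorElement

section index

variable {G : Type*} [Group G]

lemma relIndex_eq_of_mul {H P L : Subgroup G} (hP : P ≤ L) (h : ∀ g ∈ L, ∃ p ∈ P, p⁻¹ * g ∈ H) :
    H.relIndex L = H.relIndex P := by
  unfold relIndex Subgroup.index
  symm
  apply Nat.card_congr
  refine Equiv.ofBijective (quotientSubgroupOfEmbeddingOfLE H hP)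
    ⟨(quotientSubgroupOfEmbeddingOfLE H hP).injective, ?_⟩
  intro x
  induction x using QuotientGroup.induction_on with
  | H g =>
    obtain ⟨p, hp, hpg⟩ := h g.1 g.2
    refine ⟨QuotientGroup.mk ⟨p, hp⟩, ?_⟩
    rw [quotientSubgroupOfEmbeddingOfLE_apply_mk]
    apply QuotientGroup.eq.mpr
    rw [mem_subgroupOf]
    exact hpg

lemma relIndex_dvd_index_of_normal' (H K : Subgroup G) [K.Normal] : H.relIndex K ∣ H.index := by
  have h1 : H.relIndex (K ⊔ H) = H.relIndex K := by
    apply relIndex_eq_of_mul le_sup_left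
    intro g hg
    rw [← SetLike.mem_coe, normal_mul] at hg
    obtain ⟨k, hk, h, hh, rfl⟩ := hg
    exact ⟨k, hk, by simpa using hh⟩
  rw [← h1]
  exact relIndex_dvd_index_of_le le_sup_right

lemma relIndex_dvd_of_normal' (H : Subgroup G) {K L : Subgroup G} (hKL : K ≤ L)
    (hn : (K.subgroupOf L).Normal) : H.relIndex K ∣ H.relIndex L := by
  rw [← relIndex_subgroupOf hKL]
  exact relIndex_dvd_index_of_normal' _ _

lemma relIndex_map_dvd {G' : Type*} [Group G'] (f : G →* G') {H K : Subgroup G} (hHK : H ≤ K) :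
    (H.map f).relIndex (K.map f) ∣ H.relIndex K := by
  rw [relIndex_map_map]
  have h1 : (H ⊔ f.ker).relIndex (K ⊔ f.ker) = (H ⊔ f.ker).relIndex K := by
    apply relIndex_eq_of_mul le_sup_left
    intro g hg
    rw [← SetLike.mem_coe, mul_normal] at hg
    obtain ⟨k, hk, h, hh, rfl⟩ := hg
    exact ⟨k, hk, by simpa using (le_sup_right : f.ker ≤ H ⊔ f.ker) hh⟩
  rw [h1]
  exact relIndex_dvd_of_le_left K le_sup_left

lemma mem_of_pow_mem {Q L : Subgroup G} (hL : L ≤ normalizer (Q : Set G)) {q : ℕ} (hq : q.Prime)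
    (hidx : ¬ q ∣ Q.relIndex L) {n : G} (hn : n ∈ L) {k : ℕ} (h : n ^ q ^ k ∈ Q) : n ∈ Q := by
  have hN : (Q.subgroupOf L).Normal := by
    refine ⟨fun x hx g => ?_⟩
    rw [mem_subgroupOf] at hx ⊢
    exact (mem_normalizer_iff.mp (hL g.2) x).mp hx
  have h1 : (QuotientGroup.mk ⟨n, hn⟩ : L ⧸ Q.subgroupOf L) ^ q ^ k = 1 := by
    rw [← QuotientGroup.mk_pow, QuotientGroup.eq_one_iff, mem_subgroupOf]
    exact h
  have h2 : orderOf (QuotientGroup.mk ⟨n, hn⟩ : L ⧸ Q.subgroupOf L) ∣ Q.relIndex L :=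
    orderOf_dvd_natCard _
  have h3 := orderOf_dvd_of_pow_eq_one h1
  have h4 : Nat.Coprime (q ^ k) (Q.relIndex L) :=
    Nat.Coprime.pow_left k ((Nat.Prime.coprime_iff_not_dvd hq).mpr hidx)
  have h5 : orderOf (QuotientGroup.mk ⟨n, hn⟩ : L ⧸ Q.subgroupOf L) = 1 :=
    Nat.eq_one_of_dvd_coprimes h4 h3 h2
  rw [orderOf_eq_one_iff, QuotientGroup.eq_one_iff, mem_subgroupOf] at h5
  exact h5

lemma conj_mem_of_sylow [Finite G] {q : ℕ} [hq : Fact q.Prime] {P N : Subgroup G}
    (hP : IsPGroup q P) (hidx : ¬ q ∣ P.relIndex N) {n : G} (hn : n ∈ N) {k : ℕ}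
    (h : n ^ q ^ k = 1) : ∃ g ∈ N, g * n * g⁻¹ ∈ P := by
  have hP' : IsPGroup q (P.subgroupOf N) := hP.comap_of_injective N.subtype N.subtype_injective
  let S : Sylow q N := hP'.toSylow hidx
  have hz : IsPGroup q (zpowers (⟨n, hn⟩ : N)) := by
    rintro ⟨x, hx⟩
    obtain ⟨j, rfl⟩ := mem_zpowers_iff.mp hx
    refine ⟨k, ?_⟩
    apply Subtype.ext
    apply Subtype.ext
    change (n ^ j) ^ q ^ k = 1
    rw [← zpow_natCast, ← zpow_mul, mul_comm, zpow_mul, zpow_natCast, h, one_zpow]
  obtain ⟨R, hR⟩ := hz.exists_le_sylow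
  obtain ⟨g, hg⟩ := MulAction.exists_smul_eq N R S
  refine ⟨g, g.2, ?_⟩
  have h1 : (⟨n, hn⟩ : N) ∈ R := hR (mem_zpowers _)
  have h2 : g * ⟨n, hn⟩ * g⁻¹ ∈ S := by
    rw [← hg]
    exact ⟨⟨n, hn⟩, h1, rfl⟩
  exact h2

end index

section dser

variable {G : Type*} [Group G]

/-- derived series of a subgroup -/
def dser (V : Subgroup G) : ℕ → Subgroup G
  | 0 => V
  | n + 1 => ⁅dser V n, dser V n⁆

lemma dser_succ (V : Subgroup G) (n : ℕ) : dser V (n + 1) = ⁅dser V n, dser V n⁆ := rfl

lemma dser_anti (V : Subgroup G) : Antitone (dser V) :=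
  antitone_nat_of_succ_le (fun _ => commutator_le_self _)

lemma dser_map {G' : Type*} [Group G'] (f : G →* G') (V : Subgroup G) (n : ℕ) :
    (dser V n).map f = dser (V.map f) n := by
  induction n with
  | zero => rfl
  | succ n ih => rw [dser_succ, dser_succ, map_commutator, ih]

lemma dser_perfect {V : Subgroup G} (hV : ⁅V, V⁆ = V) (n : ℕ) : dser V n = V := by
  induction n with
  | zero => rfl
  | succ n ih => rw [dser_succ, ih, hV]

lemma dser_stable {V : Subgroup G} (k : ℕ) (hfin : Finite (dser V k)) :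
    ∃ m, k ≤ m ∧ ⁅dser V m, dser V m⁆ = dser V m := by
  obtain ⟨m, n, hne, heq⟩ := Finite.exists_ne_map_eq_of_infinite
    (fun i : ℕ => (dser V (k + i)).subgroupOf (dser V k))
  have key : ∀ m n : ℕ, m < n → (dser V (k + m)).subgroupOf (dser V k) =
      (dser V (k + n)).subgroupOf (dser V k) → ∃ m, k ≤ m ∧ ⁅dser V m, dser V m⁆ = dser V m := by
    intro m n hmn heq
    refine ⟨k + m, Nat.le_add_right _ _, ?_⟩
    have h1 : dser V (k + m) = dser V (k + n) := by
      have h2 := subgroupOf_inj.mp heq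
      rwa [inf_eq_left.mpr (dser_anti V (Nat.le_add_right k m)),
        inf_eq_left.mpr (dser_anti V (Nat.le_add_right k n))] at h2
    rw [← dser_succ]
    apply le_antisymm (dser_anti V (Nat.le_succ _))
    rw [h1]
    exact dser_anti V (by omega)
  rcases lt_or_gt_of_ne hne with h | h
  · exact key m n h heq
  · exact key n m h heq.symm

/-- perfect finite subgroups of central extensions -/
theorem exists_perfect_finite {V C : Subgroup G} (hC : ∀ c ∈ C, ∀ v ∈ V, c * v = v * c)
    (hCV : C ≤ V) (hfin : C.relIndex V ≠ 0) :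
    ∃ D : Subgroup G, D ≤ V ∧ Finite D ∧ ⁅D, D⁆ = D ∧
      (∀ g, V.map (MulAut.conj g).toMonoidHom = V → D.map (MulAut.conj g).toMonoidHom = D) ∧
      (∀ v ∈ V, ∀ d ∈ D, v * d * v⁻¹ ∈ D) ∧
      ∀ {G' : Type} [Group G'] (ρ : G →* G'), ⁅V.map ρ, V.map ρ⁆ = V.map ρ →
        D.map ρ = V.map ρ := by
  have hle : C.subgroupOf V ≤ center V := by
    intro c hc
    rw [mem_subgroupOf] at hc
    rw [mem_center_iff]
    intro v
    exact Subtype.ext (hC c hc v v.2).symm
  have hidx : (center V).index ≠ 0 := by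
    intro h0
    have := index_dvd_of_le hle
    rw [h0] at this
    exact hfin (Nat.eq_zero_of_zero_dvd this)
  have : Finite (V ⧸ center V) := Nat.finite_of_card_ne_zero hidx
  have hfc : Finite (_root_.commutator V) :=
    finite_commutator (QuotientGroup.mk' (center V)) (by rw [QuotientGroup.ker_mk'])
  have h1 : Finite (dser V 1) := by
    have h2 : dser V 1 = (_root_.commutator V).map V.subtype := by
      rw [map_subtype_commutator]; rfl
    rw [h2]
    exact (equivMapOfInjective _ V.subtype V.subtype_injective).toEquiv.finite_iff.mp hfc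
  obtain ⟨m, hm, hD⟩ := dser_stable 1 h1
  have hle' : dser V m ≤ V := dser_anti V (Nat.zero_le m)
  have hinv : ∀ g, V.map (MulAut.conj g).toMonoidHom = V →
      (dser V m).map (MulAut.conj g).toMonoidHom = dser V m := by
    intro g hg
    rw [dser_map, hg]
  refine ⟨dser V m, hle', ?_, hD, hinv, ?_, ?_⟩
  · exact Finite.of_injective _ (inclusion_injective (dser_anti V hm))
  · intro v hv d hd
    have h3 : V.map (MulAut.conj v).toMonoidHom = V := by
      apply le_antisymm
      · rintro _ ⟨x, hx, rfl⟩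
        exact V.mul_mem (V.mul_mem hv hx) (V.inv_mem hv)
      · intro x hx
        refine ⟨v⁻¹ * x * v, V.mul_mem (V.mul_mem (V.inv_mem hv) hx) hv, ?_⟩
        simp [mul_assoc]
    have h4 := hinv v h3
    rw [← h4]
    exact ⟨d, hd, rfl⟩
  · intro G' _ ρ hρ
    rw [dser_map, dser_perfect hρ]

end dser

/-- `q` does not divide the order of the kernel of any finite perfect central extension of `S`;
that is, `q` does not divide the order of the Schur multiplier when `S` is perfect. -/
def NoMult (q : ℕ) (S : Type) [Group S] : Prop :=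
  ∀ (E : Type) [Group E] [Finite E], _root_.commutator E = ⊤ → ∀ f : E →* S,
    Function.Surjective f → f.ker ≤ center E → ¬ q ∣ Nat.card f.ker

/-- `S` has no proper subgroup of index a power of `q`. -/
def NoIdx (q : ℕ) (S : Type) [Group S] : Prop :=
  ∀ (H : Subgroup S) (k : ℕ), H.index = q ^ k → H = ⊤

lemma NoMult.of_equiv {q : ℕ} {S S' : Type} [Group S] [Group S'] (e : S ≃* S') (h : NoMult q S) :
    NoMult q S' := by
  intro E _ _ hE f hf hker
  have h1 : (e.symm.toMonoidHom.comp f).ker = f.ker := by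
    ext x
    rw [MonoidHom.mem_ker, MonoidHom.mem_ker]
    simp
  have h2 := h E hE (e.symm.toMonoidHom.comp f) (e.symm.surjective.comp hf) (by rwa [h1])
  rwa [h1] at h2

lemma NoIdx.of_equiv {q : ℕ} {S S' : Type} [Group S] [Group S'] (e : S ≃* S') (h : NoIdx q S) :
    NoIdx q S' := by
  intro H k hk
  have h1 : (H.comap e.toMonoidHom) = ⊤ := by
    apply h _ k
    rw [index_comap_of_surjective _ (f := e.toMonoidHom) e.surjective, hk]
  rw [eq_top_iff]
  intro x _
  have h2 : e.symm x ∈ H.comap e.toMonoidHom := by rw [h1]; trivial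
  rw [mem_comap] at h2
  simpa using h2

/-- Multiplier of a product. -/
theorem noMult_of_family {J : Type} [Group J] {q : ℕ} [hq : Fact q.Prime]
    (𝒮 : Set (Subgroup J)) (hn : ∀ X ∈ 𝒮, X.Normal) (hgen : sSup 𝒮 = ⊤)
    (hcomm : ∀ X ∈ 𝒮, ∀ Y ∈ 𝒮, X ≠ Y → ∀ x ∈ X, ∀ y ∈ Y, x * y = y * x)
    (hperf : ∀ X ∈ 𝒮, ⁅X, X⁆ = X) (hcen : ∀ X ∈ 𝒮, ∀ x ∈ X, (∀ y ∈ X, x * y = y * x) → x = 1)
    (hmult : ∀ X ∈ 𝒮, NoMult q X) : NoMult q J := by
  classical
  intro E _ _ hE f hf hker
  have hJfin : Finite J := Finite.of_surjective f hf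
  have h𝒮fin : 𝒮.Finite := Set.toFinite 𝒮
  -- the kernels of the components
  have hkerX : ∀ X ∈ 𝒮, ∃ c, ¬ q ∣ c ∧ ∀ a ∈ cov f X, f a = 1 → a ^ c = 1 := by
    intro X hX
    have := hn X hX
    have hmap : (cov f X).map f = X := cov_map f hf (hperf X hX)
    have hcp := cov_perfect f hker hf (hperf X hX)
    let fX : cov f X →* X := (f.comp (cov f X).subtype).codRestrict X (by
      intro x
      have : f x.1 ∈ (cov f X).map f := ⟨x.1, x.2, rfl⟩
      rw [hmap] at this
      exact this)
    have hfX : Function.Surjective fX := by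
      intro h
      have h1 : h.1 ∈ (cov f X).map f := by rw [hmap]; exact h.2
      obtain ⟨x, hx, hxh⟩ := h1
      exact ⟨⟨x, hx⟩, Subtype.ext hxh⟩
    have hcommE : _root_.commutator (cov f X) = ⊤ := by
      have := map_subtype_commutator (cov f X)
      rw [hcp] at this
      apply Subgroup.map_injective (cov f X).subtype_injective
      rw [this, ← MonoidHom.range_eq_map, Subgroup.range_subtype]
    have hkc : fX.ker ≤ center (cov f X) := by
      intro y hy
      rw [MonoidHom.mem_ker] at hy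
      have h1 : f y.1 = 1 := congrArg Subtype.val hy
      have h2 : y.1 ∈ center E := hker h1
      rw [mem_center_iff] at h2 ⊢
      intro w
      exact Subtype.ext (h2 w.1)
    have h3 := hmult X hX (cov f X) hcommE fX hfX hkc
    refine ⟨Nat.card fX.ker, h3, ?_⟩
    intro a ha hfa
    have h4 : (⟨a, ha⟩ : cov f X) ∈ fX.ker := by
      rw [MonoidHom.mem_ker]; exact Subtype.ext hfa
    have h5 : (⟨⟨a, ha⟩, h4⟩ : fX.ker) ^ Nat.card fX.ker = 1 := pow_card_eq_one'
    exact congrArg (fun t : fX.ker => ((t : cov f X) : E)) h5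
  -- the components generate
  have hfinset : ∀ s : Finset (Subgroup J), (↑s ⊆ 𝒮) → (s.sup (cov f)).map f ≤ s.sup id ∧
      (s.sup (cov f)).Normal := by
    intro s
    induction s using Finset.induction_on with
    | empty =>
      intro _
      rw [Finset.sup_empty, Finset.sup_empty]
      exact ⟨by rw [Subgroup.map_bot], inferInstance⟩
    | insert X s hX ih =>
      intro hs
      have hXS : X ∈ 𝒮 := hs (Finset.mem_coe.mpr (Finset.mem_insert_self X s))
      have := hn X hXS
      obtain ⟨ih1, ih2⟩ := ih (fun x hx => hs (Finset.mem_coe.mpr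
        (Finset.mem_insert_of_mem (Finset.mem_coe.mp hx))))
      rw [Finset.sup_insert, Finset.sup_insert, Subgroup.map_sup]
      refine ⟨sup_le_sup ?_ ih1, inferInstance⟩
      rw [cov_map f hf (hperf X hXS)]
      exact le_rfl
  have hker1 : ∀ s : Finset (Subgroup J), (↑s ⊆ 𝒮) → ∀ z ∈ s.sup (cov f), f z = 1 →
      ∃ m, ¬ q ∣ m ∧ z ^ m = 1 := by
    intro s
    induction s using Finset.induction_on with
    | empty =>
      intro _ z hz _
      rw [Finset.sup_empty, mem_bot] at hz
      exact ⟨1, hq.out.not_dvd_one, by rw [hz, one_pow]⟩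
    | insert X s hX ih =>
      intro hs z hz hfz
      have hXS : X ∈ 𝒮 := hs (Finset.mem_coe.mpr (Finset.mem_insert_self X s))
      have hsS : (↑s : Set (Subgroup J)) ⊆ 𝒮 := fun x hx => hs (Finset.mem_coe.mpr
        (Finset.mem_insert_of_mem (Finset.mem_coe.mp hx)))
      have hXn := hn X hXS
      obtain ⟨hmaps, hnorm⟩ := hfinset s hsS
      rw [Finset.sup_insert, ← SetLike.mem_coe, normal_mul] at hz
      obtain ⟨a, ha, b, hb, rfl⟩ := hz
      simp only at hfz ⊢
      have hfa : f a ∈ X := by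
        have : f a ∈ (cov f X).map f := ⟨a, ha, rfl⟩
        rwa [cov_map f hf (hperf X hXS)] at this
      have hfb : f b ∈ s.sup id := hmaps ⟨b, hb, rfl⟩
      have hcent : s.sup id ≤ centralizer (X : Set J) := by
        apply Finset.sup_le
        intro Y hY y hy
        rw [mem_centralizer_iff]
        intro x hx
        exact hcomm X hXS Y (hsS hY) (fun h => hX (h ▸ hY)) x hx y hy
      have hfb' := hcent hfb
      rw [mem_centralizer_iff] at hfb'
      have hfa1 : f a = 1 := by
        apply hcen X hXS _ hfa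
        intro y hy
        rw [map_mul] at hfz
        have h6 : f a = (f b)⁻¹ := eq_inv_of_mul_eq_one_left hfz
        rw [h6]
        have h7 := hfb' y hy
        rw [inv_mul_eq_iff_eq_mul, ← mul_assoc, ← h7, mul_inv_cancel_right]
      have hfb1 : f b = 1 := by rw [map_mul, hfa1, one_mul] at hfz; exact hfz
      obtain ⟨c, hc, hac⟩ := hkerX X hXS
      obtain ⟨m, hm, hbm⟩ := ih hsS b hb hfb1
      refine ⟨c * m, ?_, ?_⟩
      · intro h
        rcases (Nat.Prime.dvd_mul hq.out).mp h with h | h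
        · exact hc h
        · exact hm h
      · have hac' := hac a ha hfa1
        have hcomm' : Commute a b := by
          have h8 : a ∈ center E := hker hfa1
          rw [mem_center_iff] at h8
          exact (h8 b).symm
        rw [hcomm'.mul_pow, pow_mul, hac', one_pow, one_mul, mul_comm c m, pow_mul, hbm, one_pow]
  -- everything
  obtain ⟨s0, hs0⟩ : ∃ s0 : Finset (Subgroup J), ↑s0 = 𝒮 := ⟨h𝒮fin.toFinset, by simp⟩
  have htop : s0.sup (cov f) = ⊤ := by
    have h9 : (s0.sup (cov f)).map f = ⊤ := by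
      rw [eq_top_iff, ← hgen]
      apply sSup_le
      intro X hX
      have hX' : X ∈ s0 := by rw [← Finset.mem_coe, hs0]; exact hX
      have := hn X hX
      rw [← cov_map f hf (hperf X hX)]
      exact Subgroup.map_mono (Finset.le_sup (f := cov f) hX')
    rw [eq_top_iff, ← hE, _root_.commutator_def, commutator_le]
    intro x _ y _
    have h10 : ∀ x : E, ∃ x' ∈ s0.sup (cov f), f x = f x' := by
      intro x
      have : f x ∈ (s0.sup (cov f)).map f := by rw [h9]; trivial
      obtain ⟨x', hx', h⟩ := this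
      exact ⟨x', hx', h.symm⟩
    obtain ⟨x', hx', hxx⟩ := h10 x
    obtain ⟨y', hy', hyy⟩ := h10 y
    rw [comm_of_ker f hker hxx hyy, commutatorElement_def]
    exact mul_mem (mul_mem (mul_mem hx' hy') (inv_mem hx')) (inv_mem hy')
  intro hdvd
  obtain ⟨z, hz⟩ := exists_prime_orderOf_dvd_card' (G := f.ker) q hdvd
  obtain ⟨m, hm, hzm⟩ := hker1 s0 (by rw [hs0]) z.1 (by rw [htop]; trivial) z.2
  apply hm
  rw [← hz]
  apply orderOf_dvd_of_pow_eq_one
  exact Subtype.ext hzm

/-- Passage to extensions whose kernel is a central group followed by a `q'`-group. -/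
theorem not_dvd_of_noMult {D J : Type} [Group D] [Finite D] [Group J] {q : ℕ} [hq : Fact q.Prime]
    (hD : _root_.commutator D = ⊤) (ρ : D →* J) (hρ : Function.Surjective ρ) (Z : Subgroup D)
    (hZ : Z ≤ center D) (hZk : Z ≤ ρ.ker) (hpow : ∀ w ∈ ρ.ker, w ^ q ∈ Z → w ∈ Z)
    (hJ : NoMult q J) : ¬ q ∣ Nat.card Z := by
  intro hdvd
  have hZn : Z.Normal := ⟨fun z hz g => by
    have h1 := hZ hz
    rw [mem_center_iff] at h1
    rw [h1 g, mul_inv_cancel_right]; exact hz⟩
  obtain ⟨W, hW⟩ : ∃ W, W = ρ.ker := ⟨_, rfl⟩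
  have hWn : W.Normal := by rw [hW]; infer_instance
  rw [← hW] at hZk hpow
  obtain ⟨a, m, hm, hWm⟩ := Nat.exists_eq_pow_mul_and_not_dvd (Nat.card_pos (α := W)).ne' q
    hq.out.one_lt.ne'
  -- powers
  have hpow' : ∀ k, ∀ w ∈ W, w ^ q ^ k ∈ Z → w ∈ Z := by
    intro k
    induction k with
    | zero => intro w _ h; simpa using h
    | succ k ih =>
      intro w hw h
      apply ih w hw
      apply hpow _ (W.pow_mem hw _)
      rw [← pow_mul, ← pow_succ]
      exact h
  have hidx : ¬ q ∣ (Z.subgroupOf W).index := by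
    intro h
    have hn' : (Z.subgroupOf W).Normal := inferInstance
    obtain ⟨x, hx⟩ := exists_prime_orderOf_dvd_card' (G := W ⧸ Z.subgroupOf W) q h
    induction x using QuotientGroup.induction_on with
    | H w =>
      have h1 : (QuotientGroup.mk w : W ⧸ Z.subgroupOf W) ^ q = 1 := by
        rw [← hx]; exact pow_orderOf_eq_one _
      rw [← QuotientGroup.mk_pow, QuotientGroup.eq_one_iff, mem_subgroupOf] at h1
      have h2 := hpow w.1 w.2 h1
      have h3 : (QuotientGroup.mk w : W ⧸ Z.subgroupOf W) = 1 := by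
        rw [QuotientGroup.eq_one_iff, mem_subgroupOf]; exact h2
      rw [h3, orderOf_one] at hx
      exact hq.out.one_lt.ne hx
  have hcle : Z.subgroupOf W ≤ center W := by
    intro z hz
    rw [mem_subgroupOf] at hz
    have h1 := hZ hz
    rw [mem_center_iff] at h1 ⊢
    intro w
    exact Subtype.ext (h1 w.1)
  obtain ⟨t, ht⟩ : (center W).index ∣ m := by
    have h1 : (center W).index ∣ q ^ a * m := by
      rw [← hWm]; exact index_dvd_card _
    have h2 : Nat.Coprime (center W).index (q ^ a) := by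
      apply Nat.Coprime.pow_right
      apply Nat.Coprime.symm
      rw [Nat.Prime.coprime_iff_not_dvd hq.out]
      intro h3
      exact hidx (h3.trans (index_dvd_of_le hcle))
    exact h2.dvd_of_dvd_mul_left h1
  have hmulW : ∀ x y : W, (x * y) ^ m = x ^ m * y ^ m := by
    intro x y
    have h1 := map_mul (MonoidHom.transferCenterPow W) x y
    have h2 : (x * y) ^ (center W).index = x ^ (center W).index * y ^ (center W).index := by
      have := congrArg Subtype.val h1
      rw [Subgroup.coe_mul, MonoidHom.transferCenterPow_apply, MonoidHom.transferCenterPow_apply,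
        MonoidHom.transferCenterPow_apply] at this
      exact this
    have h3 : x ^ (center W).index ∈ center W := by
      rw [← MonoidHom.transferCenterPow_apply]; exact Subtype.property _
    have h4 : Commute (x ^ (center W).index) (y ^ (center W).index) := by
      rw [mem_center_iff] at h3
      exact (h3 _).symm
    rw [ht, pow_mul, h2, h4.mul_pow, ← pow_mul, ← pow_mul]
  have hmul : ∀ x ∈ W, ∀ y ∈ W, (x * y) ^ m = x ^ m * y ^ m := by
    intro x hx y hy
    exact congrArg Subtype.val (hmulW ⟨x, hx⟩ ⟨y, hy⟩)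
  have hmZ : ∀ x ∈ W, x ^ m ∈ Z := by
    intro x hx
    apply hpow' a _ (W.pow_mem hx m)
    rw [← pow_mul, mul_comm, ← hWm]
    have : (⟨x, hx⟩ : W) ^ Nat.card W = 1 := pow_card_eq_one'
    have h2 : x ^ Nat.card W = 1 := congrArg Subtype.val this
    rw [h2]; exact Z.one_mem
  let Y : Subgroup D :=
    { carrier := {x | x ∈ W ∧ x ^ m = 1}
      one_mem' := ⟨W.one_mem, one_pow m⟩
      mul_mem' := fun ha hb => ⟨W.mul_mem ha.1 hb.1, by
        rw [hmul _ ha.1 _ hb.1, ha.2, hb.2, one_mul]⟩
      inv_mem' := fun ha => ⟨W.inv_mem ha.1, by rw [inv_pow, ha.2, inv_one]⟩ }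
  have hY : ∀ x, x ∈ Y ↔ x ∈ W ∧ x ^ m = 1 := fun x => Iff.rfl
  have hYn : Y.Normal := ⟨fun x hx g => by
    rw [hY] at hx ⊢
    refine ⟨hWn.conj_mem x hx.1 g, ?_⟩
    rw [conj_pow, hx.2, mul_one, mul_inv_cancel]⟩
  have hYle : Y ≤ ρ.ker := by rw [← hW]; exact fun x hx => hx.1
  let f : D ⧸ Y →* J := QuotientGroup.lift Y ρ hYle
  have hf : Function.Surjective f := by
    intro j
    obtain ⟨d, hd⟩ := hρ j
    exact ⟨QuotientGroup.mk d, hd⟩
  have hfker : ∀ d : D, (QuotientGroup.mk d : D ⧸ Y) ∈ f.ker ↔ d ∈ W := by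
    intro d
    rw [MonoidHom.mem_ker, hW, MonoidHom.mem_ker]
    rfl
  have hcen : f.ker ≤ center (D ⧸ Y) := by
    intro x hx
    induction x using QuotientGroup.induction_on with
    | H w =>
      rw [hfker] at hx
      rw [mem_center_iff]
      intro g
      induction g using QuotientGroup.induction_on with
      | H d =>
        rw [← QuotientGroup.mk_mul, ← QuotientGroup.mk_mul]
        apply QuotientGroup.eq.mpr
        rw [hY]
        have e1 : (d * w)⁻¹ * (w * d) = w⁻¹ * (d⁻¹ * w * d) := by group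
        have h1 : d⁻¹ * w * d ∈ W := by
          have := hWn.conj_mem w hx d⁻¹
          rwa [inv_inv] at this
        rw [e1]
        refine ⟨W.mul_mem (W.inv_mem hx) h1, ?_⟩
        rw [hmul _ (W.inv_mem hx) _ h1]
        have h2 : (d⁻¹ * w * d) ^ m = w ^ m := by
          have h3 := conj_pow (i := m) (a := d⁻¹) (b := w)
          rw [inv_inv] at h3
          rw [h3]
          have h4 := hZ (hmZ w hx)
          rw [mem_center_iff] at h4
          rw [h4 d⁻¹, inv_mul_cancel_right]
        rw [h2, inv_pow, inv_mul_cancel]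
  have hperf : _root_.commutator (D ⧸ Y) = ⊤ := by
    have h1 := congrArg (Subgroup.map (QuotientGroup.mk' Y)) hD
    rw [_root_.commutator_def, map_commutator,
      Subgroup.map_top_of_surjective _ (QuotientGroup.mk'_surjective Y)] at h1
    rw [_root_.commutator_def]; exact h1
  apply hJ (D ⧸ Y) hperf f hf hcen
  obtain ⟨z, hz⟩ := exists_prime_orderOf_dvd_card' (G := Z) q hdvd
  have hzW : (z : D) ∈ W := hZk z.2
  have hzq : (z : D) ^ q = 1 := by
    have : z ^ q = 1 := by rw [← hz]; exact pow_orderOf_eq_one _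
    exact congrArg Subtype.val this
  have hord : orderOf (QuotientGroup.mk (z : D) : D ⧸ Y) = q := by
    apply orderOf_eq_prime
    · rw [← QuotientGroup.mk_pow, hzq]; rfl
    · intro h1
      rw [QuotientGroup.eq_one_iff, hY] at h1
      apply hm
      rw [← hz, ← Subgroup.orderOf_coe]
      exact orderOf_dvd_of_pow_eq_one h1.2
  have hmem : (QuotientGroup.mk (z : D) : D ⧸ Y) ∈ f.ker := (hfker _).mpr hzW
  have h5 : orderOf (⟨_, hmem⟩ : f.ker) = q := by
    rw [← Subgroup.orderOf_coe]; exact hord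
  rw [← h5]
  exact orderOf_dvd_natCard _

end Pool.MP_9ebf7f_al.Sol
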