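import Mathlib

/-!
# Group theory: central extensions of finite perfect groups and transfer
-/

set_option autoImplicit false

namespace Pool.MP_9ebf7f_al.Sol

open Subgroup
open scoped commutatorElement

section ext

variable {Γ G : Type*} [Group Γ] [Group G] (π : Γ →* G)

lemma comm_of_ker (hc : π.ker ≤ center Γ) {x x' y y' : Γ} (hx : π x = π x') (hy : π y = π y') :
    ⁅x, y⁆ = ⁅x', y'⁆ := by
  have h1 : x'⁻¹ * x ∈ center Γ := hc (by rw [MonoidHom.mem_ker]; simp [hx])
  have h2 : y'⁻¹ * y ∈ center Γ := hc (by rw [MonoidHom.mem_ker]; simp [hy])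
  obtain ⟨z, hz⟩ : ∃ z, z = x'⁻¹ * x := ⟨_, rfl⟩
  obtain ⟨w, hw⟩ : ∃ w, w = y'⁻¹ * y := ⟨_, rfl⟩
  have hxz : x = x' * z := by rw [hz]; group
  have hyw : y = y' * w := by rw [hw]; group
  rw [← hz] at h1
  rw [← hw] at h2
  rw [hxz, hyw, commutatorElement_def, commutatorElement_def]
  rw [mem_center_iff] at h1 h2
  -- x' z y' w z⁻¹ x'⁻¹ w⁻¹ y'⁻¹
  have e1 : x' * z * (y' * w) * (x' * z)⁻¹ * (y' * w)⁻¹ = x' * (z * (y' * w)) * z⁻¹ * x'⁻¹ *
      w⁻¹ * y'⁻¹ := by group
  rw [e1, ← h1 (y' * w)]
  have e2 : x' * (y' * w * z) * z⁻¹ * x'⁻¹ * w⁻¹ * y'⁻¹ = x' * y' * (w * x'⁻¹) * w⁻¹ * y'⁻¹ := by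
    group
  rw [e2, ← h2 x'⁻¹]
  group

lemma finite_commutator (hc : π.ker ≤ center Γ) [Finite G] : Finite (_root_.commutator Γ) := by
  have hfin : (commutatorSet Γ).Finite := by
    have : commutatorSet Γ ⊆ Set.range (fun p : G × G =>
        ⁅(Function.invFun π p.1 : Γ), (Function.invFun π p.2 : Γ)⁆) := by
      rintro _ ⟨x, y, rfl⟩
      refine ⟨(π x, π y), ?_⟩
      apply comm_of_ker π hc
      · exact Function.invFun_eq ⟨x, rfl⟩
      · exact Function.invFun_eq ⟨y, rfl⟩
    exact (Set.finite_range _).subset this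
  have := hfin.to_subtype
  infer_instance

/-- the perfect cover inside `Γ` -/
def cov (H : Subgroup G) : Subgroup Γ := ⁅H.comap π, H.comap π⁆

instance cov_normal (H : Subgroup G) [H.Normal] : (cov π H).Normal := by
  unfold cov; infer_instance

lemma cov_finite (hc : π.ker ≤ center Γ) [Finite G] (H : Subgroup G) : Finite (cov π H) := by
  have := finite_commutator π hc
  have hle : cov π H ≤ _root_.commutator Γ := by
    unfold cov
    rw [_root_.commutator_def]
    exact commutator_mono le_top le_top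
  exact Finite.of_injective _ (inclusion_injective hle)

lemma cov_map (hs : Function.Surjective π) {H : Subgroup G} (hH : ⁅H, H⁆ = H) :
    (cov π H).map π = H := by
  unfold cov
  rw [map_commutator, map_comap_eq_self_of_surjective hs, hH]

lemma cov_perfect (hc : π.ker ≤ center Γ) (hs : Function.Surjective π) {H : Subgroup G}
    (hH : ⁅H, H⁆ = H) : ⁅cov π H, cov π H⁆ = cov π H := by
  apply le_antisymm
  · rw [commutator_le]
    intro x hx y hy
    exact (cov π H).mul_mem ((cov π H).mul_mem ((cov π H).mul_mem hx hy) ((cov π H).inv_mem hx))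
      ((cov π H).inv_mem hy)
  · conv_lhs => unfold cov
    rw [commutator_le]
    intro x hx y hy
    rw [mem_comap] at hx hy
    rw [← cov_map π hs hH] at hx hy
    obtain ⟨x', hx', hxx⟩ := hx
    obtain ⟨y', hy', hyy⟩ := hy
    rw [← comm_of_ker π hc hxx hyy]
    exact commutator_mem_commutator hx' hy'

end ext

/-- In a finite perfect group with a central element of order `q`, the Sylow `q`-subgroups are not
abelian. -/
lemma sylow_not_comm {E : Type*} [Group E] [Finite E] (hE : _root_.commutator E = ⊤) {q : ℕ}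
    [hq : Fact q.Prime] {z : E} (hz : z ∈ center E) (hzq : orderOf z = q) (Q : Sylow q E)
    (hQ : ∀ a b : Q, a * b = b * a) : False := by
  let inst : CommGroup Q := { (inferInstance : Group Q) with mul_comm := hQ }
  let ϕ : (Q : Subgroup E) →* Q := MonoidHom.id _
  have key : ∀ (k : ℕ) (g₀ : E), g₀⁻¹ * z ^ k * g₀ ∈ (Q : Subgroup E) →
      g₀⁻¹ * z ^ k * g₀ = z ^ k := by
    intro k g₀ _
    have h1 : z ^ k ∈ center E := (center E).pow_mem hz k
    rw [mem_center_iff] at h1
    rw [mul_assoc, ← h1 g₀]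
    group
  have h1 : MonoidHom.transfer ϕ z = ϕ ⟨z ^ (Q : Subgroup E).index,
      MonoidHom.transfer_eq_pow_aux z key⟩ := MonoidHom.transfer_eq_pow ϕ z key
  have h2 : MonoidHom.transfer ϕ z = 1 := by
    have h3 : z ∈ _root_.commutator E := by rw [hE]; trivial
    exact (Abelianization.commutator_subset_ker (MonoidHom.transfer ϕ)) h3
  rw [h2] at h1
  have h4 : z ^ (Q : Subgroup E).index = 1 := by
    have := congrArg (Subtype.val) h1
    exact this.symm
  have h5 : q ∣ (Q : Subgroup E).index := by
    have := orderOf_dvd_of_pow_eq_one h4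
    rwa [hzq] at this
  exact Q.not_dvd_index h5

/-- Same conclusion for a central quotient with a cyclic Sylow subgroup. -/
lemma sylow_not_cyclic {E H : Type*} [Group E] [Finite E] [Group H]
    (hE : _root_.commutator E = ⊤) (f : E →* H) (hf : Function.Surjective f)
    (hker : f.ker ≤ center E) {q : ℕ} [hq : Fact q.Prime] {z : E} (hz : z ∈ center E)
    (hzq : orderOf z = q) (P : Sylow q H) : ¬ IsCyclic P := by
  intro hP
  obtain ⟨Q, hQ⟩ := Sylow.mapSurjective_surjective hf q P
  apply sylow_not_comm hE hz hzq Q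
  have hQ' : (Q : Subgroup E).map f = P := by
    rw [← hQ]; rfl
  let g : (Q : Subgroup E) →* (P : Subgroup H) :=
    (f.comp (Q : Subgroup E).subtype).codRestrict (P : Subgroup H) (by
      intro x
      rw [← hQ']
      exact ⟨x.1, x.2, rfl⟩)
  have hg : g.ker ≤ center (Q : Subgroup E) := by
    intro x hx
    rw [MonoidHom.mem_ker] at hx
    have h1 : f x.1 = 1 := congrArg Subtype.val hx
    have h2 : x.1 ∈ center E := hker h1
    rw [mem_center_iff] at h2 ⊢
    intro y
    exact Subtype.ext (h2 y.1)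
  have hP' : IsCyclic (P : Subgroup H) := hP
  exact fun a b => (g.isMulCommutative_of_isCyclic_of_ker_le_center hg).is_comm.comm a b

/-- the derived series of a finite group stabilises at a perfect normal subgroup -/
lemma exists_perfect_residual (G : Type*) [Group G] [Finite G] :
    ∃ H : Subgroup G, H.Normal ∧ ⁅H, H⁆ = H ∧ (H = ⊥ → Group.IsSolvable G) := by
  have hanti : Antitone (derivedSeries G) := derivedSeries_antitone G
  obtain ⟨m, n, hmn, heq⟩ : ∃ m n : ℕ, m < n ∧ derivedSeries G m = derivedSeries G n := by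
    obtain ⟨m, n, hne, heq⟩ := Finite.exists_ne_map_eq_of_infinite (derivedSeries G)
    rcases lt_or_gt_of_ne hne with h | h
    · exact ⟨m, n, h, heq⟩
    · exact ⟨n, m, h, heq.symm⟩
  refine ⟨derivedSeries G m, inferInstance, ?_, ?_⟩
  · have h1 : derivedSeries G (m + 1) ≤ derivedSeries G m := hanti (Nat.le_succ m)
    have h2 : derivedSeries G n ≤ derivedSeries G (m + 1) := hanti hmn
    rw [← heq] at h2
    exact le_antisymm h1 h2
  · intro h
    exact ⟨⟨m, h⟩⟩

/-- a finite perfect `p`-group is trivial -/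
lemma perfect_pgroup {G : Type*} [Group G] [Finite G] {H : Subgroup G} (hH : ⁅H, H⁆ = H) (p : ℕ)
    (hp : ∀ q, q.Prime → q ∣ Nat.card H → q = p) : H = ⊥ := by
  by_contra hne
  have hcard : Nat.card H ≠ 1 := by
    rw [Ne, Subgroup.card_eq_one]; exact hne
  obtain ⟨q, hq, hqd⟩ := Nat.exists_prime_and_dvd hcard
  have hqp := hp q hq hqd
  subst hqp
  have : Fact q.Prime := ⟨hq⟩
  have hpow : ∃ n, Nat.card H = q ^ n := by
    refine ⟨(Nat.card H).primeFactorsList.length, ?_⟩
    apply Nat.eq_prime_pow_of_unique_prime_dvd (Nat.card_pos).ne'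
    intro r hr hrd
    exact hp r hr hrd
  obtain ⟨n, hn⟩ := hpow
  have hPG : IsPGroup q H := IsPGroup.of_card hn
  have hnil : Group.IsNilpotent H := hPG.isNilpotent
  have hsol : Group.IsSolvable H := inferInstance
  have hcomm : _root_.commutator H = ⊤ := by
    have := map_subtype_commutator H
    rw [hH] at this
    apply Subgroup.map_injective H.subtype_injective
    rw [this, ← MonoidHom.range_eq_map, Subgroup.range_subtype]
  have h1 : ∀ n, derivedSeries H n = ⊤ := by
    intro n
    induction n with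
    | zero => rfl
    | succ n ih => rw [derivedSeries_succ, ih]; exact hcomm
  obtain ⟨n, hn⟩ := hsol.solvable
  rw [h1 n] at hn
  apply hne
  rw [← Subgroup.card_eq_one]
  have : Subsingleton H := by
    have := (Subgroup.subsingleton_iff (G := H)).mp (subsingleton_of_bot_eq_top hn.symm)
    exact this
  exact Nat.card_of_subsingleton 1

end Pool.MP_9ebf7f_al.Sol
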