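import Mathlib

/-!
# Ring theory: nilpotent elements and idempotents in simple artinian algebras
-/

set_option autoImplicit false

namespace Pool.MP_9ebf7f_al.Sol

/-- In a von Neumann regular ring a trace function vanishes on nilpotent elements. -/
lemma trace_nilp {A X : Type*} [Ring A] (hreg : ∀ y : A, ∃ y' : A, y * y' * y = y)
    (τ : A → X) (hτ : ∀ x y, τ (x * y) = τ (y * x)) :
    ∀ (n : ℕ) (y : A), y ^ n = 0 → τ y = τ 0 := by
  intro n
  induction n with
  | zero =>
    intro y hy
    rw [pow_zero] at hy
    have : y = 0 := by rw [← mul_one y, hy, mul_zero]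
    rw [this]
  | succ n ih =>
    intro y hy
    rcases Nat.eq_zero_or_pos n with hn | hn
    · subst hn
      rw [zero_add, pow_one] at hy
      rw [hy]
    · obtain ⟨y', hy'⟩ := hreg y
      have hyf : y * (y' * y) = y := by rw [← mul_assoc]; exact hy'
      have h1 : τ y = τ ((y' * y) * y) := by
        conv_lhs => rw [← hyf]
        rw [hτ]
      rw [h1]
      apply ih
      have h2 : ∀ k : ℕ, 0 < k → ((y' * y) * y) ^ k = (y' * y) * y ^ k := by
        intro k hk
        induction k with
        | zero => omega
        | succ k ihk =>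
          rcases Nat.eq_zero_or_pos k with hk0 | hk0
          · subst hk0; simp
          · rw [pow_succ, ihk hk0]
            have h3 : y ^ k * (y' * y) = y ^ k := by
              obtain ⟨j, rfl⟩ := Nat.exists_eq_succ_of_ne_zero hk0.ne'
              rw [Nat.succ_eq_add_one, pow_succ, mul_assoc, hyf]
            calc y' * y * y ^ k * (y' * y * y) = y' * y * (y ^ k * (y' * y)) * y := by
                  noncomm_ring
              _ = y' * y * y ^ (k + 1) := by rw [h3, pow_succ]; noncomm_ring
      rw [h2 n hn, mul_assoc, ← pow_succ', hy, mul_zero]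

section simple

variable (K : Type*) {A : Type*} [Field K] [Ring A] [Algebra K A] [Module.Finite K A]
  [IsSimpleRing A]

include K

omit [IsSimpleRing A] in
lemma artin_of_finite : IsArtinianRing A := IsArtinianRing.of_finite K A

lemma semisimple_of_simple : IsSemisimpleRing A := by
  have : IsArtinianRing A := artin_of_finite K
  exact (isSimpleRing_isArtinianRing_iff.mp ⟨inferInstance, inferInstance⟩).1

/-- A finite dimensional simple algebra is von Neumann regular. -/
lemma regular_of_simple : ∀ y : A, ∃ y' : A, y * y' * y = y := by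
  intro y
  have : IsSemisimpleRing A := semisimple_of_simple K
  obtain ⟨e, he, hI⟩ := IsSemisimpleRing.ideal_eq_span_idempotent (Ideal.span {y})
  have h1 : y ∈ Ideal.span {e} := hI ▸ Ideal.mem_span_singleton_self y
  have h2 : e ∈ Ideal.span {y} := hI ▸ Ideal.mem_span_singleton_self e
  rw [Ideal.mem_span_singleton'] at h1 h2
  obtain ⟨a, ha⟩ := h1
  obtain ⟨y', hy'⟩ := h2
  refine ⟨y', ?_⟩
  rw [mul_assoc, hy', ← ha, mul_assoc, he.eq]

/-- there is a primitive idempotent -/
lemma exists_prim : ∃ f : A, f ≠ 0 ∧ f * f = f ∧ ∀ g : A, g * f = g → g ≠ 0 → ∃ b, b * g = f := by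
  have : IsSemisimpleRing A := semisimple_of_simple K
  obtain ⟨S, hS⟩ := IsSemisimpleModule.exists_simple_submodule A A
  obtain ⟨f, hf, hI⟩ := IsSemisimpleRing.ideal_eq_span_idempotent S
  refine ⟨f, ?_, hf, ?_⟩
  · rintro rfl
    have : S = ⊥ := by rw [hI]; simp
    have hS' := isSimpleModule_iff_isAtom.mp hS
    exact hS'.1 this
  · intro g hg hg0
    have hgS : g ∈ S := by
      rw [hI, Ideal.mem_span_singleton']
      exact ⟨g, hg⟩
    have hle : Ideal.span {g} ≤ S := by
      rw [Ideal.span_le]; simpa using hgS
    have hS' := isSimpleModule_iff_isAtom.mp hS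
    have heq : Ideal.span {g} = S := by
      rcases hS'.le_iff.mp hle with h | h
      · exfalso
        apply hg0
        have : g ∈ Ideal.span {g} := Ideal.mem_span_singleton_self g
        rw [h] at this
        simpa using this
      · exact h
    have hfS : f ∈ Ideal.span {g} := by
      rw [heq, hI]; exact Ideal.mem_span_singleton_self f
    exact Ideal.mem_span_singleton'.mp hfS

omit K [Field K] [Algebra K A] [Module.Finite K A] in
/-- a simple ring is prime -/
lemma prime_of_simple {e f : A} (he : e ≠ 0) (hf : f ≠ 0) : ∃ a : A, e * a * f ≠ 0 := by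
  by_contra hcon
  push Not at hcon
  let J : TwoSidedIdeal A := TwoSidedIdeal.mk' {x | ∀ a, e * a * x = 0}
    (by intro a; simp)
    (by intro x y hx hy a; rw [mul_add, hx a, hy a, add_zero])
    (by intro x hx a; rw [mul_neg, hx a, neg_zero])
    (by intro x y hy a; rw [← mul_assoc, mul_assoc e a x]; exact hy (a * x))
    (by intro x y hx a; rw [← mul_assoc, hx a, zero_mul])
  have hfJ : f ∈ J := by
    rw [TwoSidedIdeal.mem_mk']
    exact hcon
  have h1 : (1 : A) ∈ J := by
    rcases eq_bot_or_eq_top J with h | h
    · rw [h] at hfJ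
      exact absurd (by simpa using hfJ) hf
    · rw [h]; trivial
  rw [TwoSidedIdeal.mem_mk'] at h1
  apply he
  have := h1 1
  simpa using this

/-- The trace function of a simple algebra on idempotents. -/
lemma trace_idem (τ : A →ₗ[K] K) (hτ : ∀ x y, τ (x * y) = τ (y * x)) (f : A) (hf0 : f ≠ 0)
    (hff : f * f = f) (hf : ∀ g : A, g * f = g → g ≠ 0 → ∃ b, b * g = f) :
    ∀ (I : Ideal A) (e : A), e * e = e → Ideal.span {e} = I →
      ∃ r : ℕ, ∀ z : A, (∀ a, z * a = a * z) → τ (e * z) = (r : K) * τ (f * z) := by
  have hart : IsArtinianRing A := artin_of_finite K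
  intro I
  induction I using WellFoundedLT.induction with
  | ind I ih =>
    intro e he hI
    by_cases he0 : e = 0
    · subst he0
      exact ⟨0, fun z _ => by simp⟩
    · obtain ⟨a, ha⟩ := prime_of_simple he0 hf0
      obtain ⟨b, hb⟩ := hf (e * a * f) (by rw [mul_assoc, hff]) ha
      set x := e * a * f with hx
      set y := f * b * e with hy
      have hex : e * x = x := by rw [hx, ← mul_assoc, ← mul_assoc, he]
      have hxf : x * f = x := by rw [hx, mul_assoc, hff]
      have hyx : y * x = f := by
        rw [hy, mul_assoc, hex, mul_assoc, hb, hff]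
      have hye : y * e = y := by rw [hy, mul_assoc, he]
      have hfy : f * y = y := by rw [hy, ← mul_assoc, ← mul_assoc, hff]
      set s := x * y with hs
      have hss : s * s = s := by
        rw [hs, mul_assoc, ← mul_assoc y x y, hyx, hfy]
      have hes : e * s = s := by rw [hs, ← mul_assoc, hex]
      have hse : s * e = s := by rw [hs, mul_assoc, hye]
      have hs0 : s ≠ 0 := by
        intro h
        apply hf0
        have : y * s * x = f := by
          calc y * s * x = (y * x) * (y * x) := by rw [hs]; simp only [mul_assoc]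
            _ = f := by rw [hyx, hff]
        rw [← this, h, mul_zero, zero_mul]
      have he' : (e - s) * (e - s) = e - s := by
        rw [sub_mul, mul_sub, mul_sub, he, hes, hse, hss]; abel
      have hlt : Ideal.span {e - s} < I := by
        rw [← hI]
        refine lt_of_le_of_ne ?_ ?_
        · rw [Ideal.span_singleton_le_iff_mem, Ideal.mem_span_singleton']
          exact ⟨e - s, by rw [sub_mul, he, hse]⟩
        · intro heq
          have h1 : s ∈ Ideal.span {e - s} := by
            rw [heq, Ideal.mem_span_singleton']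
            exact ⟨s, hse⟩
          rw [Ideal.mem_span_singleton'] at h1
          obtain ⟨c, hc⟩ := h1
          apply hs0
          have h2 : s * (e - s) = s := by
            calc s * (e - s) = (c * (e - s)) * (e - s) := by rw [hc]
              _ = s := by rw [mul_assoc, he', hc]
          rw [← h2, mul_sub, hse, hss, sub_self]
      obtain ⟨r, hr⟩ := ih _ hlt (e - s) he' rfl
      refine ⟨r + 1, fun z hz => ?_⟩
      have h1 : τ (e * z) = τ ((e - s) * z) + τ (s * z) := by
        rw [← map_add]; congr 1; rw [sub_mul]; abel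
      have h2 : τ (s * z) = τ (f * z) := by
        rw [hs, mul_assoc, hτ, mul_assoc, hz x, ← mul_assoc, hyx]
      rw [h1, hr z hz, h2]
      push_cast
      ring

/-- For an idempotent `e` the functional `z ↦ τ (e z)` on the centre is a rational multiple of
`z ↦ τ z`. -/
lemma trace_idem' (τ : A →ₗ[K] K) (hτ : ∀ x y, τ (x * y) = τ (y * x)) (h1 : τ 1 = 1) (e : A)
    (he : e * e = e) :
    ∃ r m : ℕ, (m : K) ≠ 0 ∧ ∀ z : A, (∀ a, z * a = a * z) →
      (m : K) * τ (e * z) = (r : K) * τ z := by
  obtain ⟨f, hf0, hff, hf⟩ := exists_prim K (A := A)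
  obtain ⟨r, hr⟩ := trace_idem K τ hτ f hf0 hff hf _ e he rfl
  obtain ⟨m, hm⟩ := trace_idem K τ hτ f hf0 hff hf _ 1 (one_mul 1) rfl
  refine ⟨r, m, ?_, ?_⟩
  · intro h
    have := hm 1 (by simp)
    rw [h, zero_mul, one_mul, h1] at this
    exact one_ne_zero this
  · intro z hz
    rw [hr z hz]
    have := hm z hz
    rw [one_mul] at this
    rw [this]; ring

omit K [Field K] [Algebra K A] [Module.Finite K A] in
/-- central nonzero elements of a simple ring have central inverses -/
lemma exists_central_inv {w : A} (hw : ∀ a, w * a = a * w) (h0 : w ≠ 0) :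
    ∃ z : A, (∀ a, z * a = a * z) ∧ w * z = 1 := by
  have hF := IsSimpleRing.isField_center A
  have hwc : w ∈ Subring.center A := by
    rw [Subring.mem_center_iff]; intro a; exact (hw a).symm
  obtain ⟨z, hz⟩ := hF.mul_inv_cancel (a := (⟨w, hwc⟩ : Subring.center A)) (by
    intro h; exact h0 (congrArg Subtype.val h))
  refine ⟨z.1, ?_, congrArg Subtype.val hz⟩
  intro a
  exact (Subring.mem_center_iff.mp z.2 a).symm

/-- The orbit sum of an idempotent: if `C` is central and `τ (C z) = n τ (e z)` for all central
`z`, then a nonzero integral multiple of `C` is an integer. -/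
lemma orbit_sum_scalar (τ : A →ₗ[K] K) (hτ : ∀ x y, τ (x * y) = τ (y * x)) (h1 : τ 1 = 1) (e : A)
    (he : e * e = e) (C : A) (hC : ∀ a, C * a = a * C) (n : ℕ)
    (hn : ∀ z : A, (∀ a, z * a = a * z) → τ (C * z) = (n : K) * τ (e * z)) :
    ∃ k : K, C = k • (1 : A) := by
  obtain ⟨r, m, hm, h⟩ := trace_idem' K τ hτ h1 e he
  refine ⟨(n * r : ℕ) / m, ?_⟩
  by_contra hne
  set w := C - (((n * r : ℕ) : K) / m) • (1 : A) with hw
  have hw0 : w ≠ 0 := sub_ne_zero.mpr hne
  have hwc : ∀ a, w * a = a * w := by
    intro a
    rw [hw, sub_mul, mul_sub, hC, smul_mul_assoc, mul_smul_comm, one_mul, mul_one]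
  obtain ⟨z, hz, hwz⟩ := exists_central_inv hwc hw0
  have h2 : τ (w * z) = 0 := by
    rw [hw, sub_mul, map_sub, hn z hz, smul_mul_assoc, one_mul, map_smul, smul_eq_mul]
    have h3 := h z hz
    have h4 : τ (e * z) = (r : K) * τ z / m := by
      rw [eq_div_iff hm, mul_comm]; exact h3
    rw [h4]
    push_cast
    ring
  rw [hwz, h1] at h2
  exact one_ne_zero h2

end simple

end Pool.MP_9ebf7f_al.Sol
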