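import Pool.Agent.Lib.MP_9ebf7f_al.Basic
import Pool.Agent.Lib.MP_9ebf7f_al.RingPart
import Pool.Agent.Lib.MP_9ebf7f_al.GroupPart

/-!
# Simple twisted group algebras: homogeneous units of prime order
-/

set_option autoImplicit false

namespace Pool.MP_9ebf7f_al.Sol

open Module Subgroup
open scoped commutatorElement

section idem

variable {K A : Type*} [Field K] [Ring A] [Algebra K A]

/-- averaging idempotent of an element of order `q` -/
noncomputable def idem (K : Type*) {A : Type*} [Field K] [Ring A] [Algebra K A] (q : ℕ) (w : A) :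
    A := (q : K)⁻¹ • ∑ j ∈ Finset.range q, w ^ j

lemma mul_idem {q : ℕ} {w : A} (hw : w ^ q = 1) : w * idem K q w = idem K q w := by
  unfold idem
  rw [mul_smul_comm, Finset.mul_sum]
  congr 1
  have h1 : ∑ j ∈ Finset.range q, w * w ^ j = ∑ j ∈ Finset.range q, w ^ (j + 1) := by
    apply Finset.sum_congr rfl; intro j _; rw [pow_succ']
  rw [h1]
  have h2 := Finset.sum_range_succ (fun j => w ^ j) q
  have h3 := Finset.sum_range_succ' (fun j => w ^ j) q
  rw [h3] at h2
  simp only [pow_zero, hw] at h2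
  exact add_right_cancel h2

lemma idem_mul {q : ℕ} {w : A} (hw : w ^ q = 1) : idem K q w * w = idem K q w := by
  unfold idem
  rw [smul_mul_assoc, Finset.sum_mul]
  congr 1
  have h1 : ∑ j ∈ Finset.range q, w ^ j * w = ∑ j ∈ Finset.range q, w ^ (j + 1) := by
    apply Finset.sum_congr rfl; intro j _; rw [pow_succ]
  rw [h1]
  have h2 := Finset.sum_range_succ (fun j => w ^ j) q
  have h3 := Finset.sum_range_succ' (fun j => w ^ j) q
  rw [h3] at h2
  simp only [pow_zero, hw] at h2
  exact add_right_cancel h2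

lemma idem_mul_of {q : ℕ} (hq : (q : K) ≠ 0) {w y : A} (hy : w * y = y) : idem K q w * y = y := by
  unfold idem
  rw [smul_mul_assoc, Finset.sum_mul]
  have h1 : ∀ j, w ^ j * y = y := by
    intro j
    induction j with
    | zero => simp
    | succ j ih => rw [pow_succ, mul_assoc, hy, ih]
  rw [Finset.sum_congr rfl (fun j _ => h1 j), Finset.sum_const, Finset.card_range,
    ← Nat.cast_smul_eq_nsmul K, smul_smul, inv_mul_cancel₀ hq, one_smul]

lemma mul_idem_of {q : ℕ} (hq : (q : K) ≠ 0) {w y : A} (hy : y * w = y) : y * idem K q w = y := by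
  unfold idem
  rw [mul_smul_comm, Finset.mul_sum]
  have h1 : ∀ j, y * w ^ j = y := by
    intro j
    induction j with
    | zero => simp
    | succ j ih => rw [pow_succ', ← mul_assoc, hy, ih]
  rw [Finset.sum_congr rfl (fun j _ => h1 j), Finset.sum_const, Finset.card_range,
    ← Nat.cast_smul_eq_nsmul K, smul_smul, inv_mul_cancel₀ hq, one_smul]

lemma conj_idem (q : ℕ) (v : Aˣ) (w : A) :
    (v : A) * idem K q w * ((v⁻¹ : Aˣ) : A) = idem K q ((v : A) * w * ((v⁻¹ : Aˣ) : A)) := by
  unfold idem
  rw [mul_smul_comm, smul_mul_assoc, Finset.mul_sum, Finset.sum_mul]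
  congr 1
  apply Finset.sum_congr rfl
  intro j _
  rw [Units.conj_pow]

end idem

namespace TGA

variable {K G A : Type*} [Field K] [Group G] [Ring A] [Algebra K A] (T : TGA K G A)

include T in
lemma finite_dim [Finite G] : Module.Finite K A := Module.Finite.of_basis T.b

/-- `M1`: no homogeneous non scalar unit of order `p` in characteristic `p`. -/
lemma no_order_char [Finite G] [IsSimpleRing A] {q : ℕ} (hq : q.Prime) (hqK : (q : K) = 0)
    {x : T.Gam} (hx : x ^ q = 1) (hdeg : T.deg x ≠ 1) : False := by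
  have := T.finite_dim
  have : Fact q.Prime := ⟨hq⟩
  have hcharK : CharP K q := by
    have h1 := ringChar.dvd hqK
    have h2 : ringChar K = q := by
      rcases (Nat.dvd_prime hq).mp h1 with h | h
      · exact absurd h (CharP.ringChar_ne_one)
      · exact h
    rw [← h2]; exact ringChar.charP K
  have : Nontrivial A := inferInstance
  have : CharP A q := charP_of_injective_algebraMap (algebraMap K A).injective q
  obtain ⟨a, ha, hxa⟩ := T.exists_coef x
  have hu : ((T.un x : Aˣ) : A) ^ q = 1 := by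
    rw [← Units.val_pow_eq_pow_val, ← map_pow, hx, map_one, Units.val_one]
  have hnil : (((T.un x : Aˣ) : A) - 1) ^ q = 0 := by
    rw [sub_pow_char_of_commute q (Commute.one_right _), hu, one_pow, sub_self]
  have h1 := trace_nilp (regular_of_simple K (A := A)) T.tau T.tau_mul_comm q _ hnil
  rw [map_sub, map_zero, T.tau_one, hxa, map_smul, T.tau_b hdeg] at h1
  simp at h1

/-- `M2`: the orbit sum argument. -/
lemma no_order_prime [Finite G] [IsSimpleRing A] {q : ℕ} (hq : q.Prime) (hqK : (q : K) ≠ 0)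
    (N : Subgroup T.Gam) [hN : N.Normal] (hNq : ∀ z ∈ N, T.deg z = 1 → z ^ q = 1 → z = 1)
    {x : T.Gam} (hxN : x ∈ N) (hx : orderOf x = q) : False := by
  classical
  have := T.finite_dim
  have : Fact q.Prime := ⟨hq⟩
  have hxq : x ^ q = 1 := by rw [← hx]; exact pow_orderOf_eq_one x
  have hx1 : x ≠ 1 := by
    rintro rfl
    rw [orderOf_one] at hx
    exact hq.one_lt.ne hx
  have hdeg : T.deg x ≠ 1 := fun h => hx1 (hNq x hxN h hxq)
  -- idempotents
  let F : T.Gam → A := fun γ => idem K q (T.un (γ * x * γ⁻¹) : A)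
  have hF : ∀ γ, F γ = (T.un γ : A) * idem K q (T.un x : A) * (((T.un γ)⁻¹ : Aˣ) : A) := by
    intro γ
    rw [conj_idem]
    simp [F]
  have hpow : ∀ v : T.Gam, v ^ q = 1 → (T.un v : A) ^ q = 1 := by
    intro v hv
    rw [← Units.val_pow_eq_pow_val, ← map_pow, hv, map_one, Units.val_one]
  set e : A := idem K q (T.un x : A) with he
  have hee : e * e = e := idem_mul_of hqK (mul_idem (hpow x hxq))
  have hFdeg : ∀ γ γ' : T.Gam, T.deg γ = T.deg γ' → F γ = F γ' := by
    intro γ γ' h
    have h1 : γ'⁻¹ * γ ∈ center T.Gam := T.ker_le_center (by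
      rw [MonoidHom.mem_ker, map_mul, map_inv, h, inv_mul_cancel])
    rw [mem_center_iff] at h1
    have h2 : γ * x * γ⁻¹ = γ' * x * γ'⁻¹ := by
      have h3 : γ * x * γ⁻¹ = γ' * ((γ'⁻¹ * γ) * x) * γ⁻¹ := by group
      rw [h3, ← h1 x]; group
    change idem K q _ = idem K q _
    rw [h2]
  have hfin : (Set.range F).Finite := by
    have : Set.range F ⊆ Set.range (fun g : G => F (T.s g)) := by
      rintro _ ⟨γ, rfl⟩
      exact ⟨T.deg γ, hFdeg _ _ rfl⟩
    exact (Set.finite_range _).subset this
  let O : Finset A := hfin.toFinset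
  have hO : ∀ y, y ∈ O ↔ ∃ γ, F γ = y := by
    intro y; rw [Set.Finite.mem_toFinset]; rfl
  let C : A := ∑ y ∈ O, y
  -- conjugation invariance
  have hconj : ∀ γ : T.Gam, (T.un γ : A) * C * (((T.un γ)⁻¹ : Aˣ) : A) = C := by
    intro γ
    change (T.un γ : A) * (∑ y ∈ O, y) * (((T.un γ)⁻¹ : Aˣ) : A) = ∑ y ∈ O, y
    rw [Finset.mul_sum, Finset.sum_mul]
    refine Finset.sum_bij' (fun y _ => (T.un γ : A) * y * (((T.un γ)⁻¹ : Aˣ) : A))
      (fun y _ => (((T.un γ)⁻¹ : Aˣ) : A) * y * (T.un γ : A)) ?_ ?_ ?_ ?_ ?_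
    · intro y hy
      obtain ⟨δ, hδ⟩ := (hO y).mp hy
      rw [hO]
      refine ⟨γ * δ, ?_⟩
      rw [← hδ, hF, hF, map_mul, mul_inv_rev, Units.val_mul, Units.val_mul]
      simp only [mul_assoc]
    · intro y hy
      obtain ⟨δ, hδ⟩ := (hO y).mp hy
      rw [hO]
      refine ⟨γ⁻¹ * δ, ?_⟩
      rw [← hδ, hF, hF, map_mul, map_inv, mul_inv_rev, inv_inv, Units.val_mul, Units.val_mul]
      simp only [mul_assoc]
    · intro y _
      simp [mul_assoc]
    · intro y _
      simp [mul_assoc]
    · intro y _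
      rfl
  have hCb : ∀ g : G, C * T.b g = T.b g * C := by
    intro g
    have h := hconj (T.s g)
    have h1 : (T.un (T.s g) : A) = T.b g := rfl
    have h2 := congrArg (fun y => y * (T.un (T.s g) : A)) h
    simp only [mul_assoc, Units.inv_mul, mul_one] at h2
    rw [h1] at h2
    exact h2.symm
  have hC : ∀ a, C * a = a * C := by
    intro a
    have : LinearMap.mulLeft K C = LinearMap.mulRight K C := by
      apply T.b.ext
      intro g
      simpa using hCb g
    simpa using LinearMap.congr_fun this a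
  have hτC : ∀ z : A, (∀ a, z * a = a * z) → T.tau (C * z) = (O.card : K) * T.tau (e * z) := by
    intro z hz
    change T.tau ((∑ y ∈ O, y) * z) = _
    rw [Finset.sum_mul, map_sum]
    have h1 : ∀ y ∈ O, T.tau (y * z) = T.tau (e * z) := by
      intro y hy
      obtain ⟨δ, hδ⟩ := (hO y).mp hy
      rw [← hδ, hF]
      have e0 : (T.un δ : A) * e * (((T.un δ)⁻¹ : Aˣ) : A) * z =
          (T.un δ : A) * (e * z * (((T.un δ)⁻¹ : Aˣ) : A)) := by
        rw [mul_assoc, mul_assoc, ← hz, mul_assoc]
      rw [e0, T.tau_mul_comm, mul_assoc, Units.inv_mul, mul_one]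
    rw [Finset.sum_congr rfl h1, Finset.sum_const, nsmul_eq_mul]
  obtain ⟨k, hk⟩ := orbit_sum_scalar K T.tau T.tau_mul_comm T.tau_one e hee C hC O.card hτC
  -- coefficient of `C` at `deg x`
  have hc0 : T.b.repr C (T.deg x) = 0 := by
    rw [hk, T.one_eq]
    simp [hdeg]
  have hcoef : ∀ v : T.Gam, ∀ j : ℕ, T.b.repr ((T.un v : A) ^ j) (T.deg x) ≠ 0 →
      T.deg (v ^ j) = T.deg x := by
    intro v j h
    obtain ⟨a, ha, hv⟩ := T.exists_coef (v ^ j)
    rw [map_pow, Units.val_pow_eq_pow_val] at hv
    rw [hv] at h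
    by_contra hne
    apply h
    rw [map_smul, Finsupp.smul_apply, Basis.repr_self, Finsupp.single_eq_of_ne (Ne.symm hne),
      smul_zero]
  have hother : ∀ y ∈ O, y ≠ e → T.b.repr y (T.deg x) = 0 := by
    intro y hy hye
    obtain ⟨γ, hγ⟩ := (hO y).mp hy
    by_contra hne
    apply hye
    set v := γ * x * γ⁻¹ with hv
    have hvN : v ∈ N := hN.conj_mem x hxN γ
    have hvq : v ^ q = 1 := by rw [hv, conj_pow, hxq]; simp
    have hy' : y = idem K q (T.un v : A) := hγ.symm
    have h1 : ∃ j, T.b.repr ((T.un v : A) ^ j) (T.deg x) ≠ 0 := by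
      by_contra hcon
      push Not at hcon
      apply hne
      rw [hy']
      unfold idem
      rw [map_smul, map_sum, Finsupp.smul_apply, Finsupp.finsetSum_apply]
      rw [Finset.sum_eq_zero (fun j _ => hcon j), smul_zero]
    obtain ⟨j, hj⟩ := h1
    have h2 := hcoef v j hj
    have h3 : v ^ j * x⁻¹ = 1 := by
      apply hNq _ (N.mul_mem (N.pow_mem hvN j) (N.inv_mem hxN))
      · rw [map_mul, map_inv, h2, mul_inv_cancel]
      · have hcen : v ^ j * x⁻¹ ∈ center T.Gam := T.ker_le_center (by
          rw [MonoidHom.mem_ker, map_mul, map_inv, h2, mul_inv_cancel])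
        rw [mem_center_iff] at hcen
        have hcomm : Commute (v ^ j * x⁻¹) x := (hcen x).symm
        have h4 := hcomm.mul_pow q
        rw [inv_mul_cancel_right, hxq, mul_one, ← pow_mul, mul_comm, pow_mul, hvq, one_pow] at h4
        exact h4.symm
    have h4 : v ^ j = x := mul_inv_eq_one.mp h3
    have hvord : orderOf v = q := by
      apply orderOf_eq_prime hvq
      intro h5
      rw [h5, one_pow] at h4
      exact hx1 h4.symm
    have hcop : Nat.Coprime j (orderOf v) := by
      rw [hvord]
      apply Nat.Coprime.symm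
      rw [Nat.Prime.coprime_iff_not_dvd hq]
      rintro ⟨i, rfl⟩
      rw [pow_mul, hvq, one_pow] at h4
      exact hx1 h4.symm
    obtain ⟨i, hi⟩ := exists_pow_eq_self_of_coprime hcop
    rw [h4] at hi
    -- `v = x ^ i`, `x = v ^ j`
    have e1 : (T.un x : A) * y = y := by
      have : (T.un x : A) = (T.un v : A) ^ j := by
        rw [← h4, map_pow, Units.val_pow_eq_pow_val]
      rw [this, hy']
      have h6 := mul_idem (K := K) (hpow v hvq)
      clear_value v
      clear * - h6
      induction j with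
      | zero => simp
      | succ j ih => rw [pow_succ, mul_assoc, h6, ih]
    have e2 : e * (T.un v : A) = e := by
      have : (T.un v : A) = (T.un x : A) ^ i := by
        rw [← hi, map_pow, Units.val_pow_eq_pow_val]
      rw [this, he]
      have h6 := idem_mul (K := K) (hpow x hxq)
      clear * - h6
      induction i with
      | zero => simp
      | succ j ih => rw [pow_succ', ← mul_assoc, h6, ih]
    have e3 : e * y = y := idem_mul_of hqK e1
    have e4 : e * y = e := by rw [hy']; exact mul_idem_of hqK e2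
    rw [← e3, e4]
  have heO : e ∈ O := by
    rw [hO]
    exact ⟨1, by rw [hF]; simp⟩
  have hsum : T.b.repr C (T.deg x) = T.b.repr e (T.deg x) := by
    change T.b.repr (∑ y ∈ O, y) (T.deg x) = _
    rw [map_sum, Finsupp.finsetSum_apply]
    exact Finset.sum_eq_single_of_mem e heO hother
  have hdq : orderOf (T.deg x) = q := by
    apply orderOf_eq_prime _ hdeg
    rw [← map_pow, hxq, map_one]
  have hcoefe : T.b.repr e (T.deg x) ≠ 0 := by
    obtain ⟨a, ha, hxa⟩ := T.exists_coef x
    have : T.b.repr e (T.deg x) = (q : K)⁻¹ * a := by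
      rw [he]
      unfold idem
      rw [map_smul, map_sum, Finsupp.smul_apply, Finsupp.finsetSum_apply, smul_eq_mul]
      congr 1
      rw [Finset.sum_eq_single_of_mem 1 (Finset.mem_range.mpr hq.one_lt)]
      · rw [pow_one, hxa]; simp
      · intro j hj hj1
        by_contra hne
        have h7 := hcoef x j hne
        rw [map_pow] at h7
        apply hj1
        have h8 : (T.deg x) ^ j = (T.deg x) ^ 1 := by rw [h7, pow_one]
        apply pow_injOn_Iio_orderOf _ _ h8
        · rw [hdq]; exact Finset.mem_range.mp hj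
        · rw [hdq]; exact hq.one_lt
    rw [this]
    exact mul_ne_zero (inv_ne_zero hqK) ha
  exact hcoefe (hsum ▸ hc0)

end TGA

end Pool.MP_9ebf7f_al.Sol
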