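import Pool.Agent.Lib.MP_9ebf7f_al.SN

/-!
# Minimal central idempotents of sub twisted group algebras
-/

set_option autoImplicit false

namespace Pool.MP_9ebf7f_al.Sol

open Module

/-- semisimple rings are von Neumann regular -/
lemma regular_of_ss {R : Type*} [Ring R] [IsSemisimpleRing R] (y : R) : ∃ y' : R, y * y' * y = y := by
  obtain ⟨e, he, hI⟩ := IsSemisimpleRing.ideal_eq_span_idempotent (Ideal.span {y})
  have h1 : e ∈ Ideal.span {y} := by rw [hI]; exact Ideal.mem_span_singleton_self e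
  have h2 : y ∈ Ideal.span {e} := by rw [← hI]; exact Ideal.mem_span_singleton_self y
  obtain ⟨a, ha⟩ := Ideal.mem_span_singleton'.mp h1
  obtain ⟨b, hb⟩ := Ideal.mem_span_singleton'.mp h2
  refine ⟨a, ?_⟩
  rw [mul_assoc, ha]
  rw [← hb, mul_assoc, he]

namespace TGA

variable {K G A : Type*} [Field K] [Group G] [Ring A] [Algebra K A] (T : TGA K G A)

lemma conj_mul_b (g : G) (x : A) : T.conj g x * T.b g = T.b g * x := by
  rw [conj_apply, mul_assoc]
  have : ((T.u g)⁻¹ : Aˣ).val * T.b g = 1 := Units.inv_mul (T.u g)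
  rw [this, mul_one]

lemma mul_b_cancel {g : G} {x y : A} (h : x * T.b g = y * T.b g) : x = y :=
  (Units.mul_left_inj (T.u g)).mp h

lemma b_mul_cancel {g : G} {x y : A} (h : T.b g * x = T.b g * y) : x = y :=
  (Units.mul_right_inj (T.u g)).mp h

lemma conj_eq_iff {g : G} {x y : A} : T.conj g x = y ↔ T.b g * x = y * T.b g := by
  constructor
  · rintro rfl; rw [conj_mul_b]
  · intro h
    apply T.mul_b_cancel (g := g)
    rw [conj_mul_b, h]

lemma conj_mul (g h : G) (x : A) : T.conj (g * h) x = T.conj g (T.conj h x) := by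
  rw [conj_eq_iff]
  have h1 : T.b (g * h) = (T.c g h)⁻¹ • (T.b g * T.b h) := by
    rw [T.hb, smul_smul, inv_mul_cancel₀ (T.hc g h), one_smul]
  rw [h1, smul_mul_assoc, mul_smul_comm]
  congr 1
  rw [← mul_assoc, conj_mul_b, mul_assoc, mul_assoc, conj_mul_b]

@[simp] lemma conj_one (x : A) : T.conj 1 x = x := by
  rw [conj_eq_iff, b_one, smul_mul_assoc, mul_smul_comm, one_mul, mul_one]

lemma conj_inv_conj (g : G) (x : A) : T.conj g⁻¹ (T.conj g x) = x := by
  rw [← conj_mul, inv_mul_cancel, conj_one]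

lemma conj_conj_inv (g : G) (x : A) : T.conj g (T.conj g⁻¹ x) = x := by
  rw [← conj_mul, mul_inv_cancel, conj_one]

lemma conj_b (g h : G) : ∃ a : K, a ≠ 0 ∧ T.conj g (T.b h) = a • T.b (g * h * g⁻¹) := by
  refine ⟨T.c g h * (T.c (g * h * g⁻¹) g)⁻¹, mul_ne_zero (T.hc _ _) (inv_ne_zero (T.hc _ _)), ?_⟩
  rw [conj_eq_iff, T.hb, smul_mul_assoc, T.hb, smul_smul, inv_mul_cancel_right,
    inv_mul_cancel_right₀ (T.hc _ _)]

lemma conj_b_self (g : G) : T.conj g (T.b g) = T.b g := by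
  rw [conj_eq_iff]

lemma conj_mem {Q : Subgroup G} {g : G} (hg : g ∈ Subgroup.normalizer (Q : Set G)) {x : A} (hx : x ∈ T.sub Q) :
    T.conj g x ∈ T.sub Q := by
  refine T.sub_induction (p := fun x => T.conj g x ∈ T.sub Q) ?_ ?_ ?_ ?_ hx
  · intro h hh
    obtain ⟨a, _, ha⟩ := T.conj_b g h
    rw [ha]
    exact (T.sub Q).smul_mem (T.b_mem_sub ((Subgroup.mem_normalizer_iff.mp hg h).mp hh)) a
  · rw [map_zero]; exact (T.sub Q).zero_mem
  · intro x y hx hy
    rw [map_add]; exact (T.sub Q).add_mem hx hy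
  · intro c x hx
    rw [map_smul]; exact (T.sub Q).smul_mem hx c

/-- conjugation inside a subgroup -/
lemma conj_mem' {Q : Subgroup G} {g : G} (hg : g ∈ Q) {x : A} (hx : x ∈ T.sub Q) :
    T.conj g x ∈ T.sub Q := T.conj_mem (Subgroup.le_normalizer hg) hx

/-- the inverse of `b g` is in the subalgebra -/
lemma u_inv (g : G) : ∃ a : K, a ≠ 0 ∧ ((T.u g)⁻¹ : Aˣ).val = a • T.b g⁻¹ :=
  ⟨(T.c g g⁻¹ * T.c 1 1)⁻¹, inv_ne_zero (mul_ne_zero (T.hc _ _) (T.hc _ _)), rfl⟩

lemma u_inv_mem {Q : Subgroup G} {g : G} (hg : g ∈ Q) : ((T.u g)⁻¹ : Aˣ).val ∈ T.sub Q := by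
  obtain ⟨a, _, ha⟩ := T.u_inv g
  rw [ha]
  exact (T.sub Q).smul_mem (T.b_mem_sub (Q.inv_mem hg)) a

/-- elements commuting with `b u`, `u ∈ Q`, commute with `K^α Q` -/
lemma comm_of_b {Q : Subgroup G} {v : A} (h : ∀ u ∈ Q, v * T.b u = T.b u * v) :
    ∀ x ∈ T.sub Q, v * x = x * v := by
  intro x hx
  refine T.sub_induction (p := fun x => v * x = x * v) h ?_ ?_ ?_ hx
  · simp
  · intro x y hx hy; rw [mul_add, add_mul, hx, hy]
  · intro c x hx; rw [mul_smul_comm, smul_mul_assoc, hx]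

/-- A minimal central idempotent of `K^α Q`. -/
structure MinC (Q : Subgroup G) (ε : A) : Prop where
  mem : ε ∈ T.sub Q
  ne : ε ≠ 0
  idem : ε * ε = ε
  comm : ∀ x ∈ T.sub Q, ε * x = x * ε
  min : ∀ f ∈ T.sub Q, f * f = f → (∀ x ∈ T.sub Q, f * x = x * f) → ε * f = 0 ∨ ε * f = ε

lemma exists_minC [Finite G] (Q : Subgroup G) : ∃ ε, T.MinC Q ε := by
  classical
  have hfin : Module.Finite K A := Module.Finite.of_basis T.b
  let P : A → Prop := fun e => e ∈ T.sub Q ∧ e ≠ 0 ∧ e * e = e ∧ ∀ x ∈ T.sub Q, e * x = x * e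
  have hex : ∃ n, ∃ e, P e ∧ dl K e = n :=
    ⟨_, 1, ⟨(T.sub Q).one_mem, T.nontriv, one_mul 1, fun x _ => by simp⟩, rfl⟩
  obtain ⟨ε, hε, hn⟩ := Nat.find_spec hex
  have hmin : ∀ e, P e → dl K ε ≤ dl K e := fun e he => by
    rw [hn]; exact Nat.find_min' hex ⟨e, he, rfl⟩
  refine ⟨ε, hε.1, hε.2.1, hε.2.2.1, hε.2.2.2, ?_⟩
  intro f hf hff hfc
  by_cases h0 : ε * f = 0
  · exact Or.inl h0
  · right
    have hcomm : ε * f = f * ε := hε.2.2.2 f hf
    have hidem : (ε * f) * (ε * f) = ε * f := by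
      calc (ε * f) * (ε * f) = ε * (f * ε) * f := by simp only [mul_assoc]
        _ = ε * (ε * f) * f := by rw [← hcomm]
        _ = (ε * ε) * (f * f) := by simp only [mul_assoc]
        _ = ε * f := by rw [hε.2.2.1, hff]
    have hP : P (ε * f) := by
      refine ⟨(T.sub Q).mul_mem hε.1 hf, h0, hidem, ?_⟩
      intro x hx
      rw [mul_assoc, hfc x hx, ← mul_assoc, hε.2.2.2 x hx, mul_assoc]
    have hle : LinearMap.range (LinearMap.mulLeft K (ε * f)) ≤
        LinearMap.range (LinearMap.mulLeft K ε) := by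
      rintro _ ⟨z, rfl⟩
      exact ⟨f * z, by simp only [LinearMap.mulLeft_apply, mul_assoc]⟩
    have heq : LinearMap.range (LinearMap.mulLeft K (ε * f)) =
        LinearMap.range (LinearMap.mulLeft K ε) :=
      Submodule.eq_of_le_of_finrank_le hle (hmin _ hP)
    have h1 : ε ∈ LinearMap.range (LinearMap.mulLeft K (ε * f)) := by
      rw [heq]; exact ⟨1, by simp⟩
    obtain ⟨a, ha⟩ := h1
    rw [LinearMap.mulLeft_apply] at ha
    calc ε * f = ε * (ε * f) := by rw [← mul_assoc, hε.2.2.1]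
      _ = (ε * f) * ε := by rw [hcomm, ← mul_assoc, hcomm]
      _ = (ε * f) * ((ε * f) * a) := by rw [ha]
      _ = ε := by rw [← mul_assoc, hidem, ha]

namespace MinC

variable {T} {Q : Subgroup G} {ε ε' : A}

lemma eq_or_orth (h : T.MinC Q ε) (h' : T.MinC Q ε') : ε = ε' ∨ ε * ε' = 0 := by
  rcases h.min ε' h'.mem h'.idem h'.comm with h1 | h1
  · exact Or.inr h1
  · rcases h'.min ε h.mem h.idem h.comm with h2 | h2
    · right; rw [h.comm ε' h'.mem]; exact h2
    · left
      rw [← h1, h.comm ε' h'.mem, h2]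

lemma conj (h : T.MinC Q ε) {g : G} (hg : g ∈ Subgroup.normalizer (Q : Set G)) : T.MinC Q (T.conj g ε) := by
  have hginv : g⁻¹ ∈ Subgroup.normalizer (Q : Set G) := (Subgroup.normalizer (Q : Set G)).inv_mem hg
  have key : ∀ x ∈ T.sub Q, ∃ x' ∈ T.sub Q, T.conj g x' = x := fun x hx =>
    ⟨T.conj g⁻¹ x, T.conj_mem hginv hx, T.conj_conj_inv g x⟩
  refine ⟨T.conj_mem hg h.mem, ?_, ?_, ?_, ?_⟩
  · intro h0
    exact h.ne ((T.conj g).injective (by rw [h0, map_zero]))
  · rw [← map_mul, h.idem]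
  · intro x hx
    obtain ⟨x', hx', rfl⟩ := key x hx
    rw [← map_mul, ← map_mul, h.comm x' hx']
  · intro f hf hff hfc
    obtain ⟨f', hf', rfl⟩ := key f hf
    have h1 : f' * f' = f' := (T.conj g).injective (by rw [map_mul, hff])
    have h2 : ∀ x ∈ T.sub Q, f' * x = x * f' := by
      intro x hx
      apply (T.conj g).injective
      rw [map_mul, map_mul, hfc _ (T.conj_mem hg hx)]
    rcases h.min f' hf' h1 h2 with h3 | h3
    · left; rw [← map_mul, h3, map_zero]
    · right; rw [← map_mul, h3]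

end MinC

/-- `R = ε K^α Q` -/
def Rc (Q : Subgroup G) (ε : A) : Submodule K A where
  carrier := {y | y ∈ T.sub Q ∧ ε * y = y}
  zero_mem' := ⟨(T.sub Q).zero_mem, mul_zero _⟩
  add_mem' := fun ha hb => ⟨(T.sub Q).add_mem ha.1 hb.1, by rw [mul_add, ha.2, hb.2]⟩
  smul_mem' := fun c _ ha => ⟨(T.sub Q).smul_mem ha.1 c, by rw [mul_smul_comm, ha.2]⟩

lemma mem_Rc {Q : Subgroup G} {ε y : A} : y ∈ T.Rc Q ε ↔ y ∈ T.sub Q ∧ ε * y = y := Iff.rfl

namespace MinC

variable {T} {Q : Subgroup G} {ε : A}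

lemma mul_mem_Rc (h : T.MinC Q ε) {x : A} (hx : x ∈ T.sub Q) : ε * x ∈ T.Rc Q ε :=
  ⟨(T.sub Q).mul_mem h.mem hx, by rw [← mul_assoc, h.idem]⟩

/-- `ε K^α Q` is simple -/
lemma sr [Finite G] (hQ : (Nat.card Q : K) ≠ 0) (h : T.MinC Q ε) : SR (T.Rc Q ε) ε where
  mul := fun x hx y hy => ⟨(T.sub Q).mul_mem hx.1 hy.1, by rw [← mul_assoc, hx.2]⟩
  one := ⟨h.mem, h.idem⟩
  one_mul := fun x hx => hx.2
  mul_one := fun x hx => by rw [← h.comm x hx.1, hx.2]
  simple := by
    intro I hI hmul hne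
    have hss : IsSemisimpleRing (T.sub Q) := (T.res Q).semisimple hQ
    let I' : Ideal (T.sub Q) :=
      { carrier := {x | (x : A) ∈ I}
        zero_mem' := I.zero_mem
        add_mem' := fun ha hb => I.add_mem ha hb
        smul_mem' := by
          intro c x hx
          change ((c : A) * (x : A)) ∈ I
          have hx' : (x : A) ∈ I := hx
          have h1 : (c : A) * (x : A) = (ε * c) * x := by
            rw [h.comm c c.2, mul_assoc, (hI hx').2]
          rw [h1]
          exact (hmul (ε * c) (h.mul_mem_Rc c.2) x hx').1 }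
    obtain ⟨e, he, hIe⟩ := IsSemisimpleRing.ideal_eq_span_idempotent I'
    have heI' : e ∈ I' := by rw [hIe]; exact Ideal.mem_span_singleton_self e
    have heI : (e : A) ∈ I := heI'
    have hεe : ε * (e : A) = e := (hI heI).2
    have heb : ∀ b : T.sub Q, e * b * e = e * b := by
      intro b
      have h1 : e * b ∈ I' := by
        change (e : A) * (b : A) ∈ I
        have h2 : (e : A) * (b : A) = e * (ε * b) := by
          rw [← mul_assoc, ← h.comm e e.2, hεe]
        rw [h2]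
        exact (hmul (ε * b) (h.mul_mem_Rc b.2) e heI).2
      rw [hIe, Ideal.mem_span_singleton'] at h1
      obtain ⟨a, ha⟩ := h1
      rw [← ha, mul_assoc, he]
    have hbe : ∀ b : T.sub Q, b * e = e * b := by
      intro b
      obtain ⟨b', hb'⟩ := regular_of_ss ((1 - e) * b * e)
      have h1 : (1 - e) * b * e * b' * ((1 - e) * b * e) = 0 := by
        have h2 : e * b' * (1 - e) = 0 := by
          rw [mul_sub, mul_one, heb b', sub_self]
        calc (1 - e) * b * e * b' * ((1 - e) * b * e) =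
              (1 - e) * b * (e * b' * (1 - e)) * b * e := by simp only [mul_assoc]
          _ = 0 := by rw [h2, mul_zero, zero_mul, zero_mul]
      rw [h1] at hb'
      rw [sub_mul, sub_mul, one_mul, eq_comm, sub_eq_zero] at hb'
      rw [hb', heb b]
    have hec : ∀ x ∈ T.sub Q, (e : A) * x = x * e := fun x hx =>
      (congrArg Subtype.val (hbe ⟨x, hx⟩)).symm
    rcases h.min e e.2 (congrArg Subtype.val he) hec with h3 | h3
    · exfalso
      apply hne
      rw [hεe] at h3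
      have he0 : e = 0 := Subtype.ext h3
      rw [eq_bot_iff]
      intro x hx
      have hx' : (⟨x, (hI hx).1⟩ : T.sub Q) ∈ I' := hx
      rw [hIe, he0] at hx'
      rw [Submodule.mem_bot]
      have : (⟨x, (hI hx).1⟩ : T.sub Q) = 0 := by simpa using hx'
      exact congrArg Subtype.val this
    · rw [hεe] at h3
      rw [← h3]; exact heI

end MinC

end TGA

end Pool.MP_9ebf7f_al.Sol
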