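import Pool.Agent.Lib.MP_9ebf7f_al.GT

/-!
# Characteristically simple groups generated by the conjugates of a minimal normal subgroup
-/

set_option autoImplicit false

namespace Pool.MP_9ebf7f_al.Sol

open Subgroup
open scoped commutatorElement

section

variable {J Γ : Type} [Group J] [Group Γ] (a : Γ →* MulAut J)

/-- the conjugates of `X` -/
def conjs (X : Subgroup J) : Set (Subgroup J) := {Y | ∃ g, Y = X.map (a g).toMonoidHom}

lemma map_map_inv (X : Subgroup J) (g : Γ) :
    (X.map (a g).toMonoidHom).map (a g⁻¹).toMonoidHom = X := by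
  rw [Subgroup.map_map]
  have : (a g⁻¹).toMonoidHom.comp (a g).toMonoidHom = MonoidHom.id J := by
    ext x
    change (a g⁻¹) ((a g) x) = x
    rw [map_inv]
    exact (a g).symm_apply_apply x
  rw [this, Subgroup.map_id]

lemma map_map_inv' (X : Subgroup J) (g : Γ) :
    (X.map (a g⁻¹).toMonoidHom).map (a g).toMonoidHom = X := by
  have := map_map_inv a X g⁻¹
  rwa [inv_inv] at this

variable {X₁ : Subgroup J} (hX₁n : X₁.Normal) (hX₁ne : X₁ ≠ ⊥)
  (hX₁min : ∀ Y : Subgroup J, Y.Normal → Y ≤ X₁ → Y = ⊥ ∨ Y = X₁)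

include hX₁n in
lemma conjs_normal {X : Subgroup J} (hX : X ∈ conjs a X₁) : X.Normal := by
  obtain ⟨g, rfl⟩ := hX
  exact hX₁n.map _ (a g).surjective

include hX₁ne in
lemma conjs_ne {X : Subgroup J} (hX : X ∈ conjs a X₁) : X ≠ ⊥ := by
  obtain ⟨g, rfl⟩ := hX
  intro h
  apply hX₁ne
  rw [← map_map_inv a X₁ g, h, Subgroup.map_bot]

include hX₁min in
lemma conjs_min {X : Subgroup J} (hX : X ∈ conjs a X₁) {Y : Subgroup J} (hY : Y.Normal)
    (hYX : Y ≤ X) : Y = ⊥ ∨ Y = X := by
  obtain ⟨g, rfl⟩ := hX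
  have h1 : Y.map (a g⁻¹).toMonoidHom ≤ X₁ := by
    rw [← map_map_inv a X₁ g]
    exact Subgroup.map_mono hYX
  rcases hX₁min _ (hY.map _ (a g⁻¹).surjective) h1 with h | h
  · left
    rw [← map_map_inv' a Y g, h, Subgroup.map_bot]
  · right
    rw [← map_map_inv' a Y g, h]

include hX₁n hX₁ne hX₁min in
lemma conjs_comm {X Y : Subgroup J} (hX : X ∈ conjs a X₁) (hY : Y ∈ conjs a X₁) (hne : X ≠ Y) :
    ∀ x ∈ X, ∀ y ∈ Y, x * y = y * x := by
  intro x hx y hy
  have hXn := conjs_normal a hX₁n hX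
  have hYn := conjs_normal a hX₁n hY
  have hn : (X ⊓ Y).Normal := inferInstance
  have hd : Disjoint X Y := by
    rw [disjoint_iff]
    rcases conjs_min a hX₁min hX hn inf_le_left with h | h
    · exact h
    · exfalso
      rcases conjs_min a hX₁min hY hXn (inf_eq_left.mp h) with h' | h'
      · exact conjs_ne a hX₁ne hX h'
      · exact hne h'
  exact commute_of_normal_of_disjoint X Y hXn hYn hd x y hx hy

variable (hmin : ∀ X : Subgroup J, X.Normal → (∀ g, X.map (a g).toMonoidHom = X) → X = ⊥ ∨ X = ⊤)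

include hX₁n hX₁ne hmin in
lemma conjs_sup : sSup (conjs a X₁) = ⊤ := by
  have hnorm : (sSup (conjs a X₁)).Normal := by
    rw [sSup_eq_iSup']
    have : ∀ X : conjs a X₁, (X : Subgroup J).Normal := fun X => conjs_normal a hX₁n X.2
    infer_instance
  have hinv : ∀ g, (sSup (conjs a X₁)).map (a g).toMonoidHom = sSup (conjs a X₁) := by
    have hle : ∀ g, (sSup (conjs a X₁)).map (a g).toMonoidHom ≤ sSup (conjs a X₁) := by
      intro g
      rw [map_le_iff_le_comap]
      apply sSup_le
      intro X hX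
      rw [← map_le_iff_le_comap]
      apply le_sSup
      obtain ⟨k, rfl⟩ := hX
      refine ⟨g * k, ?_⟩
      rw [Subgroup.map_map, map_mul]
      rfl
    intro g
    apply le_antisymm (hle g)
    conv_lhs => rw [← map_map_inv' a (sSup (conjs a X₁)) g]
    exact Subgroup.map_mono (hle g⁻¹)
  rcases hmin _ hnorm hinv with h | h
  · exfalso
    apply hX₁ne
    rw [eq_bot_iff, ← h]
    apply le_sSup
    refine ⟨1, ?_⟩
    rw [map_one]
    exact (Subgroup.map_id X₁).symm
  · exact h

variable (hJ : _root_.commutator J = ⊤)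

include hX₁ne hmin hJ in
lemma center_bot : center J = ⊥ := by
  have hinv : ∀ g, (center J).map (a g).toMonoidHom = center J := by
    intro g
    exact Subgroup.characteristic_iff_map_eq.mp inferInstance (a g)
  rcases hmin _ inferInstance hinv with h | h
  · exact h
  · exfalso
    apply hX₁ne
    have h1 : _root_.commutator J = ⊥ := by
      rw [_root_.commutator_def, commutator_eq_bot_iff_le_centralizer]
      intro x _
      have : x ∈ center J := by rw [h]; trivial
      rw [mem_centralizer_iff]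
      intro y _
      exact (mem_center_iff.mp this) y
    rw [h1] at hJ
    rw [eq_bot_iff, hJ]
    exact le_top

include hX₁n hX₁ne hX₁min hmin hJ in
lemma conjs_cen {X : Subgroup J} (hX : X ∈ conjs a X₁) {x : J} (hx : x ∈ X)
    (hxc : ∀ y ∈ X, x * y = y * x) : x = 1 := by
  have h1 : (⊤ : Subgroup J) ≤ centralizer {x} := by
    rw [← conjs_sup a hX₁n hX₁ne hmin]
    apply sSup_le
    intro Y hY y hy
    rw [mem_centralizer_singleton_iff]
    by_cases h : Y = X
    · subst h
      exact (hxc y hy).symm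
    · exact conjs_comm a hX₁n hX₁ne hX₁min hY hX h y hy x hx
  have h2 : x ∈ center J := by
    rw [mem_center_iff]
    intro y
    exact mem_centralizer_singleton_iff.mp (h1 (mem_top y))
  rw [center_bot a hX₁ne hmin hJ, mem_bot] at h2
  exact h2

include hX₁n hX₁ne hX₁min hmin hJ in
lemma conjs_perfect {X : Subgroup J} (hX : X ∈ conjs a X₁) : ⁅X, X⁆ = X := by
  have hXn := conjs_normal a hX₁n hX
  rcases conjs_min a hX₁min hX (Y := ⁅X, X⁆) inferInstance (commutator_le_self X) with h | h
  · exfalso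
    apply conjs_ne a hX₁ne hX
    rw [eq_bot_iff]
    intro x hx
    rw [mem_bot]
    apply conjs_cen a hX₁n hX₁ne hX₁min hmin hJ hX hx
    intro y hy
    have h1 : ⁅x, y⁆ ∈ ⁅X, X⁆ := commutator_mem_commutator hx hy
    rw [h, mem_bot, commutatorElement_eq_one_iff_mul_comm] at h1
    exact h1
  · exact h

/-- the isomorphism from `X₁` to a conjugate -/
noncomputable def conjsEquiv (g : Γ) : X₁ ≃* X₁.map (a g).toMonoidHom :=
  equivMapOfInjective X₁ _ (a g).injective

include hX₁n hX₁ne hX₁min hmin hJ in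
theorem noMult_of_conjs {q : ℕ} [Fact q.Prime] (h : NoMult q X₁) : NoMult q J := by
  apply noMult_of_family (conjs a X₁) (fun X hX => conjs_normal a hX₁n hX)
    (conjs_sup a hX₁n hX₁ne hmin)
    (fun X hX Y hY hne => conjs_comm a hX₁n hX₁ne hX₁min hX hY hne)
    (fun X hX => conjs_perfect a hX₁n hX₁ne hX₁min hmin hJ hX)
    (fun X hX x hx hxc => conjs_cen a hX₁n hX₁ne hX₁min hmin hJ hX hx hxc)
  rintro X ⟨g, rfl⟩
  exact h.of_equiv (conjsEquiv a g)

include hX₁n hX₁ne hmin in
theorem noIdx_of_conjs {q : ℕ} [hq : Fact q.Prime] (h : NoIdx q X₁) : NoIdx q J := by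
  intro H k hk
  rw [eq_top_iff, ← conjs_sup a hX₁n hX₁ne hmin]
  apply sSup_le
  intro X hX
  have hXn := conjs_normal a hX₁n hX
  have h1 : H.relIndex X ∣ q ^ k := by
    rw [← hk]; exact relIndex_dvd_index_of_normal' H X
  obtain ⟨j, _, hj⟩ := (Nat.dvd_prime_pow hq.out).mp h1
  obtain ⟨g, rfl⟩ := hX
  have h2 := (h.of_equiv (conjsEquiv a g)) (H.subgroupOf _) j hj
  exact subgroupOf_eq_top.mp h2

end

end Pool.MP_9ebf7f_al.Sol
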