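import Pool.Agent.Lib.MP_9ebf7f_al.Cen

/-!
# Orbits of minimal central idempotents under a Sylow subgroup
-/

set_option autoImplicit false

namespace Pool.MP_9ebf7f_al.Sol

open Module

namespace TGA

variable {K G A : Type*} [Field K] [Group G] [Ring A] [Algebra K A] (T : TGA K G A)

/-- the stabiliser of `ε` in the normaliser of `Q` -/
noncomputable def stab (Q : Subgroup G) (ε : A) : Subgroup G where
  carrier := {g | g ∈ Subgroup.normalizer (Q : Set G) ∧ T.conj g ε = ε}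
  one_mem' := ⟨Subgroup.one_mem _, T.conj_one ε⟩
  mul_mem' := fun ha hb => ⟨Subgroup.mul_mem _ ha.1 hb.1, by rw [conj_mul, hb.2, ha.2]⟩
  inv_mem' := fun ha => ⟨Subgroup.inv_mem _ ha.1, by
    conv_lhs => rw [← ha.2]
    rw [conj_inv_conj]⟩

lemma mem_stab {Q : Subgroup G} {ε : A} {g : G} :
    g ∈ T.stab Q ε ↔ g ∈ Subgroup.normalizer (Q : Set G) ∧ T.conj g ε = ε := Iff.rfl

variable {T}

/-- an element of `K^α P` fixed under conjugation by `P` is central -/
lemma comm_of_conj {P : Subgroup G} {κ : A} (h : ∀ g ∈ P, T.conj g κ = κ) :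
    ∀ x ∈ T.sub P, κ * x = x * κ :=
  T.comm_of_b (fun u hu => ((T.conj_eq_iff).mp (h u hu)).symm)

/-- **Averaging.** -/
theorem avg [Finite G] [IsSimpleRing A] {q : ℕ} [hq : Fact q.Prime] (hqK : (q : K) ≠ 0)
    (P : Subgroup G) (hP : IsPGroup q P) (hidx : ¬ q ∣ P.index) (Pε : Subgroup G) (hle : Pε ≤ P)
    {η ε : A} (hη : η ∈ T.sub P) (hηη : η * η = η) (hεη : ε * η = η) (hηε : η * ε = η)
    (hfix : ∀ g ∈ Pε, T.conj g η = η) (horth : ∀ g ∈ P, g ∉ Pε → ε * T.conj g ε = 0) :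
    η = 0 ∨ η = ε := by
  classical
  have := Fintype.ofFinite P
  have hcard : (Nat.card Pε : K) ≠ 0 := by
    have h1 : IsPGroup q Pε := hP.to_le hle
    obtain ⟨n, hn⟩ := IsPGroup.iff_card.mp h1
    rw [hn, Nat.cast_pow]; exact pow_ne_zero _ hqK
  obtain ⟨s, hs⟩ : ∃ s, s = ∑ g : P, T.conj (g : G) η := ⟨_, rfl⟩
  obtain ⟨κ, hκ⟩ : ∃ κ, κ = (Nat.card Pε : K)⁻¹ • s := ⟨_, rfl⟩
  have hsinv : ∀ h ∈ P, T.conj h s = s := by
    intro h hh
    rw [hs, map_sum]
    apply Fintype.sum_equiv (Equiv.mulLeft (⟨h, hh⟩ : P))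
    intro g
    rw [← conj_mul]; rfl
  have hκinv : ∀ h ∈ P, T.conj h κ = κ := by
    intro h hh
    rw [hκ, map_smul, hsinv h hh]
  have hsmem : s ∈ T.sub P := by
    rw [hs]
    exact (T.sub P).sum_mem (fun g _ => T.conj_mem' g.2 hη)
  have hκmem : κ ∈ T.sub P := by rw [hκ]; exact (T.sub P).smul_mem hsmem _
  have hεs : ε * s = (Nat.card Pε : K) • η := by
    rw [hs, Finset.mul_sum]
    have h1 : ∀ g : P, ε * T.conj (g : G) η = if (g : G) ∈ Pε then η else 0 := by
      intro g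
      split_ifs with hg
      · rw [hfix _ hg, hεη]
      · conv_lhs => rw [← hεη]
        rw [map_mul, ← mul_assoc, horth _ g.2 hg, zero_mul]
    rw [Finset.sum_congr rfl (fun g _ => h1 g), ← Finset.sum_filter, Finset.sum_const]
    have h2 : (Finset.univ.filter (fun g : P => (g : G) ∈ Pε)).card = Nat.card Pε := by
      rw [← Fintype.card_subtype, ← Nat.card_eq_fintype_card]
      exact Nat.card_congr (Subgroup.subgroupOfEquivOfLe hle).toEquiv
    rw [h2, Nat.cast_smul_eq_nsmul]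
  have hεκ : ε * κ = η := by
    rw [hκ, mul_smul_comm, hεs, smul_smul, inv_mul_cancel₀ hcard, one_smul]
  have hηκ : η * κ = η := by
    conv_lhs => rw [← hηε]
    rw [mul_assoc, hεκ, hηη]
  have hsκ : s * κ = s := by
    rw [hs, Finset.sum_mul]
    apply Finset.sum_congr rfl
    intro g _
    conv_lhs => rw [← hκinv g g.2]
    rw [← map_mul, hηκ]
  have hκκ : κ * κ = κ := by
    conv_lhs => rw [hκ]
    rw [smul_mul_assoc, ← hκ, hsκ]
    exact hκ.symm
  have hκc := comm_of_conj hκinv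
  let κ' : T.sub P := ⟨κ, hκmem⟩
  by_cases h0 : κ' = 0
  · left
    have : κ = 0 := congrArg Subtype.val h0
    rw [← hεκ, this, mul_zero]
  · right
    have h1 : κ' = 1 := T.central_idem hqK P hP hidx κ' (Subtype.ext hκκ)
      (fun x => Subtype.ext (hκc x x.2)) h0
    have : κ = 1 := congrArg Subtype.val h1
    rw [← hεκ, this, mul_one]

namespace MinC

variable {Q : Subgroup G} {ε : A}

section orbit

open Classical in
/-- the orbit of `ε` -/
noncomputable def orb (P : Subgroup G) [Fintype P] (T : TGA K G A) (ε : A) : Finset A :=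
  Finset.univ.image (fun g : P => T.conj (g : G) ε)

variable [Finite G] {P : Subgroup G} [Fintype P]

lemma mem_orb {e : A} : e ∈ orb P T ε ↔ ∃ g ∈ P, T.conj g ε = e := by
  unfold orb
  simp

lemma orb_minC (h : T.MinC Q ε) (hPQ : P ≤ Subgroup.normalizer (Q : Set G)) {e : A}
    (he : e ∈ orb P T ε) : T.MinC Q e := by
  obtain ⟨g, hg, rfl⟩ := mem_orb.mp he
  exact h.conj (hPQ hg)

lemma orb_orth (h : T.MinC Q ε) (hPQ : P ≤ Subgroup.normalizer (Q : Set G)) {e e' : A}
    (he : e ∈ orb P T ε) (he' : e' ∈ orb P T ε) (hne : e ≠ e') : e * e' = 0 :=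
  ((orb_minC h hPQ he).eq_or_orth (orb_minC h hPQ he')).resolve_left hne

/-- the orbit sum is `1` -/
lemma orb_sum [IsSimpleRing A] {q : ℕ} [hq : Fact q.Prime] (hqK : (q : K) ≠ 0)
    (hP : IsPGroup q P) (hidx : ¬ q ∣ P.index) (hQP : Q ≤ P) (h : T.MinC Q ε)
    (hPQ : P ≤ Subgroup.normalizer (Q : Set G)) : ∑ e ∈ orb P T ε, e = 1 := by
  classical
  obtain ⟨κ, hκ⟩ : ∃ κ, κ = ∑ e ∈ orb P T ε, e := ⟨_, rfl⟩
  have hmem : κ ∈ T.sub P := by
    rw [hκ]
    exact (T.sub P).sum_mem (fun e he => T.sub_mono hQP (orb_minC h hPQ he).mem)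
  have heκ : ∀ e ∈ orb P T ε, e * κ = e := by
    intro e he
    rw [hκ, Finset.mul_sum, Finset.sum_eq_single e]
    · exact (orb_minC h hPQ he).idem
    · intro e' he' hne
      exact orb_orth h hPQ he he' hne.symm
    · intro h'; exact absurd he h'
  have hκκ : κ * κ = κ := by
    conv_lhs => rw [hκ]
    rw [Finset.sum_mul, ← hκ, Finset.sum_congr rfl heκ]
    exact hκ.symm
  have hinv : ∀ g ∈ P, T.conj g κ = κ := by
    intro g hg
    rw [hκ, map_sum]
    apply Finset.sum_bij (fun e _ => T.conj g e)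
    · intro e he
      obtain ⟨k, hk, rfl⟩ := mem_orb.mp he
      exact mem_orb.mpr ⟨g * k, P.mul_mem hg hk, T.conj_mul g k ε⟩
    · intro e _ e' _ h'; exact (T.conj g).injective h'
    · intro e he
      obtain ⟨k, hk, rfl⟩ := mem_orb.mp he
      refine ⟨T.conj (g⁻¹ * k) ε, mem_orb.mpr ⟨g⁻¹ * k, P.mul_mem (P.inv_mem hg) hk, rfl⟩, ?_⟩
      rw [← conj_mul, mul_inv_cancel_left]
    · intro e _; rfl
  have hκc := comm_of_conj hinv
  have hεmem : ε ∈ orb P T ε := mem_orb.mpr ⟨1, P.one_mem, T.conj_one ε⟩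
  let κ' : T.sub P := ⟨κ, hmem⟩
  have h1 : κ' = 1 := T.central_idem hqK P hP hidx κ' (Subtype.ext hκκ)
    (fun x => Subtype.ext (hκc x x.2)) (by
      intro h0
      have h2 : κ = 0 := congrArg Subtype.val h0
      apply h.ne
      rw [← heκ ε hεmem, h2, mul_zero])
  rw [← hκ]
  exact congrArg Subtype.val h1

/-- the normaliser of `Q` acts on the idempotents through `P` -/
lemma stab_cover [IsSimpleRing A] {q : ℕ} [hq : Fact q.Prime] (hqK : (q : K) ≠ 0)
    (hP : IsPGroup q P) (hidx : ¬ q ∣ P.index) (hQP : Q ≤ P) (h : T.MinC Q ε)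
    (hPQ : P ≤ Subgroup.normalizer (Q : Set G)) {g : G}
    (hg : g ∈ Subgroup.normalizer (Q : Set G)) : ∃ p ∈ P, p⁻¹ * g ∈ T.stab Q ε := by
  have h1 := orb_sum hqK hP hidx hQP h hPQ
  have hg' := h.conj hg
  have h2 : ∃ e ∈ orb P T ε, T.conj g ε * e ≠ 0 := by
    by_contra hcon
    push Not at hcon
    apply hg'.ne
    rw [← mul_one (T.conj g ε), ← h1, Finset.mul_sum]
    exact Finset.sum_eq_zero hcon
  obtain ⟨e, he, hne⟩ := h2
  have h3 := (hg'.eq_or_orth (orb_minC h hPQ he)).resolve_right hne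
  obtain ⟨p, hp, rfl⟩ := mem_orb.mp he
  refine ⟨p, hp, Subgroup.mul_mem _ (Subgroup.inv_mem _ (hPQ hp)) hg, ?_⟩
  rw [conj_mul, h3, conj_inv_conj]

lemma finrank_Rc (h : T.MinC Q ε) :
    finrank K (T.Rc Q ε) = dl K (⟨ε, h.mem⟩ : T.sub Q) := by
  have : T.Rc Q ε = (LinearMap.range (LinearMap.mulLeft K (⟨ε, h.mem⟩ : T.sub Q))).map
      (T.sub Q).val.toLinearMap := by
    ext y
    constructor
    · rintro ⟨h1, h2⟩
      exact ⟨⟨y, h1⟩, ⟨⟨y, h1⟩, Subtype.ext h2⟩, rfl⟩
    · rintro ⟨_, ⟨z, rfl⟩, rfl⟩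
      exact h.mul_mem_Rc z.2
  rw [this]
  unfold dl
  exact (Submodule.equivMapOfInjective _ Subtype.val_injective _).finrank_eq.symm

lemma dl_conj (g : G) (e : A) : dl K (T.conj g e) = dl K e := by
  unfold dl
  have : LinearMap.range (LinearMap.mulLeft K (T.conj g e)) =
      (LinearMap.range (LinearMap.mulLeft K e)).map (T.conj g).toLinearEquiv.toLinearMap := by
    ext y
    constructor
    · rintro ⟨z, rfl⟩
      refine ⟨e * T.conj g⁻¹ z, ⟨_, rfl⟩, ?_⟩
      change T.conj g (e * T.conj g⁻¹ z) = T.conj g e * z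
      rw [map_mul, conj_conj_inv]
    · rintro ⟨_, ⟨z, rfl⟩, rfl⟩
      exact ⟨T.conj g z, (map_mul (T.conj g) e z).symm⟩
  rw [this]
  exact LinearEquiv.finrank_map_eq _ _

/-- the dimension of the component divides `|Q|` -/
lemma dim_dvd [IsSimpleRing A] {q : ℕ} [hq : Fact q.Prime] (hqK : (q : K) ≠ 0)
    (hP : IsPGroup q P) (hidx : ¬ q ∣ P.index) (hQP : Q ≤ P) (h : T.MinC Q ε)
    (hPQ : P ≤ Subgroup.normalizer (Q : Set G)) : finrank K (T.Rc Q ε) ∣ Nat.card Q := by
  classical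
  have hfin : Module.Finite K A := Module.Finite.of_basis T.b
  have h1 := orb_sum hqK hP hidx hQP h hPQ
  -- additivity
  have h2 : ∀ s : Finset A, s ⊆ orb P T ε → (∑ e ∈ s, e) * (∑ e ∈ s, e) = ∑ e ∈ s, e ∧
      dl K (∑ e ∈ s, e) = s.card * dl K ε := by
    intro s
    induction s using Finset.induction_on with
    | empty =>
      intro _
      refine ⟨by simp, ?_⟩
      rw [Finset.sum_empty, Finset.card_empty, zero_mul]
      unfold dl
      have : LinearMap.mulLeft K (0 : A) = 0 := by ext z; simp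
      rw [this, LinearMap.range_zero, finrank_bot]
    | insert a s ha ih =>
      intro hs
      have haO : a ∈ orb P T ε := hs (Finset.mem_insert_self a s)
      have hsO : s ⊆ orb P T ε := fun x hx => hs (Finset.mem_insert_of_mem hx)
      obtain ⟨ih1, ih2⟩ := ih hsO
      have haa := (orb_minC h hPQ haO).idem
      have e1 : a * ∑ e ∈ s, e = 0 := by
        rw [Finset.mul_sum]
        apply Finset.sum_eq_zero
        intro e he
        exact orb_orth h hPQ haO (hsO he) (fun h' => ha (h' ▸ he))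
      have e2 : (∑ e ∈ s, e) * a = 0 := by
        rw [Finset.sum_mul]
        apply Finset.sum_eq_zero
        intro e he
        exact orb_orth h hPQ (hsO he) haO (fun h' => ha (h' ▸ he))
      rw [Finset.sum_insert ha]
      have hid : (a + ∑ e ∈ s, e) * (a + ∑ e ∈ s, e) = a + ∑ e ∈ s, e := by
        rw [add_mul, mul_add, mul_add, haa, e1, e2, ih1]; abel
      refine ⟨hid, ?_⟩
      have h3 := dlr_split K hid haa (one_mul (1 : A)) (by rw [add_mul, haa, e2, add_zero])
        (by rw [mul_add, haa, e1, add_zero])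
      rw [dlr_one, dlr_one, dlr_one, add_sub_cancel_left, ih2] at h3
      obtain ⟨p, hp, hpa⟩ := mem_orb.mp haO
      rw [h3, Finset.card_insert_of_notMem ha, ← hpa, dl_conj]
      ring
  obtain ⟨_, h3⟩ := h2 _ (Finset.Subset.refl _)
  rw [h1] at h3
  have h4 : dl K (1 : A) = Nat.card G := by
    unfold dl
    have : LinearMap.range (LinearMap.mulLeft K (1 : A)) = ⊤ := by
      rw [LinearMap.range_eq_top]; intro z; exact ⟨z, by simp⟩
    rw [this, finrank_top]
    have := Fintype.ofFinite G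
    rw [Module.finrank_eq_card_basis T.b, Nat.card_eq_fintype_card]
  have h5 : dl K ε = Q.index * finrank K (T.Rc Q ε) := by
    rw [finrank_Rc h]
    exact T.dl_sub Q ⟨ε, h.mem⟩ (Subtype.ext h.idem)
  rw [h4, h5, ← Q.card_mul_index] at h3
  have h6 : 0 < Q.index := Nat.pos_of_ne_zero Subgroup.index_ne_zero_of_finite
  refine ⟨(orb P T ε).card, ?_⟩
  apply Nat.eq_of_mul_eq_mul_right h6
  rw [h3]; ring

end orbit

end MinC

end TGA

end Pool.MP_9ebf7f_al.Sol
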