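import Pool.Agent.Lib.MP_9ebf7f_al.Cyclic

/-!
# The groups `PSL(2, F)` have good primes
-/

set_option autoImplicit false

namespace Pool.MP_9ebf7f_al.Sol

open Matrix Subgroup
open scoped MatrixGroups

section unip

variable {E : Type*} [Field E]

lemma unip_eq_one {H : Matrix (Fin 2) (Fin 2) E} (hdet : H.det = 1) {v : Fin 2 → E} (hv : v ≠ 0)
    (hHv : H *ᵥ v = v) {n : ℕ} (hn : (n : E) ≠ 0) (hHn : H ^ n = 1) : H = 1 := by
  rw [Matrix.det_fin_two] at hdet
  have e0 := congrFun hHv 0
  have e1 := congrFun hHv 1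
  simp only [Matrix.mulVec, dotProduct, Fin.sum_univ_two] at e0 e1
  have hd : (H 0 0 - 1) * (H 1 1 - 1) - H 0 1 * H 1 0 = 0 := by
    by_cases h0 : v 0 = 0
    · have h1 : v 1 ≠ 0 := by
        intro h1
        apply hv
        funext i
        fin_cases i
        · exact h0
        · exact h1
      apply mul_right_cancel₀ h1
      linear_combination (H 0 0 - 1) * e1 - H 1 0 * e0
    · apply mul_right_cancel₀ h0
      linear_combination (H 1 1 - 1) * e0 - H 0 1 * e1
  have htr : (H 0 0 - 1) + (H 1 1 - 1) = 0 := by linear_combination hdet - hd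
  have hN : (H - 1) * (H - 1) = 0 := by
    ext i j
    fin_cases i <;> fin_cases j <;>
      simp [Matrix.mul_apply, Fin.sum_univ_two] <;>
      first
        | linear_combination (H 0 0 - 1) * htr - hd
        | linear_combination (H 0 1) * htr
        | linear_combination (H 1 0) * htr
        | linear_combination (H 1 1 - 1) * htr - hd
  have hpow : ∀ m : ℕ, H ^ m = 1 + (m : E) • (H - 1) := by
    intro m
    induction m with
    | zero => simp
    | succ m ih =>
      rw [pow_succ, ih]
      have : (1 + (m : E) • (H - 1)) * H = (1 + (m : E) • (H - 1)) * (1 + (H - 1)) := by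
        rw [add_sub_cancel]
      rw [this, add_mul, mul_add, mul_add, one_mul, one_mul, mul_one, smul_mul_assoc, hN,
        smul_zero, add_zero, Nat.cast_succ, add_smul, one_smul]
      abel
  rw [hpow n, add_eq_left] at hHn
  have := (smul_eq_zero.mp hHn).resolve_left hn
  exact sub_eq_zero.mp this

lemma scalar_of_two {M : Matrix (Fin 2) (Fin 2) E} {c : E} {v w : Fin 2 → E}
    (hv : M *ᵥ v = c • v) (hw : M *ᵥ w = c • w) (hD : v 0 * w 1 - v 1 * w 0 ≠ 0) :
    M = c • (1 : Matrix (Fin 2) (Fin 2) E) := by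
  have v0 := congrFun hv 0
  have v1 := congrFun hv 1
  have w0 := congrFun hw 0
  have w1 := congrFun hw 1
  simp only [Matrix.mulVec, dotProduct, Fin.sum_univ_two, Pi.smul_apply, smul_eq_mul] at v0 v1 w0 w1
  have a : M 0 0 = c := by
    apply mul_right_cancel₀ hD
    linear_combination w 1 * v0 - v 1 * w0
  have b : M 0 1 = 0 := by
    apply mul_right_cancel₀ hD
    linear_combination v 0 * w0 - w 0 * v0
  have d : M 1 0 = 0 := by
    apply mul_right_cancel₀ hD
    linear_combination w 1 * v1 - v 1 * w1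
  have e : M 1 1 = c := by
    apply mul_right_cancel₀ hD
    linear_combination v 0 * w1 - w 0 * v1
  ext i j
  fin_cases i <;> fin_cases j <;> simp [a, b, d, e]

end unip

section sl2

variable {F : Type} [Field F]

theorem sl2_cyclic_aux [Finite F] {r : ℕ} [hr : Fact r.Prime] (hr2 : r ≠ 2) (hrF : (r : F) ≠ 0)
    (R : Subgroup SL(2, F)) (hR : IsPGroup r R) (E : Type) [Field E] [IsAlgClosed E]
    [Algebra F E] : IsCyclic R := by
  by_cases hnt : Nontrivial R
  swap
  · have := not_nontrivial_iff_subsingleton.mp hnt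
    infer_instance
  have hcn := hR.center_nontrivial
  obtain ⟨⟨g, hg⟩, hg1⟩ := exists_ne (1 : center R)
  have hg1' : (g : SL(2, F)) ≠ 1 := by
    intro h
    apply hg1
    exact Subtype.ext (Subtype.ext h)
  have hgc : ∀ h : R, (g : SL(2, F)) * h = h * g := by
    intro h
    exact (congrArg Subtype.val ((mem_center_iff.mp hg) h)).symm
  let m : SL(2, F) → Matrix (Fin 2) (Fin 2) E := fun h =>
    ((SpecialLinearGroup.map (algebraMap F E) h : SL(2, E)) : Matrix (Fin 2) (Fin 2) E)
  have m_mul : ∀ h h', m (h * h') = m h * m h' := by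
    intro h h'
    change ((SpecialLinearGroup.map (algebraMap F E) (h * h') : SL(2, E)) :
      Matrix (Fin 2) (Fin 2) E) = _
    rw [map_mul]; rfl
  have m_one : m 1 = 1 := by
    change ((SpecialLinearGroup.map (algebraMap F E) 1 : SL(2, E)) :
      Matrix (Fin 2) (Fin 2) E) = _
    rw [map_one]; rfl
  have m_pow : ∀ h (n : ℕ), m (h ^ n) = m h ^ n := by
    intro h n
    induction n with
    | zero => rw [pow_zero, pow_zero, m_one]
    | succ n ih => rw [pow_succ, pow_succ, m_mul, ih]
  have m_det : ∀ h, (m h).det = 1 := fun h =>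
    (SpecialLinearGroup.map (algebraMap F E) h : SL(2, E)).2
  have m_inj : ∀ h, m h = 1 → h = 1 := by
    intro h hh
    ext i j
    have h1 : (m h) i j = (1 : Matrix (Fin 2) (Fin 2) E) i j := by rw [hh]
    have h2 : (m h) i j = algebraMap F E (h.1 i j) := rfl
    rw [h2] at h1
    apply (algebraMap F E).injective
    change algebraMap F E (h.1 i j) = algebraMap F E ((1 : Matrix (Fin 2) (Fin 2) F) i j)
    rw [h1]
    fin_cases i <;> fin_cases j <;> simp
  obtain ⟨c, hc⟩ := Module.End.exists_eigenvalue (Matrix.toLin' (m g))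
  obtain ⟨v, hv⟩ := hc.exists_hasEigenvector
  have hgv : m g *ᵥ v = c • v := by
    have := hv.apply_eq_smul
    rwa [Matrix.toLin'_apply] at this
  have hv0 : v ≠ 0 := hv.2
  have hord : ∀ h : R, ∃ k, (h : SL(2, F)) ^ r ^ k = 1 := by
    intro h
    obtain ⟨k, hk⟩ := hR h
    exact ⟨k, congrArg Subtype.val hk⟩
  have key : ∀ h : R, ∃ μ : E, m h *ᵥ v = μ • v := by
    intro h
    obtain ⟨w, hw⟩ : ∃ w, w = m h *ᵥ v := ⟨_, rfl⟩
    have hgw : m g *ᵥ w = c • w := by
      rw [hw, Matrix.mulVec_mulVec, ← m_mul, hgc h, m_mul, ← Matrix.mulVec_mulVec, hgv,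
        Matrix.mulVec_smul]
    rw [← hw]
    by_cases hD : v 0 * w 1 - v 1 * w 0 = 0
    · by_cases h0 : v 0 = 0
      · have h1 : v 1 ≠ 0 := by
          intro h1
          apply hv0
          funext i
          fin_cases i
          · exact h0
          · exact h1
        refine ⟨w 1 / v 1, ?_⟩
        funext i
        fin_cases i
        · change w 0 = w 1 / v 1 * v 0
          rw [h0, mul_zero]
          rw [h0, zero_mul, zero_sub, neg_eq_zero] at hD
          exact (mul_eq_zero.mp hD).resolve_left h1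
        · change w 1 = w 1 / v 1 * v 1
          rw [div_mul_cancel₀ _ h1]
      · refine ⟨w 0 / v 0, ?_⟩
        funext i
        fin_cases i
        · change w 0 = w 0 / v 0 * v 0
          rw [div_mul_cancel₀ _ h0]
        · change w 1 = w 0 / v 0 * v 1
          field_simp
          linear_combination hD
    · exfalso
      have hM := scalar_of_two hgv hgw hD
      obtain ⟨k, hk⟩ := hord g
      have h1 : c ^ 2 = 1 := by
        have := m_det g
        rw [hM, Matrix.det_smul, Matrix.det_one, Fintype.card_fin, mul_one] at this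
        exact this
      have h2 : c ^ r ^ k = 1 := by
        have h3 : (m g) ^ r ^ k = 1 := by rw [← m_pow, hk, m_one]
        rw [hM, smul_pow, one_pow] at h3
        have h4 := congrFun (congrFun h3 0) 0
        simpa using h4
      have h3 : Odd (r ^ k) := (hr.out.odd_of_ne_two hr2).pow
      obtain ⟨t, ht⟩ := h3
      have h4 : c = 1 := by
        rw [ht, pow_add, pow_mul, h1, one_pow, one_mul, pow_one] at h2
        exact h2
      apply hg1'
      apply m_inj
      rw [hM, h4, one_smul]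
  choose μ hμ using key
  have huniq : ∀ a b : E, a • v = b • v → a = b := fun a b h => smul_left_injective E hv0 h
  let f : R →* E :=
    { toFun := μ
      map_one' := by
        apply huniq
        rw [← hμ, one_smul]
        change m 1 *ᵥ v = v
        rw [m_one, Matrix.one_mulVec]
      map_mul' := by
        intro h h'
        apply huniq
        rw [← hμ]
        change m ((h : SL(2, F)) * h') *ᵥ v = _
        rw [m_mul, ← Matrix.mulVec_mulVec, hμ h', Matrix.mulVec_smul, hμ h, smul_smul, mul_comm] }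
  have hf : Function.Injective f := by
    rw [injective_iff_map_eq_one]
    intro h hh
    have h1 : m h *ᵥ v = v := by
      rw [hμ h]
      change f h • v = v
      rw [hh, one_smul]
    obtain ⟨k, hk⟩ := hord h
    have h2 : ((r ^ k : ℕ) : E) ≠ 0 := by
      rw [Nat.cast_pow]
      apply pow_ne_zero
      intro h0
      apply hrF
      apply (algebraMap F E).injective
      rw [map_natCast, map_zero, h0]
    have h3 := unip_eq_one (m_det h) hv0 h1 h2 (by rw [← m_pow, hk, m_one])
    exact Subtype.ext (m_inj _ h3)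
  exact isCyclic_of_injective_ringHom f hf

/-- Subgroups of `SL(2, F)` which are `r`-groups are cyclic if `r` is odd and `r ≠ char F`. -/
theorem sl2_cyclic [Finite F] {r : ℕ} [hr : Fact r.Prime] (hr2 : r ≠ 2) (hrF : (r : F) ≠ 0)
    (R : Subgroup SL(2, F)) (hR : IsPGroup r R) : IsCyclic R :=
  sl2_cyclic_aux hr2 hrF R hR (AlgebraicClosure F)

/-- upper unipotent -/
def up (x : F) : SL(2, F) := ⟨!![1, x; 0, 1], by simp [Matrix.det_fin_two_of]⟩

/-- lower unipotent -/
def lo (x : F) : SL(2, F) := ⟨!![1, 0; x, 1], by simp [Matrix.det_fin_two_of]⟩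

/-- Weyl element -/
def wl (x : F) (hx : x ≠ 0) : SL(2, F) :=
  ⟨!![0, -x⁻¹; x, 0], by simp [Matrix.det_fin_two_of, hx]⟩

lemma up_mul (x y : F) : up x * up y = up (x + y) := by
  apply Subtype.ext
  change !![1, x; 0, 1] * !![1, y; 0, 1] = !![1, x + y; 0, 1]
  ext i j
  fin_cases i <;> fin_cases j <;> simp [Matrix.mul_apply, Fin.sum_univ_two, add_comm]

lemma up_zero : up (0 : F) = 1 := by
  apply Subtype.ext
  change !![1, 0; 0, 1] = (1 : Matrix (Fin 2) (Fin 2) F)
  exact Matrix.one_fin_two.symm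

lemma up_pow (x : F) (n : ℕ) : up x ^ n = up (n • x) := by
  induction n with
  | zero => rw [pow_zero, zero_smul, up_zero]
  | succ n ih => rw [pow_succ, ih, up_mul, succ_nsmul]

/-- Borel subgroup -/
def bor (F : Type) [Field F] : Subgroup SL(2, F) where
  carrier := {h | h.1 1 0 = 0}
  one_mem' := by
    change (1 : Matrix (Fin 2) (Fin 2) F) 1 0 = 0
    simp
  mul_mem' := by
    intro a b ha hb
    change (a.1 * b.1) 1 0 = 0
    have ha' : a.1 1 0 = 0 := ha
    have hb' : b.1 1 0 = 0 := hb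
    rw [Matrix.mul_apply, Fin.sum_univ_two, ha', hb', zero_mul, mul_zero, add_zero]
  inv_mem' := by
    intro a ha
    have ha' : a.1 1 0 = 0 := ha
    change (a.1.adjugate) 1 0 = 0
    rw [Matrix.adjugate_fin_two]
    simp [ha']

lemma mem_bor {h : SL(2, F)} : h ∈ bor F ↔ h.1 1 0 = 0 := Iff.rfl

lemma inv_mul_entry (g g' : SL(2, F)) :
    (g⁻¹ * g').1 1 0 = g.1 0 0 * g'.1 1 0 - g.1 1 0 * g'.1 0 0 := by
  change (g.1.adjugate * g'.1) 1 0 = _
  rw [Matrix.adjugate_fin_two, Matrix.mul_apply, Fin.sum_univ_two]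
  simp
  ring

open Classical in
/-- the point of the projective line -/
noncomputable def pnt (g : SL(2, F)) : Option F :=
  if g.1 1 0 = 0 then none else some (g.1 0 0 / g.1 1 0)

lemma det_eq (g : SL(2, F)) : g.1 0 0 * g.1 1 1 - g.1 0 1 * g.1 1 0 = 1 := by
  rw [← Matrix.det_fin_two]; exact g.2

lemma pnt_eq_iff (g g' : SL(2, F)) : pnt g = pnt g' ↔ g⁻¹ * g' ∈ bor F := by
  rw [mem_bor, inv_mul_entry]
  unfold pnt
  have d := det_eq g
  have d' := det_eq g'
  by_cases h : g.1 1 0 = 0
  · by_cases h' : g'.1 1 0 = 0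
    · simp [h, h']
    · simp only [h, h', if_true, if_false]
      constructor
      · intro h2; exact absurd h2 (by simp)
      · intro h2
        exfalso
        rw [zero_mul, sub_zero] at h2
        rcases mul_eq_zero.mp h2 with h3 | h3
        · rw [h3, h] at d; simp at d
        · exact h' h3
  · by_cases h' : g'.1 1 0 = 0
    · simp only [h, h', if_true, if_false]
      constructor
      · intro h2; exact absurd h2 (by simp)
      · intro h2
        exfalso
        rw [mul_zero, zero_sub, neg_eq_zero] at h2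
        rcases mul_eq_zero.mp h2 with h3 | h3
        · exact h h3
        · rw [h3, h'] at d'; simp at d'
    · simp only [h, h', if_false, Option.some.injEq]
      rw [div_eq_div_iff h h', sub_eq_zero, mul_comm (g'.1 0 0)]

lemma pnt_surj : Function.Surjective (pnt : SL(2, F) → Option F) := by
  intro x
  cases x with
  | none =>
    refine ⟨1, ?_⟩
    unfold pnt
    rw [if_pos]
    change (1 : Matrix (Fin 2) (Fin 2) F) 1 0 = 0
    simp
  | some x =>
    refine ⟨⟨!![x, -1; 1, 0], by simp [Matrix.det_fin_two_of]⟩, ?_⟩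
    unfold pnt
    simp

lemma bor_index [Finite F] : (bor F).index = Nat.card F + 1 := by
  unfold Subgroup.index
  rw [← Finite.card_option]
  apply Nat.card_congr
  refine Equiv.ofBijective (Quotient.lift pnt (fun a b hab => ?_)) ⟨?_, ?_⟩
  · rw [pnt_eq_iff]
    exact QuotientGroup.leftRel_apply.mp hab
  · intro x y
    induction x using Quotient.inductionOn
    induction y using Quotient.inductionOn
    intro h
    apply Quotient.sound
    exact QuotientGroup.leftRel_apply.mpr ((pnt_eq_iff _ _).mp h)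
  · intro x
    obtain ⟨g, hg⟩ := pnt_surj x
    exact ⟨Quotient.mk _ g, hg⟩

lemma wl_calc (M : Matrix (Fin 2) (Fin 2) F) (hc : M 1 0 ≠ 0)
    (d : M 0 0 * M 1 1 - M 0 1 * M 1 0 = 1) :
    !![0, -(M 1 0)⁻¹; M 1 0, 0] = !![1, -(M 0 0 / M 1 0); 0, 1] * M *
        !![1, -(M 1 1 / M 1 0); 0, 1] := by
  have hM : M = !![M 0 0, M 0 1; M 1 0, M 1 1] := Matrix.eta_fin_two M
  generalize M 0 0 = a at *
  generalize M 0 1 = b at *
  generalize M 1 0 = c at *
  generalize M 1 1 = e at *
  subst hM
  rw [Matrix.mul_fin_two, Matrix.mul_fin_two]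
  ext i j
  fin_cases i <;> fin_cases j
  · change 0 = (1 * a + -(a / c) * c) * 1 + (1 * b + -(a / c) * e) * 0
    field_simp
    ring
  · change -c⁻¹ = (1 * a + -(a / c) * c) * (-(e / c)) + (1 * b + -(a / c) * e) * 1
    field_simp
    linear_combination d
  · change c = (0 * a + 1 * c) * 1 + (0 * b + 1 * e) * 0
    ring
  · change 0 = (0 * a + 1 * c) * (-(e / c)) + (0 * b + 1 * e) * 1
    field_simp
    ring

/-- A subgroup which contains the upper unipotents and is not in the Borel subgroup is everything. -/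
lemma sl2_gen {H : Subgroup SL(2, F)} (hup : ∀ x, up x ∈ H) {h : SL(2, F)} (hh : h ∈ H)
    (hc : h.1 1 0 ≠ 0) : H = ⊤ := by
  have hw : wl (h.1 1 0) hc ∈ H := by
    have e1 : wl (h.1 1 0) hc = up (-(h.1 0 0 / h.1 1 0)) * h * up (-(h.1 1 1 / h.1 1 0)) := by
      have d := det_eq h
      apply Subtype.ext
      change !![0, -(h.1 1 0)⁻¹; h.1 1 0, 0] = !![1, -(h.1 0 0 / h.1 1 0); 0, 1] * h.1 *
        !![1, -(h.1 1 1 / h.1 1 0); 0, 1]
      exact wl_calc h.1 hc d
    rw [e1]
    exact H.mul_mem (H.mul_mem (hup _) hh) (hup _)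
  have hlo : ∀ y, lo y ∈ H := by
    intro y
    have e1 : lo y = wl (h.1 1 0) hc * up (-(y / (h.1 1 0) ^ 2)) * (wl (h.1 1 0) hc)⁻¹ := by
      rw [eq_mul_inv_iff_mul_eq]
      apply Subtype.ext
      change !![1, 0; y, 1] * !![0, -(h.1 1 0)⁻¹; h.1 1 0, 0] =
        !![0, -(h.1 1 0)⁻¹; h.1 1 0, 0] * !![1, -(y / (h.1 1 0) ^ 2); 0, 1]
      ext i j
      fin_cases i <;> fin_cases j <;> simp [Matrix.mul_apply, Fin.sum_univ_two]
      field_simp
    rw [e1]
    exact H.mul_mem (H.mul_mem hw (hup _)) (H.inv_mem hw)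
  rw [eq_top_iff]
  intro A _
  refine Matrix.SL2.transvection_induction (fun A => A ∈ H) ?_ (fun A B => H.mul_mem) A
  intro i j hij c
  fin_cases i <;> fin_cases j
  · exact absurd rfl hij
  · convert hup c using 1
    apply Subtype.ext
    rw [SpecialLinearGroup.transvection_coe]
    change _ = !![1, c; 0, 1]
    ext i j
    fin_cases i <;> fin_cases j <;> simp
  · convert hlo c using 1
    apply Subtype.ext
    rw [SpecialLinearGroup.transvection_coe]
    change _ = !![1, 0; c, 1]
    ext i j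
    fin_cases i <;> fin_cases j <;> simp
  · exact absurd rfl hij

/-- `SL(2, F)` has no proper subgroup of index `r ^ k` if `|F| + 1` is not a power of `r`. -/
theorem sl2_index [Finite F] {r : ℕ} (hr : r.Prime) (hrF : (r : F) ≠ 0)
    (hQ : ∀ j, Nat.card F + 1 ≠ r ^ j) (H : Subgroup SL(2, F)) {k : ℕ} (hk : H.index = r ^ k) :
    H = ⊤ := by
  obtain ⟨p, hp⟩ := CharP.exists F
  have hpp : p.Prime := (CharP.char_is_prime_or_zero F p).resolve_right
    (CharP.char_ne_zero_of_finite F p)
  have hfact : Fact p.Prime := ⟨hpp⟩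
  have hpr : ¬ p ∣ r ^ k := by
    intro h
    have h1 := hpp.dvd_of_dvd_pow h
    have h2 := (Nat.prime_dvd_prime_iff_eq hpp hr).mp h1
    apply hrF
    rw [← h2]
    exact CharP.cast_eq_zero F p
  let U : Subgroup SL(2, F) :=
    { carrier := Set.range up
      one_mem' := ⟨0, up_zero⟩
      mul_mem' := by
        rintro _ _ ⟨x, rfl⟩ ⟨y, rfl⟩
        exact ⟨x + y, (up_mul x y).symm⟩
      inv_mem' := by
        rintro _ ⟨x, rfl⟩
        refine ⟨-x, ?_⟩
        rw [eq_comm, inv_eq_iff_mul_eq_one, up_mul, add_neg_cancel, up_zero] }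
  have hU : IsPGroup p U := by
    rintro ⟨_, ⟨x, rfl⟩⟩
    refine ⟨1, ?_⟩
    apply Subtype.ext
    change up x ^ p ^ 1 = 1
    rw [pow_one, up_pow, nsmul_eq_mul, CharP.cast_eq_zero, zero_mul, up_zero]
  obtain ⟨x, hx⟩ := hU.nonempty_fixed_point_of_prime_not_dvd_card (SL(2, F) ⧸ H)
    (by change ¬ p ∣ H.index; rw [hk]; exact hpr)
  induction x using QuotientGroup.induction_on with
  | H g =>
    let H' : Subgroup SL(2, F) := H.comap (MulAut.conj g⁻¹).toMonoidHom
    have hH' : ∀ s, s ∈ H' ↔ g⁻¹ * s * g ∈ H := by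
      intro s
      change g⁻¹ * s * g⁻¹⁻¹ ∈ H ↔ _
      rw [inv_inv]
    have hidx : H'.index = r ^ k := by
      rw [← hk]
      exact index_comap_of_surjective _ (f := (MulAut.conj g⁻¹).toMonoidHom)
        (MulAut.conj g⁻¹).surjective
    have hup : ∀ x, up x ∈ H' := by
      intro x
      rw [hH']
      have h1 := hx ⟨up (-x), ⟨-x, rfl⟩⟩
      have h2 : (QuotientGroup.mk (up (-x) * g) : SL(2, F) ⧸ H) = QuotientGroup.mk g := h1
      rw [QuotientGroup.eq] at h2
      have h3 : (up (-x))⁻¹ = up x := by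
        rw [inv_eq_iff_mul_eq_one, up_mul, neg_add_cancel, up_zero]
      rwa [_root_.mul_inv_rev, h3] at h2
    have hH'top : H' = ⊤ := by
      by_cases hb : ∃ h ∈ H', h.1 1 0 ≠ 0
      · obtain ⟨h, hh, hc⟩ := hb
        exact sl2_gen hup hh hc
      · exfalso
        push Not at hb
        have h1 : H' ≤ bor F := fun h hh => hb h hh
        have h2 := index_dvd_of_le h1
        rw [bor_index, hidx] at h2
        obtain ⟨j, _, hj⟩ := (Nat.dvd_prime_pow hr).mp h2
        exact hQ j hj
    rw [eq_top_iff]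
    intro s _
    have h1 : g * s * g⁻¹ ∈ H' := by rw [hH'top]; trivial
    rw [hH'] at h1
    have e1 : g⁻¹ * (g * s * g⁻¹) * g = s := by group
    rwa [e1] at h1

/-- diagonal matrices -/
def dg : Fˣ →* SL(2, F) where
  toFun a := ⟨!![(a : F), 0; 0, ((a⁻¹ : Fˣ) : F)], by simp [Matrix.det_fin_two_of]⟩
  map_one' := by
    apply Subtype.ext
    change !![((1 : Fˣ) : F), 0; 0, (((1 : Fˣ)⁻¹ : Fˣ) : F)] = (1 : Matrix (Fin 2) (Fin 2) F)
    rw [inv_one, Units.val_one]
    exact Matrix.one_fin_two.symm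
  map_mul' a b := by
    apply Subtype.ext
    change !![((a * b : Fˣ) : F), 0; 0, (((a * b)⁻¹ : Fˣ) : F)] =
      !![(a : F), 0; 0, ((a⁻¹ : Fˣ) : F)] * !![(b : F), 0; 0, ((b⁻¹ : Fˣ) : F)]
    ext i j
    fin_cases i <;> fin_cases j <;> simp [Matrix.mul_apply, Fin.sum_univ_two, mul_comm]

lemma dg_inj : Function.Injective (dg : Fˣ →* SL(2, F)) := by
  intro a b h
  have h1 := congrArg (fun s : SL(2, F) => s.1 0 0) h
  exact Units.ext h1

/-- odd primes dividing `|F|^2 - 1` divide the order of `PSL(2, F)` -/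
lemma dvd_card_psl [Finite F] {r : ℕ} (hr : r.Prime) (hr2 : r ≠ 2)
    (h : r ∣ Nat.card F - 1 ∨ r ∣ Nat.card F + 1) : r ∣ Nat.card PSL(2, F) := by
  have hfact : Fact r.Prime := ⟨hr⟩
  have h1 : r ∣ Nat.card SL(2, F) := by
    rcases h with h | h
    · have h2 := card_dvd_of_injective (dg : Fˣ →* SL(2, F)) dg_inj
      rw [Nat.card_units] at h2
      exact h.trans h2
    · rw [← bor_index] at h
      exact h.trans (index_dvd_card _)
  have h2 : ¬ r ∣ Nat.card (center SL(2, F)) := by
    intro h3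
    obtain ⟨z, hz⟩ := exists_prime_orderOf_dvd_card' (G := center SL(2, F)) r h3
    obtain ⟨c, hc, hcz⟩ := Matrix.SpecialLinearGroup.mem_center_iff.mp z.2
    have h4 : z ^ 2 = 1 := by
      apply Subtype.ext
      apply Subtype.ext
      change (z.1 : Matrix (Fin 2) (Fin 2) F) ^ 2 = 1
      rw [← hcz, ← map_pow]
      rw [Fintype.card_fin] at hc
      rw [hc, map_one]
    have h5 := orderOf_dvd_of_pow_eq_one h4
    rw [hz] at h5
    exact hr2 ((Nat.prime_dvd_prime_iff_eq hr Nat.prime_two).mp h5)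
  have h3 := (center SL(2, F)).card_eq_card_quotient_mul_card_subgroup
  rw [h3] at h1
  exact ((Nat.Prime.dvd_mul hr).mp h1).resolve_right h2

/-- existence of a suitable prime -/
lemma exists_psl_prime {Q : ℕ} (hQ : 4 ≤ Q) : ∃ r, r.Prime ∧ r ≠ 2 ∧
    (r ∣ Q - 1 ∨ r ∣ Q + 1) ∧ ¬ r ∣ Q ∧ ∀ j, Q + 1 ≠ r ^ j := by
  have hcop : ∀ r, r.Prime → (r ∣ Q - 1 ∨ r ∣ Q + 1) → ¬ r ∣ Q := by
    intro r hr h hd
    have h1 : r ∣ 1 := by
      rcases h with h | h
      · have := Nat.dvd_sub hd h
        rwa [show Q - (Q - 1) = 1 by omega] at this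
      · have := Nat.dvd_sub h hd
        rwa [show Q + 1 - Q = 1 by omega] at this
    exact hr.one_lt.ne' (Nat.dvd_one.mp h1)
  rcases Nat.even_or_odd Q with he | ho
  · -- `Q` even
    obtain ⟨r, hr, hrd⟩ := Nat.exists_prime_and_dvd (n := Q - 1) (by omega)
    have hr2 : r ≠ 2 := by
      rintro rfl
      obtain ⟨t, ht⟩ := he
      obtain ⟨s, hs⟩ := hrd
      omega
    refine ⟨r, hr, hr2, Or.inl hrd, hcop r hr (Or.inl hrd), ?_⟩
    intro j hj
    have hj0 : j ≠ 0 := by
      rintro rfl
      rw [pow_zero] at hj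
      omega
    have h1 : r ∣ Q + 1 := by rw [hj]; exact dvd_pow_self r hj0
    have h2 : r ∣ 2 := by
      have := Nat.dvd_sub h1 hrd
      rwa [show Q + 1 - (Q - 1) = 2 by omega] at this
    exact hr2 ((Nat.prime_dvd_prime_iff_eq hr Nat.prime_two).mp h2)
  · -- `Q` odd
    obtain ⟨r, hr, hr2, hrd⟩ : ∃ r, r.Prime ∧ r ≠ 2 ∧ (r ∣ Q - 1 ∨ r ∣ Q + 1) := by
      by_contra hcon
      push Not at hcon
      have h1 : Q - 1 = 2 ^ (Q - 1).primeFactorsList.length := by
        apply Nat.eq_prime_pow_of_unique_prime_dvd (by omega)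
        intro d hd hdd
        by_contra h2
        exact (hcon d hd h2).1 hdd
      have h2 : Q + 1 = 2 ^ (Q + 1).primeFactorsList.length := by
        apply Nat.eq_prime_pow_of_unique_prime_dvd (by omega)
        intro d hd hdd
        by_contra h2
        exact (hcon d hd h2).2 hdd
      obtain ⟨a, ha⟩ : ∃ a, a = (Q - 1).primeFactorsList.length := ⟨_, rfl⟩
      obtain ⟨b, hb⟩ : ∃ b, b = (Q + 1).primeFactorsList.length := ⟨_, rfl⟩
      rw [← ha] at h1
      rw [← hb] at h2
      have ha2 : 2 ≤ a := by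
        by_contra h3
        have : a ≤ 1 := by omega
        have h4 : 2 ^ a ≤ 2 ^ 1 := Nat.pow_le_pow_right (by norm_num) this
        omega
      have hb2 : 2 ≤ b := by
        by_contra h3
        have : b ≤ 1 := by omega
        have h4 : 2 ^ b ≤ 2 ^ 1 := Nat.pow_le_pow_right (by norm_num) this
        omega
      have h3 : 4 ∣ Q - 1 := by
        rw [h1]; exact pow_dvd_pow 2 ha2
      have h4 : 4 ∣ Q + 1 := by
        rw [h2]; exact pow_dvd_pow 2 hb2
      omega
    refine ⟨r, hr, hr2, hrd, hcop r hr hrd, ?_⟩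
    intro j hj
    have h1 : Odd (r ^ j) := (hr.odd_of_ne_two hr2).pow
    rw [← hj] at h1
    obtain ⟨s, hs⟩ := h1
    obtain ⟨t, ht⟩ := ho
    omega

/-- `PSL(2, F)` has a good prime -/
theorem psl_good [Finite F] (hF : 4 ≤ Nat.card F) : ∃ r, r.Prime ∧ r ∣ Nat.card PSL(2, F) ∧
    NoIdx r PSL(2, F) ∧ ∀ _ : Fact r.Prime, NoMult r PSL(2, F) := by
  obtain ⟨r, hr, hr2, hrd, hrQ, hrj⟩ := exists_psl_prime hF
  have hfact : Fact r.Prime := ⟨hr⟩
  have hrF : (r : F) ≠ 0 := by
    intro h0
    obtain ⟨p, hp⟩ := CharP.exists F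
    have hpp : p.Prime := (CharP.char_is_prime_or_zero F p).resolve_right
      (CharP.char_ne_zero_of_finite F p)
    have h1 : p ∣ r := (CharP.cast_eq_zero_iff F p r).mp h0
    have h2 := (Nat.prime_dvd_prime_iff_eq hpp hr).mp h1
    apply hrQ
    rw [← h2]
    have : Fact p.Prime := ⟨hpp⟩
    have hft := Fintype.ofFinite F
    obtain ⟨n, _, hn⟩ := FiniteField.card F p
    rw [Nat.card_eq_fintype_card, hn]
    exact dvd_pow_self p n.ne_zero
  refine ⟨r, hr, dvd_card_psl hr hr2 hrd, ?_, ?_⟩
  · intro H k hk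
    have h1 : H.comap (QuotientGroup.mk' (center SL(2, F))) = ⊤ := by
      apply sl2_index hr hrF hrj _ (k := k)
      rw [index_comap_of_surjective _ (QuotientGroup.mk'_surjective _), hk]
    rw [← map_comap_eq_self_of_surjective (QuotientGroup.mk'_surjective _) H, h1,
      Subgroup.map_top_of_surjective _ (QuotientGroup.mk'_surjective _)]
  · intro _
    apply noMult_of_cyclic
    intro P
    obtain ⟨R, hR⟩ := Sylow.mapSurjective_surjective
      (QuotientGroup.mk'_surjective (center SL(2, F))) r P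
    have hRc : IsCyclic (R : Subgroup SL(2, F)) := sl2_cyclic hr2 hrF R R.2
    have hPR : (R : Subgroup SL(2, F)).map (QuotientGroup.mk' (center SL(2, F))) = P := by
      rw [← hR]; rfl
    have h1 : IsCyclic ((R : Subgroup SL(2, F)).map (QuotientGroup.mk' (center SL(2, F)))) :=
      isCyclic_of_surjective _ ((QuotientGroup.mk' (center SL(2, F))).subgroupMap_surjective R)
    rw [hPR] at h1
    exact h1

end sl2

end Pool.MP_9ebf7f_al.Sol
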