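import Pool.Agent.Lib.MP_9ebf7f_al.DJ

/-!
# Skolem-Noether for simple corner subrings (elementwise)
-/

set_option autoImplicit false

namespace Pool.MP_9ebf7f_al.Sol

open Module

/-- `R` is a subspace of `A`, closed under multiplication, with identity `ε`, and simple. -/
structure SR {K A : Type*} [Field K] [Ring A] [Algebra K A] (R : Submodule K A) (ε : A) :
    Prop where
  mul : ∀ x ∈ R, ∀ y ∈ R, x * y ∈ R
  one : ε ∈ R
  one_mul : ∀ x ∈ R, ε * x = x
  mul_one : ∀ x ∈ R, x * ε = x
  simple : ∀ I : Submodule K A, I ≤ R → (∀ p ∈ R, ∀ x ∈ I, p * x ∈ I ∧ x * p ∈ I) → I ≠ ⊥ → ε ∈ I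

/-- central elements of `R` -/
def IsC {K A : Type*} [Field K] [Ring A] [Algebra K A] (R : Submodule K A) (z : A) : Prop :=
  z ∈ R ∧ ∀ x ∈ R, z * x = x * z

namespace SR

variable {K A : Type*} [Field K] [Ring A] [Algebra K A] {R : Submodule K A} {ε : A}

lemma c_zero : IsC R (0 : A) := ⟨R.zero_mem, by simp⟩

lemma c_one (h : SR R ε) : IsC R ε := ⟨h.one, fun x hx => by rw [h.one_mul x hx, h.mul_one x hx]⟩

lemma c_mul (h : SR R ε) {z w : A} (hz : IsC R z) (hw : IsC R w) : IsC R (z * w) :=
  ⟨h.mul z hz.1 w hw.1, fun x hx => by rw [mul_assoc, hw.2 x hx, ← mul_assoc, hz.2 x hx, mul_assoc]⟩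

lemma c_inv (h : SR R ε) {z : A} (hz : IsC R z) (hz0 : z ≠ 0) : ∃ z', IsC R z' ∧ z' * z = ε := by
  have h1 : ε ∈ R.map (LinearMap.mulLeft K z) := by
    apply h.simple
    · rintro _ ⟨x, hx, rfl⟩
      exact h.mul z hz.1 x hx
    · rintro p hp _ ⟨x, hx, rfl⟩
      simp only [LinearMap.mulLeft_apply]
      refine ⟨⟨p * x, h.mul p hp x hx, ?_⟩, ⟨x * p, h.mul x hx p hp, ?_⟩⟩
      · rw [LinearMap.mulLeft_apply, ← mul_assoc, hz.2 p hp, mul_assoc]
      · rw [LinearMap.mulLeft_apply, mul_assoc]
    · intro h0
      have : z ∈ R.map (LinearMap.mulLeft K z) := ⟨ε, h.one, by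
        rw [LinearMap.mulLeft_apply, h.mul_one z hz.1]⟩
      rw [h0, Submodule.mem_bot] at this
      exact hz0 this
  obtain ⟨x, hx, hxe⟩ := h1
  rw [LinearMap.mulLeft_apply] at hxe
  have hxz : x * z = ε := by rw [← hz.2 x hx]; exact hxe
  refine ⟨x, ⟨hx, fun y hy => ?_⟩, hxz⟩
  calc x * y = x * y * (z * x) := by rw [hxe, h.mul_one _ (h.mul x hx y hy)]
    _ = x * (y * z) * x := by simp only [mul_assoc]
    _ = x * (z * y) * x := by rw [hz.2 y hy]
    _ = (x * z) * (y * x) := by simp only [mul_assoc]
    _ = y * x := by rw [hxz, h.one_mul _ (h.mul y hy x hx)]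

/-- Artin-Whaples, independent case -/
lemma aw_indep (h : SR R ε) {ι : Type*} [DecidableEq ι] (y : ι → A) (hy : ∀ i, y i ∈ R)
    (s : Finset ι) :
    (∀ z : ι → A, (∀ i, IsC R (z i)) → ∑ i ∈ s, z i * y i = 0 → ∀ i ∈ s, z i = 0) →
    ∀ x : ι → A, (∀ i, x i ∈ R) → (∀ r ∈ R, ∑ i ∈ s, x i * r * y i = 0) → ∀ i ∈ s, x i = 0 := by
  induction s using Finset.induction_on with
  | empty => simp
  | insert m s hm ih =>
    intro hind x hx hrel
    have hind' : ∀ z : ι → A, (∀ i, IsC R (z i)) → ∑ i ∈ s, z i * y i = 0 → ∀ i ∈ s, z i = 0 := by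
      intro z hz hsum i hi
      have h1 := hind (Function.update z m 0) (fun j => by
        by_cases hj : j = m
        · subst hj; rw [Function.update_self]; exact c_zero
        · rw [Function.update_of_ne hj]; exact hz j) (by
        rw [Finset.sum_insert hm, Function.update_self, zero_mul, zero_add, ← hsum]
        apply Finset.sum_congr rfl
        intro j hj
        have : j ≠ m := fun h' => hm (h' ▸ hj)
        rw [Function.update_of_ne this]) i (Finset.mem_insert_of_mem hi)
      have : i ≠ m := fun h' => hm (h' ▸ hi)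
      rwa [Function.update_of_ne this] at h1
    -- the ideal of possible `m`-th coefficients
    have hxm : x m = 0 := by
      by_contra hne
      let I : Submodule K A :=
        { carrier := {a | ∃ x' : ι → A, (∀ i, x' i ∈ R) ∧
            (∀ r ∈ R, ∑ i ∈ insert m s, x' i * r * y i = 0) ∧ x' m = a}
          zero_mem' := ⟨fun _ => 0, fun _ => R.zero_mem, by simp, rfl⟩
          add_mem' := by
            rintro _ _ ⟨x₁, h1, h2, rfl⟩ ⟨x₂, h3, h4, rfl⟩
            refine ⟨fun i => x₁ i + x₂ i, fun i => R.add_mem (h1 i) (h3 i), ?_, rfl⟩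
            intro r hr
            simp only [add_mul, Finset.sum_add_distrib]
            rw [h2 r hr, h4 r hr, add_zero]
          smul_mem' := by
            rintro c _ ⟨x₁, h1, h2, rfl⟩
            refine ⟨fun i => c • x₁ i, fun i => R.smul_mem c (h1 i), ?_, rfl⟩
            intro r hr
            simp only [smul_mul_assoc]
            rw [← Finset.smul_sum, h2 r hr, smul_zero] }
      have hεI : ε ∈ I := by
        apply h.simple
        · rintro _ ⟨x₁, h1, h2, rfl⟩
          exact h1 m
        · rintro p hp _ ⟨x₁, h1, h2, rfl⟩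
          refine ⟨⟨fun i => p * x₁ i, fun i => h.mul p hp _ (h1 i), ?_, rfl⟩,
            ⟨fun i => x₁ i * p, fun i => h.mul _ (h1 i) p hp, ?_, rfl⟩⟩
          · intro r hr
            simp only [mul_assoc]
            rw [← Finset.mul_sum]
            have := h2 r hr
            simp only [mul_assoc] at this
            rw [this, mul_zero]
          · intro r hr
            have := h2 (p * r) (h.mul p hp r hr)
            simp only [mul_assoc] at this ⊢
            exact this
        · intro h0
          have : x m ∈ I := ⟨x, hx, hrel, rfl⟩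
          rw [h0, Submodule.mem_bot] at this
          exact hne this
      obtain ⟨x', h1, h2, h3⟩ := hεI
      have hcomm : ∀ t ∈ R, ∀ i ∈ s, t * x' i - x' i * t = 0 := by
        intro t ht
        apply ih hind' (fun i => t * x' i - x' i * t)
          (fun i => R.sub_mem (h.mul t ht _ (h1 i)) (h.mul _ (h1 i) t ht))
        intro r hr
        have e1 : ∑ i ∈ insert m s, (t * x' i - x' i * t) * r * y i = 0 := by
          simp only [sub_mul, Finset.sum_sub_distrib]
          have e2 := h2 r hr
          have e3 := h2 (t * r) (h.mul t ht r hr)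
          have e4 : ∑ i ∈ insert m s, t * x' i * r * y i = 0 := by
            have := congrArg (fun z => t * z) e2
            simp only [Finset.mul_sum, mul_zero] at this
            rw [← this]
            apply Finset.sum_congr rfl
            intro i _; simp only [mul_assoc]
          have e5 : ∑ i ∈ insert m s, x' i * t * r * y i = 0 := by
            rw [← e3]
            apply Finset.sum_congr rfl
            intro i _; simp only [mul_assoc]
          rw [e4, e5, sub_zero]
        rw [Finset.sum_insert hm, h3, h.mul_one t ht, h.one_mul t ht, sub_self, zero_mul,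
          zero_mul, zero_add] at e1
        exact e1
      have hC : ∀ i ∈ insert m s, IsC R (x' i) := by
        intro i hi
        rw [Finset.mem_insert] at hi
        rcases hi with rfl | hi
        · rw [h3]; exact h.c_one
        · exact ⟨h1 i, fun t ht => (sub_eq_zero.mp (hcomm t ht i hi)).symm⟩
      have h4 := h2 ε h.one
      -- make a globally central family
      let z : ι → A := fun i => if i ∈ insert m s then x' i else 0
      have hz : ∀ i, IsC R (z i) := by
        intro i
        simp only [z]
        split_ifs with hi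
        · exact hC i hi
        · exact c_zero
      have h5 : ∑ i ∈ insert m s, z i * y i = 0 := by
        rw [← h4]
        apply Finset.sum_congr rfl
        intro i hi
        simp only [z, if_pos hi]
        rw [h.mul_one _ (h1 i)]
      have h6 := hind z hz h5 m (Finset.mem_insert_self m s)
      simp only [z, if_pos (Finset.mem_insert_self m s), h3] at h6
      -- `ε = 0` contradicts `x m ≠ 0`
      apply hne
      rw [← h.one_mul _ (hx m), h6, zero_mul]
    have hrel' : ∀ r ∈ R, ∑ i ∈ s, x i * r * y i = 0 := by
      intro r hr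
      have := hrel r hr
      rwa [Finset.sum_insert hm, hxm, zero_mul, zero_mul, zero_add] at this
    intro i hi
    rw [Finset.mem_insert] at hi
    rcases hi with rfl | hi
    · exact hxm
    · exact ih hind' x hx hrel' i hi

/-- Artin-Whaples: a relation `∑ x r y = 0` on `R` persists for elements commuting with the
centre. -/
lemma aw (h : SR R ε) {ι : Type*} [DecidableEq ι] (w : A) (hw : ∀ z, IsC R z → z * w = w * z) :
    ∀ (n : ℕ) (s : Finset ι), s.card = n → ∀ x y : ι → A, (∀ i, x i ∈ R) → (∀ i, y i ∈ R) →
      (∀ r ∈ R, ∑ i ∈ s, x i * r * y i = 0) → ∑ i ∈ s, x i * w * y i = 0 := by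
  intro n
  induction n with
  | zero =>
    intro s hs x y _ _ _
    rw [Finset.card_eq_zero] at hs
    rw [hs]; simp
  | succ n ih =>
    intro s hs x y hx hy hrel
    by_cases hind : ∀ z : ι → A, (∀ i, IsC R (z i)) → ∑ i ∈ s, z i * y i = 0 → ∀ i ∈ s, z i = 0
    · have h1 := h.aw_indep y hy s hind x hx hrel
      apply Finset.sum_eq_zero
      intro i hi
      rw [h1 i hi, zero_mul, zero_mul]
    · push Not at hind
      obtain ⟨z, hz, hsum, m, hm, hzm⟩ := hind
      obtain ⟨z', hz', hzz⟩ := h.c_inv (hz m) hzm
      have hym : y m = - ∑ i ∈ s.erase m, (z' * z i) * y i := by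
        rw [← Finset.add_sum_erase s _ hm] at hsum
        have h1 := congrArg (fun t => z' * t) hsum
        simp only [mul_add, mul_zero, Finset.mul_sum] at h1
        rw [← mul_assoc, hzz, h.one_mul _ (hy m)] at h1
        rw [eq_neg_iff_add_eq_zero, ← h1]
        congr 1
        apply Finset.sum_congr rfl
        intro i _; rw [mul_assoc]
      have hcard : (s.erase m).card = n := by
        rw [Finset.card_erase_of_mem hm, hs]; rfl
      have gen : ∀ r : A, (∀ t, IsC R t → t * r = r * t) →
          ∑ i ∈ s.erase m, (x i - x m * (z' * z i)) * r * y i = ∑ i ∈ s, x i * r * y i := by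
        intro r hr
        rw [← Finset.add_sum_erase s (fun i => x i * r * y i) hm, hym]
        simp only [sub_mul, Finset.sum_sub_distrib, mul_neg, Finset.mul_sum]
        rw [sub_eq_neg_add]
        congr 1
        congr 1
        apply Finset.sum_congr rfl
        intro i _
        have := hr _ (h.c_mul hz' (hz i))
        calc x m * (z' * z i) * r * y i = x m * ((z' * z i) * r) * y i := by
              simp only [mul_assoc]
          _ = x m * (r * (z' * z i)) * y i := by rw [this]
          _ = _ := by simp only [mul_assoc]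
      have h2 := ih (s.erase m) hcard (fun i => x i - x m * (z' * z i)) y
        (fun i => R.sub_mem (hx i) (h.mul _ (hx m) _ (h.mul _ hz'.1 _ (hz i).1))) hy (by
          intro r hr
          rw [gen r (fun t ht => ht.2 r hr)]
          exact hrel r hr)
      rw [gen w hw] at h2
      exact h2

end SR

end Pool.MP_9ebf7f_al.Sol
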