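import Pool.Agent.Lib.MP_9ebf7f_al.MinC

/-!
# Skolem-Noether for the components of sub twisted group algebras
-/

set_option autoImplicit false

namespace Pool.MP_9ebf7f_al.Sol

open Module

namespace TGA

variable {K G A : Type*} [Field K] [Group G] [Ring A] [Algebra K A] {T : TGA K G A}

namespace MinC

variable {Q : Subgroup G} {ε : A}

lemma conj_mem_Rc {g : G} (hg : g ∈ Subgroup.normalizer (Q : Set G)) (hε : T.conj g ε = ε) {y : A}
    (hy : y ∈ T.Rc Q ε) : T.conj g y ∈ T.Rc Q ε := by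
  refine ⟨T.conj_mem hg hy.1, ?_⟩
  conv_lhs => rw [← hε]
  rw [← map_mul, hy.2]

/-- Skolem-Noether -/
theorem sn [Finite G] (hQ : (Nat.card Q : K) ≠ 0) (h : T.MinC Q ε) {n : G}
    (hn : n ∈ Subgroup.normalizer (Q : Set G)) (hε : T.conj n ε = ε)
    (hz : ∀ z, IsC (T.Rc Q ε) z → T.conj n z = z) :
    ∃ y ∈ T.Rc Q ε, ∃ y' ∈ T.Rc Q ε, y * y' = ε ∧ y' * y = ε ∧
      ∀ u ∈ Q, (y * T.b n) * T.b u = T.b u * (y * T.b n) := by
  classical
  have := Fintype.ofFinite Q
  have hR := h.sr hQ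
  have hninv : n⁻¹ ∈ Subgroup.normalizer (Q : Set G) := (Subgroup.normalizer (Q : Set G)).inv_mem hn
  have hεinv : T.conj n⁻¹ ε = ε := by
    conv_lhs => rw [← hε]
    rw [conj_inv_conj]
  have hεc : ∀ x ∈ T.sub Q, ε * x = x * ε := h.comm
  -- the averaging operator
  have hex : ∃ r ∈ T.Rc Q ε, ∑ u : Q, T.conj u (r * T.b n) ≠ 0 := by
    by_contra hcon
    push Not at hcon
    have hw : ∀ z, IsC (T.Rc Q ε) z → z * ((T.u n)⁻¹ : Aˣ).val = ((T.u n)⁻¹ : Aˣ).val * z := by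
      intro z hzc
      have h1 := hz z hzc
      rw [conj_eq_iff] at h1
      rw [Units.eq_inv_mul_iff_mul_eq, ← mul_assoc]
      apply T.mul_b_cancel (g := n)
      rw [u_val, h1, mul_assoc]
      have : ((T.u n)⁻¹ : Aˣ).val * T.b n = 1 := Units.inv_mul (T.u n)
      rw [this, mul_one]
    have h2 := hR.aw ((T.u n)⁻¹ : Aˣ).val hw (Fintype.card Q) Finset.univ rfl
      (fun u : Q => ε * T.b u) (fun u : Q => ε * T.conj n ((T.u (u : G))⁻¹ : Aˣ).val)
      (fun u => h.mul_mem_Rc (T.b_mem_sub u.2))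
      (fun u => h.mul_mem_Rc (T.conj_mem hn (T.u_inv_mem u.2))) (by
        intro r hr
        have h3 := hcon r hr
        have h4 : (∑ u : Q, ε * T.b u * r * (ε * T.conj n ((T.u (u : G))⁻¹ : Aˣ).val)) * T.b n =
            ∑ u : Q, T.conj u (r * T.b n) := by
          rw [Finset.sum_mul]
          apply Finset.sum_congr rfl
          intro u _
          have h5 : T.conj n ((T.u (u : G))⁻¹ : Aˣ).val ∈ T.sub Q :=
            T.conj_mem hn (T.u_inv_mem u.2)
          calc ε * T.b u * r * (ε * T.conj n ((T.u (u : G))⁻¹ : Aˣ).val) * T.b n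
              = ε * T.b u * (r * ε) * (T.conj n ((T.u (u : G))⁻¹ : Aˣ).val * T.b n) := by
                simp only [mul_assoc]
            _ = T.b u * (ε * (r * ε)) * (T.b n * ((T.u (u : G))⁻¹ : Aˣ).val) := by
                rw [hεc _ (T.b_mem_sub u.2), conj_mul_b]
                simp only [mul_assoc]
            _ = T.b u * r * (T.b n * ((T.u (u : G))⁻¹ : Aˣ).val) := by
                rw [hR.mul_one r hr, hr.2]
            _ = _ := by rw [conj_apply]; simp only [mul_assoc]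
        rw [h3] at h4
        apply T.mul_b_cancel (g := n)
        rw [h4, zero_mul])
    have h6 : ∀ u : Q, ε * T.b u * ((T.u n)⁻¹ : Aˣ).val *
        (ε * T.conj n ((T.u (u : G))⁻¹ : Aˣ).val) = ε * ((T.u n)⁻¹ : Aˣ).val := by
      intro u
      have h5 : T.conj n ((T.u (u : G))⁻¹ : Aˣ).val ∈ T.sub Q :=
        T.conj_mem hn (T.u_inv_mem u.2)
      have e1 : ε * T.conj n ((T.u (u : G))⁻¹ : Aˣ).val =
          T.b n * ((T.u (u : G))⁻¹ : Aˣ).val * ((T.u n)⁻¹ : Aˣ).val * ε := by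
        rw [hεc _ h5]; rfl
      have e2 : ((T.u n)⁻¹ : Aˣ).val * T.b n = 1 := Units.inv_mul (T.u n)
      have e3 : T.b (u : G) * ((T.u (u : G))⁻¹ : Aˣ).val = 1 := Units.mul_inv (T.u (u : G))
      have e4 : ((T.u n)⁻¹ : Aˣ).val * ε = ε * ((T.u n)⁻¹ : Aˣ).val := by
        rw [hw ε hR.c_one]
      calc ε * T.b u * ((T.u n)⁻¹ : Aˣ).val * (ε * T.conj n ((T.u (u : G))⁻¹ : Aˣ).val)
          = ε * T.b u * (((T.u n)⁻¹ : Aˣ).val * T.b n) * ((T.u (u : G))⁻¹ : Aˣ).val *
              (((T.u n)⁻¹ : Aˣ).val * ε) := by rw [e1]; simp only [mul_assoc]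
        _ = ε * (T.b u * ((T.u (u : G))⁻¹ : Aˣ).val) * (((T.u n)⁻¹ : Aˣ).val * ε) := by
              rw [e2, mul_one]; simp only [mul_assoc]
        _ = ε * ((T.u n)⁻¹ : Aˣ).val := by
              rw [e3, mul_one, e4, ← mul_assoc, h.idem]
    rw [Finset.sum_congr rfl (fun u _ => h6 u), Finset.sum_const, Finset.card_univ,
      ← Nat.card_eq_fintype_card] at h2
    have h7 : (Nat.card Q : K) • (ε * ((T.u n)⁻¹ : Aˣ).val) = 0 := by
      rw [← h2]; exact Nat.cast_smul_eq_nsmul K _ _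
    have h8 := (smul_eq_zero.mp h7).resolve_left hQ
    apply h.ne
    have h9 := congrArg (fun t => t * T.b n) h8
    simp only [zero_mul, mul_assoc] at h9
    have e2 : ((T.u n)⁻¹ : Aˣ).val * T.b n = 1 := Units.inv_mul (T.u n)
    rw [e2, mul_one] at h9
    exact h9
  obtain ⟨r, hr, hne⟩ := hex
  obtain ⟨y, hy⟩ : ∃ y, y = ∑ u : Q, T.conj u r * (T.b u * T.conj n ((T.u (u : G))⁻¹ : Aˣ).val) :=
    ⟨_, rfl⟩
  have hterm : ∀ u : Q, T.conj u r * (T.b u * T.conj n ((T.u (u : G))⁻¹ : Aˣ).val) * T.b n =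
      T.conj u (r * T.b n) := by
    intro u
    have : T.b (u : G) * T.conj n ((T.u (u : G))⁻¹ : Aˣ).val * T.b n = T.conj u (T.b n) := by
      rw [mul_assoc, conj_mul_b, conj_apply, mul_assoc]
    rw [map_mul, ← this, mul_assoc]
  have hyc : y * T.b n = ∑ u : Q, T.conj u (r * T.b n) := by
    rw [hy, Finset.sum_mul]
    exact Finset.sum_congr rfl (fun u _ => hterm u)
  have hyR : y ∈ T.Rc Q ε := by
    rw [hy]
    apply Submodule.sum_mem
    intro u _
    have hu : (u : G) ∈ Subgroup.normalizer (Q : Set G) := Subgroup.le_normalizer u.2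
    have h1 : T.conj (u : G) r ∈ T.sub Q := T.conj_mem hu hr.1
    have h2 : T.b (u : G) * T.conj n ((T.u (u : G))⁻¹ : Aˣ).val ∈ T.sub Q :=
      (T.sub Q).mul_mem (T.b_mem_sub u.2) (T.conj_mem hn (T.u_inv_mem u.2))
    refine ⟨(T.sub Q).mul_mem h1 h2, ?_⟩
    have h3 : T.conj (u : G) ε = ε := by
      rw [conj_eq_iff, hεc _ (T.b_mem_sub u.2)]
    have h4 : ε * T.conj (u : G) r = T.conj (u : G) r := by
      conv_lhs => rw [← h3]
      rw [← map_mul, hr.2]
    rw [← mul_assoc, h4]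
  have hy0 : y ≠ 0 := by
    rintro rfl
    apply hne
    rw [← hyc, zero_mul]
  have hcomm : ∀ t ∈ Q, (y * T.b n) * T.b t = T.b t * (y * T.b n) := by
    intro t ht
    have h1 : T.conj t (y * T.b n) = y * T.b n := by
      rw [hyc, map_sum]
      apply Fintype.sum_equiv (Equiv.mulLeft (⟨t, ht⟩ : Q))
      intro u
      rw [← conj_mul]
      rfl
    rw [conj_eq_iff] at h1
    exact h1.symm
  have hcB : ∀ x ∈ T.sub Q, (y * T.b n) * x = x * (y * T.b n) := T.comm_of_b hcomm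
  -- `y x = conj n x y`, `x ∈ R`
  have hyx : ∀ x ∈ T.sub Q, x * y = y * T.conj n x := by
    intro x hx
    apply T.mul_b_cancel (g := n)
    rw [mul_assoc, mul_assoc, conj_mul_b, ← hcB x hx, mul_assoc]
  have hright : ε ∈ (T.Rc Q ε).map (LinearMap.mulLeft K y) := by
    apply hR.simple
    · rintro _ ⟨x, hx, rfl⟩
      exact hR.mul y hyR x hx
    · rintro p hp _ ⟨x, hx, rfl⟩
      simp only [LinearMap.mulLeft_apply]
      refine ⟨⟨T.conj n p * x, hR.mul _ (conj_mem_Rc hn hε hp) x hx, ?_⟩,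
        ⟨x * p, hR.mul x hx p hp, ?_⟩⟩
      · rw [LinearMap.mulLeft_apply, ← mul_assoc, ← hyx p hp.1, mul_assoc]
      · rw [LinearMap.mulLeft_apply, mul_assoc]
    · intro h0
      have : y ∈ (T.Rc Q ε).map (LinearMap.mulLeft K y) := ⟨ε, hR.one, by
        rw [LinearMap.mulLeft_apply, hR.mul_one y hyR]⟩
      rw [h0, Submodule.mem_bot] at this
      exact hy0 this
  have hleft : ε ∈ (T.Rc Q ε).map (LinearMap.mulRight K y) := by
    apply hR.simple
    · rintro _ ⟨x, hx, rfl⟩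
      exact hR.mul x hx y hyR
    · rintro p hp _ ⟨x, hx, rfl⟩
      simp only [LinearMap.mulRight_apply]
      refine ⟨⟨p * x, hR.mul p hp x hx, ?_⟩, ⟨x * T.conj n⁻¹ p, hR.mul x hx _
        (conj_mem_Rc hninv hεinv hp), ?_⟩⟩
      · rw [LinearMap.mulRight_apply, mul_assoc]
      · rw [LinearMap.mulRight_apply, mul_assoc, hyx _ (T.conj_mem hninv hp.1), conj_conj_inv,
          mul_assoc]
    · intro h0
      have : y ∈ (T.Rc Q ε).map (LinearMap.mulRight K y) := ⟨ε, hR.one, by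
        rw [LinearMap.mulRight_apply, hR.one_mul y hyR]⟩
      rw [h0, Submodule.mem_bot] at this
      exact hy0 this
  obtain ⟨y', hy', hyy'⟩ := hright
  obtain ⟨y'', hy'', hyy''⟩ := hleft
  rw [LinearMap.mulLeft_apply] at hyy'
  rw [LinearMap.mulRight_apply] at hyy''
  have heq : y'' = y' := by
    calc y'' = y'' * (y * y') := by rw [hyy', hR.mul_one _ hy'']
      _ = (y'' * y) * y' := by rw [mul_assoc]
      _ = y' := by rw [hyy'', hR.one_mul _ hy']
  exact ⟨y, hyR, y', hy', hyy', by rw [← heq]; exact hyy'', hcomm⟩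

end MinC

end TGA

end Pool.MP_9ebf7f_al.Sol
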