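import Pool.Agent.Lib.MP_9ebf7f_al.Basic
import Pool.Agent.Lib.MP_9ebf7f_al.Dim

/-!
# Sub twisted group algebras
-/

set_option autoImplicit false

namespace Pool.MP_9ebf7f_al.Sol

open Module

namespace TGA

variable {K G A : Type*} [Field K] [Group G] [Ring A] [Algebra K A] (T : TGA K G A)

/-- the span of the `b h`, `h ∈ H` -/
def sub (H : Subgroup G) : Subalgebra K A :=
  (Submodule.span K (T.b '' (H : Set G))).toSubalgebra
    (by
      rw [T.one_eq]
      exact Submodule.smul_mem _ _ (Submodule.subset_span ⟨1, H.one_mem, rfl⟩))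
    (by
      intro x y hx hy
      have h1 : x * y ∈ Submodule.span K (T.b '' (H : Set G)) *
          Submodule.span K (T.b '' (H : Set G)) := Submodule.mul_mem_mul hx hy
      rw [Submodule.span_mul_span] at h1
      refine (Submodule.span_le.mpr ?_) h1
      rintro _ ⟨_, ⟨g, hg, rfl⟩, _, ⟨h, hh, rfl⟩, rfl⟩
      simp only
      rw [T.hb]
      exact Submodule.smul_mem _ _ (Submodule.subset_span ⟨g * h, H.mul_mem hg hh, rfl⟩))

lemma mem_sub {H : Subgroup G} {a : A} : a ∈ T.sub H ↔ ∀ g, g ∉ H → T.b.repr a g = 0 := by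
  change a ∈ Submodule.span K (T.b '' (H : Set G)) ↔ _
  rw [Basis.mem_span_image]
  constructor
  · intro h g hg
    by_contra hne
    exact hg (h (Finsupp.mem_support_iff.mpr hne))
  · intro h g hg
    by_contra hne
    exact Finsupp.mem_support_iff.mp hg (h g hne)

lemma b_mem_sub {H : Subgroup G} {h : G} (hh : h ∈ H) : T.b h ∈ T.sub H :=
  Submodule.subset_span ⟨h, hh, rfl⟩

lemma sub_mono {H H' : Subgroup G} (h : H ≤ H') : T.sub H ≤ T.sub H' := by
  intro a ha
  rw [mem_sub] at ha ⊢
  exact fun g hg => ha g (fun h' => hg (h h'))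

/-- induction principle for elements of `T.sub H` -/
lemma sub_induction {H : Subgroup G} {p : A → Prop} (hb : ∀ h ∈ H, p (T.b h)) (h0 : p 0)
    (hadd : ∀ x y, p x → p y → p (x + y)) (hsmul : ∀ (c : K) x, p x → p (c • x)) {a : A}
    (ha : a ∈ T.sub H) : p a := by
  refine Submodule.span_induction (p := fun x _ => p x) ?_ h0 (fun x y _ _ => hadd x y)
    (fun c x _ => hsmul c x) ha
  rintro _ ⟨h, hh, rfl⟩
  exact hb h hh

/-- restriction of the twisted group algebra structure to a subgroup -/
noncomputable def res (H : Subgroup G) : TGA K H (T.sub H) where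
  b := Basis.mk (v := fun h : H => (⟨T.b h, T.b_mem_sub h.2⟩ : T.sub H))
    (by
      have h1 : LinearIndependent K (fun h : H => T.b (h : G)) :=
        T.b.linearIndependent.comp _ Subtype.val_injective
      exact LinearIndependent.of_comp (T.sub H).val.toLinearMap h1)
    (by
      rintro ⟨a, ha⟩ _
      have key : ∃ y ∈ Submodule.span K (Set.range (fun h : H =>
          (⟨T.b h, T.b_mem_sub h.2⟩ : T.sub H))), (y : A) = a := by
        refine T.sub_induction (p := fun a => ∃ y ∈ Submodule.span K (Set.range (fun h : H =>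
          (⟨T.b h, T.b_mem_sub h.2⟩ : T.sub H))), (y : A) = a) ?_ ?_ ?_ ?_ ha
        · intro h hh
          exact ⟨_, Submodule.subset_span ⟨⟨h, hh⟩, rfl⟩, rfl⟩
        · exact ⟨0, Submodule.zero_mem _, rfl⟩
        · rintro x y ⟨x', hx', rfl⟩ ⟨y', hy', rfl⟩
          exact ⟨x' + y', Submodule.add_mem _ hx' hy', rfl⟩
        · rintro c x ⟨x', hx', rfl⟩
          exact ⟨c • x', Submodule.smul_mem _ c hx', rfl⟩
      obtain ⟨y, hy, hya⟩ := key
      have : (⟨a, ha⟩ : T.sub H) = y := Subtype.ext hya.symm
      rw [this]; exact hy)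
  c := fun g h => T.c g h
  hc := fun g h => T.hc g h
  hb := by
    intro g h
    apply Subtype.ext
    simp only [Basis.coe_mk]
    exact T.hb g h

@[simp] lemma res_b (H : Subgroup G) (h : H) : ((T.res H).b h : A) = T.b h := by
  simp [res]

lemma res_tau (H : Subgroup G) (x : T.sub H) : (T.res H).tau x = T.tau (x : A) := by
  have h1 : (T.res H).tau = T.tau ∘ₗ (T.sub H).val.toLinearMap := by
    apply (T.res H).b.ext
    intro h
    by_cases hh : h = 1
    · subst hh
      have e1 : (T.res H).b 1 = (T.res H).c 1 1 • (1 : T.sub H) := (T.res H).b_one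
      rw [e1, map_smul, tau_one, map_smul]
      congr 1
      change 1 = T.tau ((1 : T.sub H) : A)
      rw [OneMemClass.coe_one, tau_one]
    · rw [tau_b _ hh]
      change 0 = T.tau ((T.res H).b h : A)
      rw [res_b, T.tau_b]
      intro h'
      exact hh (Subtype.ext h')
  exact LinearMap.congr_fun h1 x

/-- nondegeneracy of the trace form -/
lemma tau_nondeg {x : A} (h : ∀ z, T.tau (x * z) = 0) : x = 0 := by
  apply T.b.repr.injective
  ext g
  rw [map_zero, Finsupp.zero_apply]
  have h1 := h (T.b g⁻¹)
  have h2 : T.tau (x * T.b g⁻¹) = T.b.repr x g * (T.c g g⁻¹ * T.c 1 1) := by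
    have h3 : (T.tau ∘ₗ LinearMap.mulRight K (T.b g⁻¹)) =
        (T.c g g⁻¹ * T.c 1 1) • (Finsupp.lapply g ∘ₗ T.b.repr.toLinearMap) := by
      apply T.b.ext
      intro h
      by_cases hg : h = g
      · subst hg
        simp only [LinearMap.comp_apply, LinearMap.mulRight_apply, LinearMap.smul_apply]
        rw [b_mul_b_inv, map_smul, tau_one]
        simp
      · simp only [LinearMap.comp_apply, LinearMap.mulRight_apply, LinearMap.smul_apply]
        rw [T.hb, map_smul, tau_b]
        · simp [hg]
        · intro h'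
          exact hg (mul_inv_eq_one.mp h')
    have h4 := LinearMap.congr_fun h3 x
    simp only [LinearMap.comp_apply, LinearMap.mulRight_apply, LinearMap.smul_apply] at h4
    rw [h4]
    simp [mul_comm]
  rw [h2] at h1
  exact (mul_eq_zero.mp h1).resolve_right (mul_ne_zero (T.hc _ _) (T.hc _ _))

/-- trace of left multiplication -/
lemma trace_mulLeft [Finite G] (y : A) :
    LinearMap.trace K A (LinearMap.mulLeft K y) = (Nat.card G : K) * T.tau y := by
  classical
  have hfin : Module.Finite K A := Module.Finite.of_basis T.b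
  have := Fintype.ofFinite G
  have key : (LinearMap.trace K A) ∘ₗ (LinearMap.mul K A) = (Nat.card G : K) • T.tau := by
    apply T.b.ext
    intro g
    rw [LinearMap.smul_apply, smul_eq_mul, LinearMap.comp_apply]
    by_cases hg : g = 1
    · subst hg
      have h1 : (LinearMap.mul K A) (T.b 1) = (T.c 1 1) • (LinearMap.id : A →ₗ[K] A) := by
        ext z
        rw [T.b_one]; simp
      rw [h1, map_smul, T.b_one, map_smul, T.tau_one, LinearMap.trace_id,
        Module.finrank_eq_card_basis T.b, Nat.card_eq_fintype_card, smul_eq_mul, smul_eq_mul]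
      ring
    · rw [T.tau_b hg, mul_zero, LinearMap.trace_eq_matrix_trace K T.b, Matrix.trace]
      apply Finset.sum_eq_zero
      intro i _
      rw [Matrix.diag_apply, LinearMap.toMatrix_apply, LinearMap.mul_apply', T.hb]
      simp [hg]
  exact LinearMap.congr_fun key y

include T in
/-- semisimplicity (Maschke) -/
lemma semisimple [Finite G] (hG : (Nat.card G : K) ≠ 0) : IsSemisimpleRing A := by
  have hfin : Module.Finite K A := Module.Finite.of_basis T.b
  have hart : IsArtinianRing A := IsArtinianRing.of_finite K A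
  rw [IsArtinianRing.isSemisimpleRing_iff_jacobson]
  rw [eq_bot_iff]
  intro x hx
  have hnil : IsNilpotent (Ring.jacobson A) := by
    rw [← Ideal.jacobson_bot]; exact IsArtinianRing.isNilpotent_jacobson_bot
  rw [Submodule.mem_bot]
  apply T.tau_nondeg
  intro z
  rw [T.tau_mul_comm]
  have h1 : z * x ∈ Ring.jacobson A := (Ring.jacobson A).mul_mem_left z hx
  obtain ⟨n, hn⟩ := hnil
  have h2 : (z * x) ^ n = 0 := by
    have := Ideal.pow_mem_pow h1 n
    rw [hn] at this
    exact this
  have h3 : IsNilpotent (LinearMap.mulLeft K (z * x)) := by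
    refine ⟨n, ?_⟩
    rw [LinearMap.pow_mulLeft, h2]
    simp
  have h4 := LinearMap.isNilpotent_trace_of_isNilpotent h3
  rw [T.trace_mulLeft] at h4
  exact (mul_eq_zero.mp h4.eq_zero).resolve_left hG

/-- conjugation by `b g` as an algebra automorphism -/
noncomputable def conj (g : G) : A ≃ₐ[K] A where
  toFun x := (T.u g : A) * x * ((T.u g)⁻¹ : Aˣ)
  invFun x := ((T.u g)⁻¹ : Aˣ) * x * (T.u g : A)
  left_inv x := by
    simp only [mul_assoc]
    rw [Units.inv_mul, mul_one, Units.inv_mul_cancel_left]
  right_inv x := by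
    simp only [mul_assoc]
    rw [Units.mul_inv, mul_one, Units.mul_inv_cancel_left]
  map_mul' x y := by
    simp only [mul_assoc]
    rw [Units.inv_mul_cancel_left]
  map_add' x y := by rw [mul_add, add_mul]
  commutes' r := by
    rw [← Algebra.commutes, mul_assoc, Units.mul_inv, mul_one]

lemma conj_apply (g : G) (x : A) : T.conj g x = T.b g * x * ((T.u g)⁻¹ : Aˣ) := rfl

end TGA

end Pool.MP_9ebf7f_al.Sol
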