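import Pool.Agent.Lib.MP_9ebf7f_al.Final

/-!
# The class of the factor set on Sylow subgroups of perfect normal subgroups
-/

set_option autoImplicit false

namespace Pool.MP_9ebf7f_al.Sol

open Module Subgroup
open scoped commutatorElement

/-- transfer to an abelian group: a linear character of a Sylow `q`-subgroup of a perfect group
is trivial on central elements of order `q` -/
lemma sylow_char {E M : Type*} [Group E] [Finite E] [CommGroup M]
    (hE : _root_.commutator E = ⊤) {q : ℕ}
    [hq : Fact q.Prime] {z : E} (hz : z ∈ center E) (Q : Sylow q E)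
    (ψ : (Q : Subgroup E) →* M) (hzQ : z ^ (Q : Subgroup E).index ∈ (Q : Subgroup E)) :
    ψ ⟨z ^ (Q : Subgroup E).index, hzQ⟩ = 1 := by
  have key : ∀ (k : ℕ) (g₀ : E), g₀⁻¹ * z ^ k * g₀ ∈ (Q : Subgroup E) →
      g₀⁻¹ * z ^ k * g₀ = z ^ k := by
    intro k g₀ _
    have h1 : z ^ k ∈ center E := (center E).pow_mem hz k
    rw [mem_center_iff] at h1
    rw [mul_assoc, ← h1 g₀]
    group
  have h1 : MonoidHom.transfer ψ z = ψ ⟨z ^ (Q : Subgroup E).index,
      MonoidHom.transfer_eq_pow_aux z key⟩ := MonoidHom.transfer_eq_pow ψ z key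
  have h2 : MonoidHom.transfer ψ z = 1 := by
    have h3 : z ∈ _root_.commutator E := by rw [hE]; trivial
    exact (Abelianization.commutator_subset_ker (MonoidHom.transfer ψ)) h3
  rw [h2] at h1
  exact h1.symm

namespace TGA

variable {K G A : Type*} [Field K] [Group G] [Ring A] [Algebra K A] (T : TGA K G A)

/-- the coefficient of a homogeneous unit -/
noncomputable def coef (x : T.Gam) : K := T.b.repr (T.un x : A) (T.deg x)

lemma coef_spec (x : T.Gam) : (T.un x : A) = T.coef x • T.b (T.deg x) := by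
  obtain ⟨a, ha, hx⟩ := T.exists_coef x
  have : T.coef x = a := by
    unfold coef
    rw [hx]; simp
  rw [this, hx]

lemma coef_ne (x : T.Gam) : T.coef x ≠ 0 := by
  obtain ⟨a, ha, hx⟩ := T.exists_coef x
  have : T.coef x = a := by
    unfold coef
    rw [hx]; simp
  rw [this]; exact ha

lemma coef_mul (x y : T.Gam) : T.coef (x * y) = T.coef x * T.coef y * T.c (T.deg x) (T.deg y) := by
  have h1 : (T.un (x * y) : A) = (T.coef x * T.coef y * T.c (T.deg x) (T.deg y)) •
      T.b (T.deg (x * y)) := by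
    rw [map_mul, Units.val_mul, T.coef_spec x, T.coef_spec y, smul_mul_smul_comm, T.hb, smul_smul,
      map_mul T.deg]
  unfold coef at h1 ⊢
  rw [h1]
  simp

include T in
/-- (B') -/
theorem perfect_normal' [Finite G] [IsSimpleRing A] (H : Subgroup G) (hN : H.Normal)
    (hH : ⁅H, H⁆ = H) {q : ℕ} (hq : q.Prime) (hqd : q ∣ Nat.card H) (Q : Sylow q H)
    (F : Type*) [Field F] [Algebra K F] (f : ↥(Q : Subgroup H) → F) (hf0 : ∀ x, f x ≠ 0)
    (hf : ∀ x y : (Q : Subgroup H), algebraMap K F (T.c x y) = f x * f y * (f (x * y))⁻¹) :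
    False := by
  have : Fact q.Prime := ⟨hq⟩
  have hfin : Finite (cov T.deg H) := cov_finite T.deg T.ker_le_center H
  have hmap : (cov T.deg H).map T.deg = H := cov_map T.deg T.deg_surj hH
  have hperf : ⁅cov T.deg H, cov T.deg H⁆ = cov T.deg H :=
    cov_perfect T.deg T.ker_le_center T.deg_surj hH
  -- the quotient map onto `H`
  let π : cov T.deg H →* H := (T.deg.comp (cov T.deg H).subtype).codRestrict H (by
    intro x
    have : T.deg x.1 ∈ (cov T.deg H).map T.deg := ⟨x.1, x.2, rfl⟩
    rw [hmap] at this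
    exact this)
  have hπ : Function.Surjective π := by
    intro h
    have h1 : h.1 ∈ (cov T.deg H).map T.deg := by rw [hmap]; exact h.2
    obtain ⟨x, hx, hxh⟩ := h1
    exact ⟨⟨x, hx⟩, Subtype.ext hxh⟩
  have hπv : ∀ x, ((π x : H) : G) = T.deg x.1 := fun x => rfl
  have hcardE : q ∣ Nat.card (cov T.deg H) := hqd.trans (Subgroup.card_dvd_of_surjective π hπ)
  obtain ⟨x, hx⟩ := exists_prime_orderOf_dvd_card' (G := cov T.deg H) q hcardE
  have hxord : orderOf (x : T.Gam) = q := by rw [Subgroup.orderOf_coe, hx]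
  have hqK : (q : K) ≠ 0 := (T.perfect_normal H hN hH hq hqd).1
  -- a scalar of order `q` in the cover
  obtain ⟨z, hz, hzdeg, hzq, hz1⟩ : ∃ z ∈ cov T.deg H, T.deg z = 1 ∧ z ^ q = 1 ∧ z ≠ 1 := by
    by_contra hcon
    push Not at hcon
    exact T.no_order_prime hq hqK (cov T.deg H) hcon x.2 hxord
  have hcommE : _root_.commutator (cov T.deg H) = ⊤ := by
    have := map_subtype_commutator (cov T.deg H)
    rw [hperf] at this
    apply Subgroup.map_injective (cov T.deg H).subtype_injective
    rw [this, ← MonoidHom.range_eq_map, Subgroup.range_subtype]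
  let z' : cov T.deg H := ⟨z, hz⟩
  have hz'c : z' ∈ center (cov T.deg H) := by
    have h2 : z ∈ center T.Gam := T.ker_le_center hzdeg
    rw [mem_center_iff] at h2 ⊢
    intro w
    exact Subtype.ext (h2 w.1)
  obtain ⟨P, hP⟩ := Sylow.mapSurjective_surjective hπ q Q
  have hP' : (P : Subgroup (cov T.deg H)).map π = (Q : Subgroup H) := by
    rw [← hP]; rfl
  let g : ↥(P : Subgroup (cov T.deg H)) → ↥(Q : Subgroup H) := fun x =>
    ⟨π x.1, by rw [← hP']; exact ⟨x.1, x.2, rfl⟩⟩
  have hgmul : ∀ x y, g (x * y) = g x * g y := by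
    intro x y
    apply Subtype.ext
    change π (x.1 * y.1) = π x.1 * π y.1
    rw [map_mul]
  have hgone : g 1 = 1 := by
    apply Subtype.ext
    change π 1 = 1
    rw [map_one]
  have hgG : ∀ x, (((g x : (Q : Subgroup H)) : H) : G) = T.deg (x.1 : T.Gam) := fun x => rfl
  -- the linear character
  let φ : (P : Subgroup (cov T.deg H)) →* F :=
    { toFun := fun x => algebraMap K F (T.coef (x.1 : T.Gam)) * f (g x)
      map_one' := by
        have h1 : T.coef (((1 : (P : Subgroup (cov T.deg H))).1 : cov T.deg H) : T.Gam) =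
            (T.c 1 1)⁻¹ := by
          change T.coef 1 = _
          unfold coef
          rw [map_one, map_one, Units.val_one, T.one_eq]
          simp
        rw [h1, hgone]
        have h2 := hf 1 1
        rw [mul_one, mul_assoc, mul_inv_cancel₀ (hf0 1), mul_one] at h2
        have h3 : T.c ((1 : (Q : Subgroup H)) : G) ((1 : (Q : Subgroup H)) : G) = T.c 1 1 := rfl
        rw [h3] at h2
        rw [← h2, ← map_mul, inv_mul_cancel₀ (T.hc 1 1), map_one]
      map_mul' := by
        intro x y
        have h1 : T.coef (((x * y).1 : cov T.deg H) : T.Gam) = T.coef (x.1 : T.Gam) *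
            T.coef (y.1 : T.Gam) * T.c (T.deg (x.1 : T.Gam)) (T.deg (y.1 : T.Gam)) :=
          T.coef_mul _ _
        rw [h1, hgmul, map_mul, map_mul]
        have h2 := hf (g x) (g y)
        rw [hgG, hgG] at h2
        rw [h2]
        have h3 := hf0 (g x * g y)
        field_simp }
  let ψ : (P : Subgroup (cov T.deg H)) →* Fˣ := φ.toHomUnits
  have hzP : z' ^ (P : Subgroup (cov T.deg H)).index ∈ (P : Subgroup (cov T.deg H)) := by
    apply MonoidHom.transfer_eq_pow_aux
    intro k g₀ _
    have h1 : z' ^ k ∈ center (cov T.deg H) := (center _).pow_mem hz'c k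
    rw [mem_center_iff] at h1
    rw [mul_assoc, ← h1 g₀]
    group
  have hψ := sylow_char hcommE hz'c P ψ hzP
  -- evaluate
  set i := (P : Subgroup (cov T.deg H)).index with hi
  have hzi : T.deg (z ^ i) = 1 := by rw [map_pow, hzdeg, one_pow]
  have hval : φ ⟨z' ^ i, hzP⟩ = 1 := by
    have := congrArg Units.val hψ
    exact this
  have hgz : g ⟨z' ^ i, hzP⟩ = 1 := by
    apply Subtype.ext
    apply Subtype.ext
    rw [hgG]
    exact hzi
  have hcz : algebraMap K F (T.coef (z ^ i)) * f 1 = 1 := by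
    rw [← hgz]
    exact hval
  have h2 := hf 1 1
  rw [mul_one, mul_assoc, mul_inv_cancel₀ (hf0 1), mul_one] at h2
  have h3 : T.c ((1 : (Q : Subgroup H)) : G) ((1 : (Q : Subgroup H)) : G) = T.c 1 1 := rfl
  rw [h3] at h2
  rw [← h2, ← map_mul] at hcz
  have h4 : T.coef (z ^ i) * T.c 1 1 = 1 := by
    have : algebraMap K F (T.coef (z ^ i) * T.c 1 1) = algebraMap K F 1 := by
      rw [hcz, map_one]
    exact (algebraMap K F).injective this
  have h5 : z ^ i = 1 := by
    apply T.un_inj
    apply Units.ext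
    rw [T.coef_spec, hzi, T.b_one, smul_smul, h4, one_smul, map_one, Units.val_one]
  have hzord : orderOf z = q := orderOf_eq_prime hzq hz1
  have h6 := orderOf_dvd_of_pow_eq_one h5
  rw [hzord] at h6
  exact P.not_dvd_index h6

end TGA

end Pool.MP_9ebf7f_al.Sol
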