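import Pool.Agent.Lib.MP_9ebf7f_al.Orbit
import Pool.Agent.Lib.MP_9ebf7f_al.MinNorm

/-!
# The group of units lifting the inertia group
-/

set_option autoImplicit false

namespace Pool.MP_9ebf7f_al.Sol

open Module

namespace TGA

variable {K G A : Type*} [Field K] [Group G] [Ring A] [Algebra K A] (T : TGA K G A)

/-- `R b_g` -/
noncomputable def Rb (Q : Subgroup G) (ε : A) (g : G) : Submodule K A :=
  (T.Rc Q ε).map (LinearMap.mulRight K (T.b g))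

lemma mem_Rb {Q : Subgroup G} {ε : A} {g : G} {a : A} :
    a ∈ T.Rb Q ε g ↔ ∃ y ∈ T.Rc Q ε, y * T.b g = a := Iff.rfl

/-- coefficients of `y b_x` -/
lemma repr_mul_b (y : A) (g x : G) : T.b.repr (y * T.b x) (g * x) = T.b.repr y g * T.c g x := by
  have h1 : (Finsupp.lapply (g * x) ∘ₗ T.b.repr.toLinearMap ∘ₗ LinearMap.mulRight K (T.b x) :
      A →ₗ[K] K) = T.c g x • (Finsupp.lapply g ∘ₗ T.b.repr.toLinearMap) := by
    apply T.b.ext
    intro h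
    simp only [LinearMap.comp_apply, LinearMap.smul_apply, LinearMap.mulRight_apply, T.hb,
      LinearEquiv.coe_coe, map_smul, Basis.repr_self, Finsupp.lapply_apply, smul_eq_mul]
    by_cases hg : h = g
    · subst hg; simp
    · have : h * x ≠ g * x := fun h' => hg (mul_right_cancel h')
      simp [hg, this]
  have h2 := LinearMap.congr_fun h1 y
  simp only [LinearMap.comp_apply, LinearMap.smul_apply, LinearMap.mulRight_apply,
    LinearEquiv.coe_coe, Finsupp.lapply_apply, smul_eq_mul] at h2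
  rw [h2, mul_comm]

lemma Rb_supp {Q : Subgroup G} {ε : A} {g : G} {a : A} (ha : a ∈ T.Rb Q ε g) {x : G}
    (hx : T.b.repr a x ≠ 0) : x * g⁻¹ ∈ Q := by
  obtain ⟨y, hy, rfl⟩ := T.mem_Rb.mp ha
  have h1 := T.repr_mul_b y (x * g⁻¹) g
  rw [inv_mul_cancel_right] at h1
  rw [h1] at hx
  by_contra hne
  exact hx (by rw [(T.mem_sub.mp hy.1) _ hne, zero_mul])

lemma Rb_unique {Q : Subgroup G} {ε : A} {g g' : G} {a : A} (ha0 : a ≠ 0)
    (ha : a ∈ T.Rb Q ε g) (ha' : a ∈ T.Rb Q ε g') : g' * g⁻¹ ∈ Q := by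
  obtain ⟨x, hx⟩ : ∃ x, T.b.repr a x ≠ 0 := by
    by_contra hcon
    push Not at hcon
    apply ha0
    apply T.b.repr.injective
    ext x
    rw [hcon x]; simp
  have h1 := T.Rb_supp ha hx
  have h2 := T.Rb_supp ha' hx
  have := Q.mul_mem (Q.inv_mem h2) h1
  rwa [mul_inv_rev, inv_inv, mul_assoc, inv_mul_cancel_left] at this

lemma Rb_le {Q P : Subgroup G} {ε : A} {g : G} (hQ : Q ≤ P) (hg : g ∈ P) {a : A}
    (ha : a ∈ T.Rb Q ε g) : a ∈ T.sub P := by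
  obtain ⟨y, hy, rfl⟩ := T.mem_Rb.mp ha
  exact (T.sub P).mul_mem (T.sub_mono hQ hy.1) (T.b_mem_sub hg)

variable {T}

lemma Rb_mul {Q : Subgroup G} {ε : A} {g g' : G} (hg : g ∈ T.stab Q ε) {a a' : A}
    (ha : a ∈ T.Rb Q ε g) (ha' : a' ∈ T.Rb Q ε g') : a * a' ∈ T.Rb Q ε (g * g') := by
  obtain ⟨y, hy, rfl⟩ := T.mem_Rb.mp ha
  obtain ⟨y', hy', rfl⟩ := T.mem_Rb.mp ha'
  refine T.mem_Rb.mpr ⟨T.c g g' • (y * T.conj g y'), ?_, ?_⟩
  · apply Submodule.smul_mem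
    have h1 := MinC.conj_mem_Rc hg.1 hg.2 hy'
    exact ⟨(T.sub Q).mul_mem hy.1 h1.1, by rw [← mul_assoc, hy.2]⟩
  · have e1 : y * T.b g * (y' * T.b g') = y * (T.conj g y' * T.b g) * T.b g' := by
      rw [conj_mul_b]; simp only [mul_assoc]
    rw [e1, smul_mul_assoc, mul_assoc y, mul_assoc y, mul_assoc (T.conj g y'), T.hb,
      mul_smul_comm, mul_smul_comm]

lemma Rb_conj {Q : Subgroup G} {ε : A} {g k : G} (hk : k ∈ T.stab Q ε) {a : A}
    (ha : a ∈ T.Rb Q ε g) : T.conj k a ∈ T.Rb Q ε (k * g * k⁻¹) := by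
  obtain ⟨y, hy, rfl⟩ := T.mem_Rb.mp ha
  obtain ⟨c, _, hc⟩ := T.conj_b k g
  refine T.mem_Rb.mpr ⟨c • T.conj k y, Submodule.smul_mem _ _ (MinC.conj_mem_Rc hk.1 hk.2 hy), ?_⟩
  rw [map_mul (T.conj k), hc, smul_mul_assoc, mul_smul_comm]

lemma Rb_one {Q : Subgroup G} {ε : A} (h : T.MinC Q ε) : ε ∈ T.Rb Q ε 1 := by
  refine T.mem_Rb.mpr ⟨(T.c 1 1)⁻¹ • ε, Submodule.smul_mem _ _ ⟨h.mem, h.idem⟩, ?_⟩
  rw [b_one, smul_mul_smul_comm, mul_one, inv_mul_cancel₀ (T.hc 1 1), one_smul]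

/-- `v` is a unit of degree `n` centralising `K^α Q`, trivial outside the component `ε` -/
structure IsV (T : TGA K G A) (Q : Subgroup G) (ε : A) (v : Aˣ) (n : G) : Prop where
  left : (1 - ε) * (v : A) = 1 - ε
  right : (v : A) * (1 - ε) = 1 - ε
  comm : ∀ u ∈ Q, (v : A) * T.b u = T.b u * v
  mem : n ∈ T.stab Q ε
  deg : ε * v ∈ T.Rb Q ε n
  deg_inv : ε * ((v⁻¹ : Aˣ) : A) ∈ T.Rb Q ε n⁻¹

namespace IsV

variable {Q : Subgroup G} {ε : A} {v w : Aˣ} {n m : G}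

lemma comm_eps (hv : IsV T Q ε v n) : ε * (v : A) = v * ε := by
  have h1 := hv.left
  have h2 := hv.right
  rw [sub_mul, one_mul] at h1
  rw [mul_sub, mul_one] at h2
  have h3 : (v : A) - ε * v = v - v * ε := by rw [h1, h2]
  exact sub_right_injective h3

lemma one (h : T.MinC Q ε) : IsV T Q ε 1 1 where
  left := by simp
  right := by simp
  comm := by simp
  mem := (T.stab Q ε).one_mem
  deg := by rw [Units.val_one, mul_one]; exact Rb_one h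
  deg_inv := by rw [inv_one, inv_one, Units.val_one, mul_one]; exact Rb_one h

lemma inv (hv : IsV T Q ε v n) : IsV T Q ε v⁻¹ n⁻¹ where
  left := by rw [Units.mul_inv_eq_iff_eq_mul]; exact hv.left.symm
  right := by rw [Units.inv_mul_eq_iff_eq_mul]; exact hv.right.symm
  comm := fun u hu => by
    rw [Units.inv_mul_eq_iff_eq_mul, ← mul_assoc, hv.comm u hu, mul_assoc, Units.mul_inv, mul_one]
  mem := (T.stab Q ε).inv_mem hv.mem
  deg := hv.deg_inv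
  deg_inv := by rw [inv_inv, inv_inv]; exact hv.deg

lemma mul (hε : ε * ε = ε) (hv : IsV T Q ε v n) (hw : IsV T Q ε w m) :
    IsV T Q ε (v * w) (n * m) where
  left := by rw [Units.val_mul, ← mul_assoc, hv.left, hw.left]
  right := by rw [Units.val_mul, mul_assoc, hw.right, hv.right]
  comm := fun u hu => by
    rw [Units.val_mul, mul_assoc, hw.comm u hu, ← mul_assoc, hv.comm u hu, mul_assoc]
  mem := (T.stab Q ε).mul_mem hv.mem hw.mem
  deg := by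
    have h1 := Rb_mul hv.mem hv.deg hw.deg
    have h2 : ε * (v : A) * (ε * w) = ε * ((v * w : Aˣ) : A) := by
      rw [Units.val_mul]
      calc ε * (v : A) * (ε * w) = ε * ((v : A) * ε) * w := by simp only [mul_assoc]
        _ = ε * (ε * (v : A)) * w := by rw [hv.comm_eps]
        _ = (ε * ε) * ((v : A) * w) := by simp only [mul_assoc]
        _ = _ := by rw [hε]
    rwa [h2] at h1
  deg_inv := by
    have h1 := Rb_mul hw.inv.mem hw.inv.deg hv.inv.deg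
    have h2 : ε * ((w⁻¹ : Aˣ) : A) * (ε * ((v⁻¹ : Aˣ) : A)) = ε * (((v * w)⁻¹ : Aˣ) : A) := by
      rw [mul_inv_rev, Units.val_mul]
      calc ε * ((w⁻¹ : Aˣ) : A) * (ε * ((v⁻¹ : Aˣ) : A)) =
            ε * (((w⁻¹ : Aˣ) : A) * ε) * ((v⁻¹ : Aˣ) : A) := by simp only [mul_assoc]
        _ = ε * (ε * ((w⁻¹ : Aˣ) : A)) * ((v⁻¹ : Aˣ) : A) := by rw [hw.inv.comm_eps]
        _ = (ε * ε) * (((w⁻¹ : Aˣ) : A) * ((v⁻¹ : Aˣ) : A)) := by simp only [mul_assoc]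
        _ = _ := by rw [hε]
    rw [h2, ← mul_inv_rev] at h1
    exact h1

lemma conj (hv : IsV T Q ε v n) {k : G} (hk : k ∈ T.stab Q ε) :
    IsV T Q ε (T.u k * v * (T.u k)⁻¹) (k * n * k⁻¹) := by
  have e1 : ((T.u k * v * (T.u k)⁻¹ : Aˣ) : A) = T.conj k v := rfl
  have e2 : (((T.u k * v * (T.u k)⁻¹)⁻¹ : Aˣ) : A) = T.conj k ((v⁻¹ : Aˣ) : A) := by
    have : (T.u k * v * (T.u k)⁻¹)⁻¹ = T.u k * v⁻¹ * (T.u k)⁻¹ := by group
    rw [this]; rfl
  have e3 : T.conj k (1 - ε) = 1 - ε := by rw [map_sub, map_one, hk.2]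
  have hkinv := (T.stab Q ε).inv_mem hk
  refine ⟨?_, ?_, ?_, ?_, ?_, ?_⟩
  · rw [e1]; conv_lhs => rw [← e3]
    rw [← map_mul, hv.left, e3]
  · rw [e1]; conv_lhs => rw [← e3]
    rw [← map_mul, hv.right, e3]
  · intro u hu
    rw [e1]
    have h1 : T.conj k⁻¹ (T.b u) ∈ T.sub Q := T.conj_mem hkinv.1 (T.b_mem_sub hu)
    have h2 := T.comm_of_b hv.comm _ h1
    have h3 := congrArg (T.conj k) h2
    rwa [map_mul, map_mul, conj_conj_inv] at h3
  · exact (T.stab Q ε).mul_mem ((T.stab Q ε).mul_mem hk hv.mem) hkinv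
  · rw [e1]
    have := Rb_conj hk hv.deg
    rwa [map_mul, hk.2] at this
  · rw [e2]
    have := Rb_conj hk hv.deg_inv
    rw [map_mul, hk.2] at this
    rwa [show (k * n * k⁻¹)⁻¹ = k * n⁻¹ * k⁻¹ by group]

lemma ne_zero (hε : ε ≠ 0) : ε * (v : A) ≠ 0 := by
  intro h0
  apply hε
  have := congrArg (fun t => t * ((v⁻¹ : Aˣ) : A)) h0
  simpa [mul_assoc] using this

lemma unique (hε : ε ≠ 0) (hv : IsV T Q ε v n) (hv' : IsV T Q ε v m) : m * n⁻¹ ∈ Q :=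
  T.Rb_unique (ne_zero hε) hv.deg hv'.deg

/-- elements of degree in `Q` are central -/
lemma central (h : T.MinC Q ε) (hv : IsV T Q ε v n) (hn : n ∈ Q) (hw : IsV T Q ε w m) :
    v * w = w * v := by
  have h1 : ε * (v : A) ∈ T.sub Q := T.Rb_le le_rfl hn hv.deg
  have h2 : (v : A) = ε * v + (1 - ε) := by
    rw [← hv.left]; rw [sub_mul, one_mul]; abel
  have h3 : (v : A) ∈ T.sub Q := by
    rw [h2]
    exact (T.sub Q).add_mem h1 ((T.sub Q).sub_mem (T.sub Q).one_mem h.mem)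
  apply Units.ext
  rw [Units.val_mul, Units.val_mul]
  exact (T.comm_of_b hw.comm _ h3).symm

end IsV

/-- Skolem-Noether units -/
lemma exists_isV [Finite G] {Q : Subgroup G} {ε : A} (hQ : (Nat.card Q : K) ≠ 0)
    (h : T.MinC Q ε) {n : G} (hn : n ∈ T.stab Q ε)
    (hz : ∀ z, IsC (T.Rc Q ε) z → T.conj n z = z) : ∃ v, IsV T Q ε v n := by
  obtain ⟨y, hy, y', hy', h1, h2, h3⟩ := h.sn hQ hn.1 hn.2 hz
  have hninv := (T.stab Q ε).inv_mem hn
  have e1 : ((T.u n)⁻¹ : Aˣ).val * T.b n = 1 := Units.inv_mul (T.u n)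
  have e2 : T.b n * ((T.u n)⁻¹ : Aˣ).val = 1 := Units.mul_inv (T.u n)
  have hεn : T.b n * ε = ε * T.b n := T.conj_eq_iff.mp hn.2
  have hεn' : ((T.u n)⁻¹ : Aˣ).val * ε = ε * ((T.u n)⁻¹ : Aˣ).val := by
    rw [Units.inv_mul_eq_iff_eq_mul, ← mul_assoc, u_val, hεn, mul_assoc, e2, mul_one]
  have hyε : y * ε = y := by rw [← h.comm y hy.1, hy.2]
  have hy'ε : y' * ε = y' := by rw [← h.comm y' hy'.1, hy'.2]
  have a1 : y * T.b n * (1 - ε) = 0 := by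
    rw [mul_sub, mul_one, mul_assoc, hεn, ← mul_assoc, hyε, sub_self]
  have a2 : (1 - ε) * (y * T.b n) = 0 := by
    rw [sub_mul, one_mul, ← mul_assoc, hy.2, sub_self]
  have a3 : ((T.u n)⁻¹ : Aˣ).val * y' * (1 - ε) = 0 := by
    rw [mul_sub, mul_one, mul_assoc, hy'ε, sub_self]
  have a4 : (1 - ε) * (((T.u n)⁻¹ : Aˣ).val * y') = 0 := by
    rw [sub_mul, one_mul, ← mul_assoc, ← hεn', mul_assoc, hy'.2, sub_self]
  have a5 : (1 - ε) * (1 - ε) = 1 - ε := by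
    rw [mul_sub, mul_one, sub_mul, one_mul, h.idem, sub_self, sub_zero]
  have b1 : (y * T.b n) * (((T.u n)⁻¹ : Aˣ).val * y') = ε := by
    rw [mul_assoc, ← mul_assoc (T.b n), e2, one_mul, h1]
  have b2 : (((T.u n)⁻¹ : Aˣ).val * y') * (y * T.b n) = ε := by
    rw [mul_assoc, ← mul_assoc y', h2, ← hεn, ← mul_assoc, e1, one_mul]
  let v : Aˣ := ⟨y * T.b n + (1 - ε), ((T.u n)⁻¹ : Aˣ).val * y' + (1 - ε), by
    rw [add_mul, mul_add, mul_add, a1, a4, a5, b1]; abel, by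
    rw [add_mul, mul_add, mul_add, a3, a2, a5, b2]; abel⟩
  have hv : (v : A) = y * T.b n + (1 - ε) := rfl
  have hvi : ((v⁻¹ : Aˣ) : A) = ((T.u n)⁻¹ : Aˣ).val * y' + (1 - ε) := rfl
  have a6 : ε * (1 - ε) = 0 := by rw [mul_sub, mul_one, h.idem, sub_self]
  refine ⟨v, ⟨?_, ?_, ?_, hn, ?_, ?_⟩⟩
  · rw [hv, mul_add, a2, a5, zero_add]
  · rw [hv, add_mul, a1, a5, zero_add]
  · intro u hu
    rw [hv, add_mul, mul_add, h3 u hu, sub_mul, mul_sub, one_mul, mul_one,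
      h.comm _ (T.b_mem_sub hu)]
  · rw [hv, mul_add, a6, add_zero, ← mul_assoc, hy.2]
    exact T.mem_Rb.mpr ⟨y, hy, rfl⟩
  · rw [hvi, mul_add, a6, add_zero, ← mul_assoc, ← hεn', mul_assoc, hy'.2]
    obtain ⟨a, _, ha⟩ := T.u_inv n
    refine T.mem_Rb.mpr ⟨a • T.conj n⁻¹ y',
      Submodule.smul_mem _ _ (MinC.conj_mem_Rc hninv.1 hninv.2 hy'), ?_⟩
    rw [smul_mul_assoc, conj_mul_b, ha, smul_mul_assoc]

section VV

variable {Q : Subgroup G} {ε : A} (h : T.MinC Q ε) (M : Subgroup G) [M.Normal] (X : Subgroup G)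

/-- the group of units with degree in `X`, together with the degree modulo `M` -/
def VV : Subgroup (Aˣ × (G ⧸ M)) where
  carrier := {p | ∃ n ∈ X, (n : G ⧸ M) = p.2 ∧ IsV T Q ε p.1 n}
  one_mem' := ⟨1, X.one_mem, rfl, IsV.one h⟩
  mul_mem' := by
    rintro p p' ⟨n, hn, hnp, hv⟩ ⟨n', hn', hnp', hv'⟩
    exact ⟨n * n', X.mul_mem hn hn', by rw [QuotientGroup.mk_mul, hnp, hnp']; rfl,
      hv.mul h.idem hv'⟩
  inv_mem' := by
    rintro p ⟨n, hn, hnp, hv⟩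
    exact ⟨n⁻¹, X.inv_mem hn, by rw [QuotientGroup.mk_inv, hnp]; rfl, hv.inv⟩

lemma mem_VV {p : Aˣ × (G ⧸ M)} :
    p ∈ VV h M X ↔ ∃ n ∈ X, (n : G ⧸ M) = p.2 ∧ IsV T Q ε p.1 n := Iff.rfl

lemma VV_mono {X X' : Subgroup G} (hX : X ≤ X') : VV h M X ≤ VV h M X' := by
  rintro p ⟨n, hn, hp⟩
  exact ⟨n, hX hn, hp⟩

lemma VV_central (hQM : Q ≤ M) {p p' : Aˣ × (G ⧸ M)} (hp : p ∈ VV h M Q) (hp' : p' ∈ VV h M X) :
    p * p' = p' * p := by
  obtain ⟨n, hn, hnp, hv⟩ := hp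
  obtain ⟨m, hm, hmp, hw⟩ := hp'
  have h1 : p.2 = 1 := by rw [← hnp]; exact (QuotientGroup.eq_one_iff n).mpr (hQM hn)
  apply Prod.ext
  · exact hv.central h hn hw
  · rw [Prod.snd_mul, Prod.snd_mul, h1, one_mul, mul_one]

lemma VV_relIndex [Finite G] : (VV h M Q).relIndex (VV h M X) ≠ 0 := by
  classical
  unfold Subgroup.relIndex
  let N : ↥(VV h M X) → G := fun p => Classical.choose p.2
  have hN : ∀ p : VV h M X, N p ∈ X ∧ (N p : G ⧸ M) = p.1.2 ∧ IsV T Q ε p.1.1 (N p) := fun p =>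
    Classical.choose_spec p.2
  have : Finite (↥(VV h M X) ⧸ (VV h M Q).subgroupOf (VV h M X)) := by
    apply Finite.of_injective (fun c => N (Quotient.out c))
    intro c c' hcc
    simp only at hcc
    obtain ⟨_, h2, h3⟩ := hN (Quotient.out c)
    obtain ⟨_, h5, h6⟩ := hN (Quotient.out c')
    rw [hcc] at h2 h3
    have h7 : (Quotient.out c)⁻¹ * (Quotient.out c') ∈ (VV h M Q).subgroupOf (VV h M X) := by
      rw [Subgroup.mem_subgroupOf, mem_VV]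
      refine ⟨1, Q.one_mem, ?_, ?_⟩
      · change (1 : G ⧸ M) = ((Quotient.out c).1.2)⁻¹ * (Quotient.out c').1.2
        rw [← h2, ← h5, inv_mul_cancel]
      · have h8 := h3.inv.mul h.idem h6
        rw [inv_mul_cancel] at h8
        exact h8
    have h9 := QuotientGroup.eq.mpr h7
    have e1 : (QuotientGroup.mk (Quotient.out c) : ↥(VV h M X) ⧸ _) = c := Quotient.out_eq' c
    have e2 : (QuotientGroup.mk (Quotient.out c') : ↥(VV h M X) ⧸ _) = c' := Quotient.out_eq' c'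
    rw [← e1, ← e2]
    exact h9
  exact Subgroup.index_ne_zero_of_finite

lemma VV_conj {k : G} (hk : k ∈ T.stab Q ε) (hX : ∀ n ∈ X, k * n * k⁻¹ ∈ X)
    {p : Aˣ × (G ⧸ M)} (hp : p ∈ VV h M X) :
    (T.u k, (k : G ⧸ M)) * p * (T.u k, (k : G ⧸ M))⁻¹ ∈ VV h M X := by
  obtain ⟨n, hn, hnp, hv⟩ := hp
  refine ⟨k * n * k⁻¹, hX n hn, ?_, hv.conj hk⟩
  rw [QuotientGroup.mk_mul, QuotientGroup.mk_mul, hnp]
  rfl

lemma VV_map [Finite G] (hQ : (Nat.card Q : K) ≠ 0) (hX : X ≤ T.stab Q ε)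
    (hz : ∀ n ∈ X, ∀ z, IsC (T.Rc Q ε) z → T.conj n z = z) :
    (VV h M X).map (MonoidHom.snd Aˣ (G ⧸ M)) = X.map (QuotientGroup.mk' M) := by
  ext x
  constructor
  · rintro ⟨p, ⟨n, hn, hnp, _⟩, rfl⟩
    exact ⟨n, hn, hnp⟩
  · rintro ⟨n, hn, rfl⟩
    obtain ⟨v, hv⟩ := exists_isV hQ h (hX hn) (hz n hn)
    exact ⟨(v, (n : G ⧸ M)), ⟨n, hn, rfl, hv⟩, rfl⟩

end VV

end TGA

end Pool.MP_9ebf7f_al.Sol
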